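import Pool.Agent.Helper16.Bic.Concrete

universe u

namespace Bic

open Function Module

/-- The main theorem in elementary terms, for a field algebraic over a finite prime field. -/
theorem core2 (p : ℕ) [Fact p.Prime] (K : Type u) [Field K] [Algebra (ZMod p) K]
    [Algebra.IsAlgebraic (ZMod p) K] (A : Type u) [Ring A] [Algebra K A] [Module.Finite K A]
    (M Y : Type u) [AddCommGroup M] [Module A M] [AddCommGroup Y] [Module A Y]
    (hfM : Module.Finite A M) (hfY : Module.Finite A Y) (hMY : InT A Y M)
    (hdisj : ∀ (N : Type u) [AddCommGroup N] [Module A N], Module.Finite A N → InT A Y N →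
      InF A M N → Subsingleton N) :
    ∃ (P : Type u) (_ : AddCommGroup P) (_ : Module A P), Module.Finite A P ∧ InT A Y P ∧
      ∀ (Z : Type u) [AddCommGroup Z] [Module A Z], Module.Finite A Z → InT A Y Z →
        InFac A P Z := by
  classical
  let _ := kmod K A M
  let _ := kmod K A Y
  have := kmod_tower K A M
  have := kmod_tower K A Y
  have hKM : Module.Finite K M := Module.Finite.trans A M
  have hKY : Module.Finite K Y := Module.Finite.trans A Y
  let bA := Module.finBasis K A
  let bM := Module.finBasis K M
  let bY := Module.finBasis K Y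
  let S1 : Set K := Set.range (fun x : Fin (finrank K A) × Fin (finrank K A) × Fin (finrank K A) =>
    bA.repr (bA x.1 * bA x.2.1) x.2.2)
  let S2 : Set K := Set.range (fun x : Fin (finrank K A) => bA.repr 1 x)
  let S3 : Set K := Set.range (fun x : Fin (finrank K A) × Fin (finrank K M) × Fin (finrank K M) =>
    bM.repr (bA x.1 • bM x.2.1) x.2.2)
  let S4 : Set K := Set.range (fun x : Fin (finrank K A) × Fin (finrank K Y) × Fin (finrank K Y) =>
    bY.repr (bA x.1 • bY x.2.1) x.2.2)
  let S : Set K := (S1 ∪ S2) ∪ (S3 ∪ S4)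
  have hS : S.Finite := ((Set.finite_range _).union (Set.finite_range _)).union
    ((Set.finite_range _).union (Set.finite_range _))
  have hSf : Finite S := hS
  let F := IntermediateField.adjoin (ZMod p) S
  have hfd : FiniteDimensional (ZMod p) F :=
    IntermediateField.finiteDimensional_adjoin (fun x _ => Algebra.IsIntegral.isIntegral x)
  have hfin : Finite F := Module.finite_of_finite (ZMod p)
  have : IsScalarTower F K A := inferInstance
  have hSF : ∀ x ∈ S, ∃ c : F, algebraMap F K c = x := fun x hx =>
    ⟨⟨x, IntermediateField.subset_adjoin _ _ hx⟩, rfl⟩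
  refine core2_aux (k := F) (K := K) bA bM bY ?_ ?_ ?_ ?_ hMY hdisj
  · intro i j l
    exact hSF _ (Or.inl (Or.inl ⟨(i, j, l), rfl⟩))
  · intro l
    exact hSF _ (Or.inl (Or.inr ⟨l, rfl⟩))
  · intro i j l
    exact hSF _ (Or.inr (Or.inl ⟨(i, j, l), rfl⟩))
  · intro i j l
    exact hSF _ (Or.inr (Or.inr ⟨(i, j, l), rfl⟩))

end Bic
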