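import Pool.Agent.Helper16.Bic.Wrap
set_option autoImplicit false

universe u

namespace Bic.AlgebraicOverFinite

open Bic

/-- Let `K` be a field algebraic over a finite field (for example a finite field or the algebraic
closure of a finite field) and let `A` be any finite-dimensional `K`-algebra.  Then every bicompact
torsion class of finitely generated `A`-modules is functorially finite. -/
theorem result (p : ℕ) [Fact p.Prime] (K : Type u) [Field K] [Algebra (ZMod p) K]
    [Algebra.IsAlgebraic (ZMod p) K] (A : Type u) [Ring A] [Algebra K A] [Module.Finite K A]
    (T : ModuleCat.{u} A → Prop) (hT : IsTorsionClass A T) (hb : IsBicompact A T) :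
    IsFunctoriallyFinite A T :=
  bicompact_functoriallyFinite p K A T hT hb

end Bic.AlgebraicOverFinite
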