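import Mathlib

/-!
Torsion pairs of finite modules: basic facts.  `InT A Y Z` : no nonzero map `Z → Y`;
`InF A M W` : no nonzero map `M → W`.
-/

universe u

namespace Bic

open Function

section gen
variable {A : Type u} [Ring A]

/-- `Z` has no nonzero map to `Y`. -/
def InT (A : Type u) [Ring A] (Y Z : Type u) [AddCommGroup Y] [Module A Y]
    [AddCommGroup Z] [Module A Z] : Prop := ∀ f : Z →ₗ[A] Y, f = 0

/-- `W` receives no nonzero map from `M`. -/
def InF (A : Type u) [Ring A] (M W : Type u) [AddCommGroup M] [Module A M]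
    [AddCommGroup W] [Module A W] : Prop := ∀ f : M →ₗ[A] W, f = 0

/-- Short exact sequences. -/
structure SES {W E Z : Type u} [AddCommGroup W] [Module A W] [AddCommGroup E] [Module A E]
    [AddCommGroup Z] [Module A Z] (i : W →ₗ[A] E) (p : E →ₗ[A] Z) : Prop where
  inj : Injective i
  surj : Surjective p
  comp : ∀ w, p (i w) = 0
  exact : ∀ e, p e = 0 → ∃ w, i w = e

variable {M Y X Z W E Z' W' U V : Type u}
variable [AddCommGroup M] [Module A M] [AddCommGroup Y] [Module A Y]
variable [AddCommGroup X] [Module A X]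
variable [AddCommGroup Z] [Module A Z] [AddCommGroup W] [Module A W]
variable [AddCommGroup E] [Module A E]
variable [AddCommGroup Z'] [Module A Z'] [AddCommGroup W'] [Module A W']
variable [AddCommGroup U] [Module A U] [AddCommGroup V] [Module A V]

theorem factor_surj (p : E →ₗ[A] Z) (hp : Surjective p) (f : E →ₗ[A] Y)
    (h : ∀ e, p e = 0 → f e = 0) : ∃ g : Z →ₗ[A] Y, ∀ e, g (p e) = f e := by
  have hle : LinearMap.ker p ≤ LinearMap.ker f := fun e he => by
    rw [LinearMap.mem_ker] at he ⊢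
    exact h e he
  refine ⟨((LinearMap.ker p).liftQ f hle).comp
    (p.quotKerEquivOfSurjective hp).symm.toLinearMap, fun e => ?_⟩
  have : (p.quotKerEquivOfSurjective hp).symm (p e) = (LinearMap.ker p).mkQ e := by
    rw [LinearEquiv.symm_apply_eq]
    rfl
  simp only [LinearMap.comp_apply, LinearEquiv.coe_coe, this]
  rfl

theorem factor_inj (i : W →ₗ[A] E) (hi : Injective i) (f : X →ₗ[A] E)
    (h : ∀ x, ∃ w, i w = f x) : ∃ g : X →ₗ[A] W, ∀ x, i (g x) = f x := by
  choose g hg using h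
  refine ⟨⟨⟨g, fun a b => hi ?_⟩, fun a b => hi ?_⟩, hg⟩
  · rw [hg, map_add, map_add, hg, hg]
  · simp only [RingHom.id_apply]
    rw [hg, map_smul, map_smul, hg]

theorem InT.of_surj (hZ : InT A Y Z) (p : Z →ₗ[A] Z') (hp : Surjective p) : InT A Y Z' := by
  intro f
  have := hZ (f.comp p)
  ext z'
  obtain ⟨z, rfl⟩ := hp z'
  exact LinearMap.congr_fun this z

theorem InF.of_inj (hW : InF A M W) (i : W' →ₗ[A] W) (hi : Injective i) : InF A M W' := by
  intro f
  have := hW (i.comp f)
  ext z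
  apply hi
  rw [LinearMap.zero_apply, map_zero]
  exact LinearMap.congr_fun this z

theorem SES.inT {i : W →ₗ[A] E} {p : E →ₗ[A] Z} (h : SES i p) (hW : InT A Y W)
    (hZ : InT A Y Z) : InT A Y E := by
  intro f
  have h1 : f.comp i = 0 := hW _
  obtain ⟨g, hg⟩ := factor_surj p h.surj f (fun e he => by
    obtain ⟨w, rfl⟩ := h.exact e he
    exact LinearMap.congr_fun h1 w)
  ext e
  rw [← hg, hZ g]
  rfl

theorem SES.inF {i : W →ₗ[A] E} {p : E →ₗ[A] Z} (h : SES i p) (hW : InF A M W)
    (hZ : InF A M Z) : InF A M E := by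
  intro f
  have h1 : p.comp f = 0 := hZ _
  obtain ⟨g, hg⟩ := factor_inj i h.inj f (fun x => h.exact _ (LinearMap.congr_fun h1 x))
  ext e
  rw [← hg, hW g]
  simp

theorem SES.of_sub (L : Submodule A E) : SES L.subtype L.mkQ where
  inj := L.injective_subtype
  surj := L.mkQ_surjective
  comp w := by simp
  exact e he := ⟨⟨e, by simpa using he⟩, rfl⟩

theorem SES.of_ker (p : E →ₗ[A] Z) (hp : Surjective p) : SES (LinearMap.ker p).subtype p where
  inj := Submodule.injective_subtype _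
  surj := hp
  comp w := w.2
  exact e he := ⟨⟨e, he⟩, rfl⟩

theorem SES.of_range (i : W →ₗ[A] E) (hi : Injective i) : SES i (LinearMap.range i).mkQ where
  inj := hi
  surj := Submodule.mkQ_surjective _
  comp w := by simp
  exact e he := by simpa using he

theorem SES.finite {i : W →ₗ[A] E} {p : E →ₗ[A] Z} (h : SES i p) (hW : Finite W)
    (hZ : Finite Z) : Finite E := by
  have : Finite (LinearMap.range i) := Finite.of_surjective _ i.surjective_rangeRestrict
  have hfib : ∀ z : Z, (p ⁻¹' {z}).Finite := by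
    intro z
    obtain ⟨e, rfl⟩ := h.surj z
    have : p ⁻¹' {p e} ⊆ Set.range (fun w => e + i w) := by
      intro e' he'
      obtain ⟨w, hw⟩ := h.exact (e' - e) (by
        have : p e' = p e := he'
        rw [map_sub, this, sub_self])
      exact ⟨w, by simp [hw]⟩
    exact (Set.finite_range _).subset this
  have : (Set.univ : Set E) = ⋃ z : Z, p ⁻¹' {z} := by
    ext e; simp
  exact Set.finite_univ_iff.mp (this ▸ Set.finite_iUnion hfib)

/-- Retraction gives section. -/
theorem SES.section_of_retraction {i : W →ₗ[A] E} {p : E →ₗ[A] Z} (h : SES i p)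
    (r : E →ₗ[A] W) (hr : ∀ w, r (i w) = w) : ∃ s : Z →ₗ[A] E, ∀ z, p (s z) = z := by
  obtain ⟨s, hs⟩ := factor_surj p h.surj (LinearMap.id - i.comp r) (fun e he => by
    obtain ⟨w, rfl⟩ := h.exact e he
    simp [hr])
  refine ⟨s, fun z => ?_⟩
  obtain ⟨e, rfl⟩ := h.surj z
  rw [hs]
  simp [h.comp]

/-- Section gives retraction. -/
theorem SES.retraction_of_section {i : W →ₗ[A] E} {p : E →ₗ[A] Z} (h : SES i p)
    (s : Z →ₗ[A] E) (hs : ∀ z, p (s z) = z) : ∃ r : E →ₗ[A] W, ∀ w, r (i w) = w := by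
  obtain ⟨r, hr⟩ := factor_inj i h.inj (LinearMap.id - s.comp p) (fun e => h.exact _ (by
    simp [hs]))
  refine ⟨r, fun w => h.inj ?_⟩
  rw [hr]
  simp [h.comp]

/-- Amalgamated sums. -/
theorem pushout {i : W →ₗ[A] E} {p : E →ₗ[A] Z} (h : SES i p) {j : W →ₗ[A] U} {q : U →ₗ[A] V}
    (h' : SES j q) : ∃ (G : Type u) (_ : AddCommGroup G) (_ : Module A G)
      (a : E →ₗ[A] G) (b : U →ₗ[A] G) (p' : G →ₗ[A] Z) (q' : G →ₗ[A] V),
      SES b p' ∧ SES a q' ∧ (∀ w, a (i w) = b (j w)) ∧ (∀ e, p' (a e) = p e) ∧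
      (∀ u, q' (b u) = q u) := by
  let k : W →ₗ[A] E × U := i.prod (-j)
  let K := LinearMap.range k
  have hk1 : ∀ x ∈ K, p x.1 = 0 := by
    rintro _ ⟨w, rfl⟩
    exact h.comp w
  have hk2 : ∀ x ∈ K, q x.2 = 0 := by
    rintro _ ⟨w, rfl⟩
    change q (-j w) = 0
    rw [map_neg, h'.comp, neg_zero]
  refine ⟨(E × U) ⧸ K, inferInstance, inferInstance, K.mkQ.comp (LinearMap.inl A E U),
    K.mkQ.comp (LinearMap.inr A E U),
    K.liftQ (p.comp (LinearMap.fst A E U)) (fun x hx => hk1 x hx),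
    K.liftQ (q.comp (LinearMap.snd A E U)) (fun x hx => hk2 x hx), ?_, ?_, ?_, ?_, ?_⟩
  · constructor
    · intro u1 u2 hu
      have : K.mkQ ((0 : E), u1 - u2) = 0 := by
        have h1 : ((0 : E), u1 - u2) = LinearMap.inr A E U u1 - LinearMap.inr A E U u2 := by
          simp
        rw [h1, map_sub, sub_eq_zero]
        exact hu
      rw [Submodule.mkQ_apply, Submodule.Quotient.mk_eq_zero] at this
      obtain ⟨w, hw⟩ := this
      have hw1 : i w = 0 := congrArg Prod.fst hw
      have hw0 : w = 0 := h.inj (by rw [hw1, map_zero])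
      have hw2 : -j w = u1 - u2 := congrArg Prod.snd hw
      rw [hw0, map_zero, neg_zero] at hw2
      exact (sub_eq_zero.mp hw2.symm)
    · intro z
      obtain ⟨e, rfl⟩ := h.surj z
      exact ⟨K.mkQ (e, 0), rfl⟩
    · intro u
      change p 0 = 0
      simp
    · intro g hg
      obtain ⟨⟨e, u⟩, rfl⟩ := K.mkQ_surjective g
      have he : p e = 0 := hg
      obtain ⟨w, rfl⟩ := h.exact e he
      refine ⟨j w + u, ?_⟩
      change K.mkQ (0, j w + u) = K.mkQ (i w, u)
      rw [← sub_eq_zero, ← map_sub, Submodule.mkQ_apply, Submodule.Quotient.mk_eq_zero]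
      exact ⟨-w, by ext <;> simp [k]⟩
  · constructor
    · intro u1 u2 hu
      have : K.mkQ (u1 - u2, (0 : U)) = 0 := by
        have h1 : (u1 - u2, (0 : U)) = LinearMap.inl A E U u1 - LinearMap.inl A E U u2 := by
          simp
        rw [h1, map_sub, sub_eq_zero]
        exact hu
      rw [Submodule.mkQ_apply, Submodule.Quotient.mk_eq_zero] at this
      obtain ⟨w, hw⟩ := this
      have hw1 : -j w = 0 := congrArg Prod.snd hw
      have hw0 : w = 0 := h'.inj (by rw [neg_eq_zero.mp hw1, map_zero])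
      have hw2 : i w = u1 - u2 := congrArg Prod.fst hw
      rw [hw0, map_zero] at hw2
      exact (sub_eq_zero.mp hw2.symm)
    · intro v
      obtain ⟨u, rfl⟩ := h'.surj v
      exact ⟨K.mkQ (0, u), rfl⟩
    · intro e
      change q 0 = 0
      simp
    · intro g hg
      obtain ⟨⟨e, u⟩, rfl⟩ := K.mkQ_surjective g
      have he : q u = 0 := hg
      obtain ⟨w, rfl⟩ := h'.exact u he
      refine ⟨i w + e, ?_⟩
      change K.mkQ (i w + e, 0) = K.mkQ (e, j w)
      rw [← sub_eq_zero, ← map_sub, Submodule.mkQ_apply, Submodule.Quotient.mk_eq_zero]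
      exact ⟨w, by ext <;> simp [k]⟩
  · intro w
    change K.mkQ (i w, 0) = K.mkQ (0, j w)
    rw [← sub_eq_zero, ← map_sub, Submodule.mkQ_apply, Submodule.Quotient.mk_eq_zero]
    exact ⟨w, by ext <;> simp [k]⟩
  · intro e
    rfl
  · intro u
    rfl

/-- Fibre products. -/
theorem pullback {i : U →ₗ[A] E} {p : E →ₗ[A] Z} (h : SES i p) {j : V →ₗ[A] W} {q : W →ₗ[A] Z}
    (h' : SES j q) : ∃ (G : Type u) (_ : AddCommGroup G) (_ : Module A G)
      (a : G →ₗ[A] E) (b : G →ₗ[A] W) (i' : U →ₗ[A] G) (j' : V →ₗ[A] G),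
      SES i' b ∧ SES j' a ∧ (∀ g, p (a g) = q (b g)) ∧ (∀ u, a (i' u) = i u) ∧
      (∀ v, b (j' v) = j v) := by
  let G := LinearMap.ker ((p.comp (LinearMap.fst A E W)) - (q.comp (LinearMap.snd A E W)))
  have hG : ∀ x : E × W, x ∈ G ↔ p x.1 = q x.2 := by
    intro x
    simp [G, LinearMap.mem_ker, sub_eq_zero]
  let a : G →ₗ[A] E := (LinearMap.fst A E W).comp G.subtype
  let b : G →ₗ[A] W := (LinearMap.snd A E W).comp G.subtype
  have hab : ∀ g, p (a g) = q (b g) := fun g => (hG g.1).mp g.2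
  let i' : U →ₗ[A] G := ((LinearMap.inl A E W).comp i).codRestrict G (fun u => by
    rw [hG]; simp [h.comp])
  let j' : V →ₗ[A] G := ((LinearMap.inr A E W).comp j).codRestrict G (fun u => by
    rw [hG]; simp [h'.comp])
  refine ⟨G, inferInstance, inferInstance, a, b, i', j', ?_, ?_, hab, fun u => rfl, fun v => rfl⟩
  · constructor
    · intro u1 u2 hu
      apply h.inj
      exact congrArg (fun x : G => x.1.1) hu
    · intro w
      obtain ⟨e, he⟩ := h.surj (q w)
      exact ⟨⟨(e, w), by rw [hG]; exact he⟩, rfl⟩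
    · intro u; rfl
    · rintro ⟨⟨e, w⟩, hg⟩ hw
      have hw : w = 0 := hw
      subst hw
      rw [hG] at hg
      obtain ⟨u, rfl⟩ := h.exact e (by simpa using hg)
      exact ⟨u, rfl⟩
  · constructor
    · intro u1 u2 hu
      apply h'.inj
      exact congrArg (fun x : G => x.1.2) hu
    · intro e
      obtain ⟨w, hw⟩ := h'.surj (p e)
      exact ⟨⟨(e, w), by rw [hG]; exact hw.symm⟩, rfl⟩
    · intro u; rfl
    · rintro ⟨⟨e, w⟩, hg⟩ hw
      have hw : e = 0 := hw
      subst hw
      rw [hG] at hg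
      obtain ⟨u, rfl⟩ := h'.exact w (by simpa using hg.symm)
      exact ⟨u, rfl⟩

end gen

end Bic
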