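import Pool.Agent.Helper16.Bic.Tops2

universe u

namespace Bic

open Function

section gen
variable {A : Type u} [Ring A]

/-- Elementary steps on objects of `T`. -/
def Step (A : Type u) [Ring A] (M Y Z Z' : Type u) [AddCommGroup M] [Module A M]
    [AddCommGroup Y] [Module A Y] [AddCommGroup Z] [Module A Z]
    [AddCommGroup Z'] [Module A Z'] : Prop :=
  (∃ (S : Type u) (_ : AddCommGroup S) (_ : Module A S) (i : Z' →ₗ[A] Z) (g : Z →ₗ[A] S),
    TTop A M Y S ∧ SES i g) ∨
  (∃ (S : Type u) (_ : AddCommGroup S) (_ : Module A S) (i : S →ₗ[A] Z') (p : Z' →ₗ[A] Z),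
    FTop A M Y S ∧ SES i p ∧ ¬ ∃ s : Z →ₗ[A] Z', ∀ z, p (s z) = z)

/-- `Ch n Z`: some chain of `n` steps leads from `Z` to `0`. -/
def Ch (A : Type u) [Ring A] (M Y : Type u) [AddCommGroup M] [Module A M]
    [AddCommGroup Y] [Module A Y] : ℕ → (Z : Type u) → [AddCommGroup Z] → [Module A Z] → Prop
  | 0, Z, _, _ => Subsingleton Z
  | n + 1, Z, _, _ => ∃ (Z' : Type u) (_ : AddCommGroup Z') (_ : Module A Z'),
      Step A M Y Z Z' ∧ Ch A M Y n Z'

variable {M Y X Z W E Z' W' U V S : Type u}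
variable [AddCommGroup M] [Module A M] [AddCommGroup Y] [Module A Y]
variable [AddCommGroup X] [Module A X]
variable [AddCommGroup Z] [Module A Z] [AddCommGroup W] [Module A W]
variable [AddCommGroup E] [Module A E]
variable [AddCommGroup Z'] [Module A Z'] [AddCommGroup W'] [Module A W']
variable [AddCommGroup U] [Module A U] [AddCommGroup V] [Module A V]
variable [AddCommGroup S] [Module A S]

theorem SES.congr_mid {i : W →ₗ[A] E} {p : E →ₗ[A] Z} (h : SES i p) (e : E ≃ₗ[A] X) :
    SES (e.toLinearMap.comp i) (p.comp e.symm.toLinearMap) where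
  inj := e.injective.comp h.inj
  surj := h.surj.comp e.symm.surjective
  comp w := by simp [h.comp]
  exact x hx := by
    obtain ⟨w, hw⟩ := h.exact _ hx
    exact ⟨w, by simp [hw]⟩

theorem SES.congr_right {i : W →ₗ[A] E} {p : E →ₗ[A] Z} (h : SES i p) (e : Z ≃ₗ[A] X) :
    SES i (e.toLinearMap.comp p) where
  inj := h.inj
  surj := e.surjective.comp h.surj
  comp w := by simp [h.comp]
  exact x hx := by
    apply h.exact
    have : e (p x) = 0 := hx
    simpa using this

theorem Step.congr_left (e : Z ≃ₗ[A] X) (h : Step A M Y Z Z') : Step A M Y X Z' := by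
  rcases h with ⟨S, _, _, i, g, hS, hs⟩ | ⟨S, _, _, i, p, hS, hs, hn⟩
  · exact Or.inl ⟨S, inferInstance, inferInstance, _, _, hS, hs.congr_mid e⟩
  · refine Or.inr ⟨S, inferInstance, inferInstance, _, _, hS, hs.congr_right e, ?_⟩
    rintro ⟨s, hs'⟩
    apply hn
    refine ⟨s.comp e.toLinearMap, fun z => ?_⟩
    have := hs' (e z)
    simpa using this

theorem Ch.congr {n : ℕ} (e : Z ≃ₗ[A] X) (h : Ch A M Y n Z) : Ch A M Y n X := by
  cases n with
  | zero => exact e.symm.toEquiv.subsingleton_congr.mpr h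
  | succ n =>
    obtain ⟨Z', _, _, hs, hc⟩ := h
    exact ⟨Z', inferInstance, inferInstance, hs.congr_left e, hc⟩

theorem Step.finite (hf : Finite Z) (h : Step A M Y Z Z') : Finite Z' := by
  rcases h with ⟨S, _, _, i, g, hS, hs⟩ | ⟨S, _, _, i, p, hS, hs, hn⟩
  · exact Finite.of_injective i hs.inj
  · exact hs.finite hS.simple.fin hf

theorem Step.inT (h : TPair A M Y) (hf : Finite Z) (hZ : InT A Y Z) (hs : Step A M Y Z Z') :
    InT A Y Z' := by
  have hf' := hs.finite hf
  rcases hs with ⟨S, _, _, i, g, hS, hs⟩ | ⟨S, _, _, i, p, hS, hs, hn⟩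
  · have h1 := hS.ker_inT h hf hZ g hs.surj
    obtain ⟨r, hr⟩ := factor_inj i hs.inj (LinearMap.ker g).subtype (fun x => hs.exact _ x.2)
    refine h1.of_surj r ?_
    intro z
    refine ⟨⟨i z, hs.comp z⟩, hs.inj (hr _)⟩
  · exact hS.ext_inT h hf' hs hZ hn

/-- `SES` between kernels: if `g : Z → S` is surjective and `Za → Z → Zb` exact, and `g` factors
through `Zb`. -/
theorem ses_ker {Za Zb : Type u} [AddCommGroup Za] [Module A Za] [AddCommGroup Zb] [Module A Zb]
    {a : Za →ₗ[A] Z} {b : Z →ₗ[A] Zb} (h : SES a b) {i : U →ₗ[A] Zb} {g : Zb →ₗ[A] S}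
    (hg : SES i g) : ∃ (a' : Za →ₗ[A] LinearMap.ker (g.comp b))
      (b' : LinearMap.ker (g.comp b) →ₗ[A] U), SES a' b' ∧
      (∀ x, i (b' x) = b x) ∧ (∀ x, (a' x : Z) = a x) := by
  obtain ⟨b', hb'⟩ := factor_inj i hg.inj (b.comp (LinearMap.ker (g.comp b)).subtype)
    (fun x => hg.exact _ x.2)
  refine ⟨a.codRestrict _ (fun x => by
    rw [LinearMap.mem_ker, LinearMap.comp_apply, h.comp, map_zero]), b', ⟨?_, ?_, ?_, ?_⟩,
    hb', fun x => rfl⟩
  · intro x y hxy
    exact h.inj (congrArg Subtype.val hxy)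
  · intro u
    obtain ⟨z, hz⟩ := h.surj (i u)
    refine ⟨⟨z, ?_⟩, hg.inj ?_⟩
    · rw [LinearMap.mem_ker, LinearMap.comp_apply, hz, hg.comp]
    · rw [hb']; exact hz
  · intro w
    apply hg.inj
    exact (hb' _).trans ((h.comp w).trans (map_zero i).symm)
  · intro e he
    have : b (e : Z) = 0 := by
      have := hb' e
      rw [he, map_zero] at this
      exact this.symm
    obtain ⟨w, hw⟩ := h.exact _ this
    exact ⟨w, Subtype.ext hw⟩

theorem Ch.ext (h : TPair A M Y) : ∀ (m n : ℕ) {Za Z Zb : Type u}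
    [AddCommGroup Za] [Module A Za] [AddCommGroup Z] [Module A Z] [AddCommGroup Zb] [Module A Zb]
    {a : Za →ₗ[A] Z} {b : Z →ₗ[A] Zb}, SES a b → Finite Za → InT A Y Za → Ch A M Y m Zb →
    Ch A M Y n Za → Ch A M Y (m + n) Z := by
  intro m
  induction m with
  | zero =>
    intro n Za Z Zb _ _ _ _ _ _ a b hab hf hT hb ha
    have hb : Subsingleton Zb := hb
    have hsurj : Surjective a := fun z => hab.exact z (Subsingleton.elim _ _)
    rw [Nat.zero_add]
    exact ha.congr (LinearEquiv.ofBijective a ⟨hab.inj, hsurj⟩)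
  | succ m ih =>
    intro n Za Z Zb _ _ _ _ _ _ a b hab hf hT hb ha
    obtain ⟨Zb', _, _, hs, hc⟩ := hb
    have heq : m + 1 + n = (m + n) + 1 := by omega
    rw [heq]
    rcases hs with ⟨S, _, _, i, g, hS, hs⟩ | ⟨S, _, _, i, p, hS, hs, hn⟩
    · obtain ⟨a', b', hab', -, -⟩ := ses_ker hab hs
      refine ⟨LinearMap.ker (g.comp b), inferInstance, inferInstance, ?_,
        ih n hab' hf hT hc ha⟩
      exact Or.inl ⟨S, inferInstance, inferInstance, _, _, hS,
        SES.of_ker (g.comp b) (hs.surj.comp hab.surj)⟩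
    · obtain ⟨G, _, _, α, β, i', j', hi', hj', hc1, hc2, hc3⟩ := pullback hab hs
      -- `α : G → Z`, `β : G → Zb'`, `hi' : SES (Za → G) β`, `hj' : SES (S → G) α`
      refine ⟨G, inferInstance, inferInstance, ?_, ih n hi' hf hT hc ha⟩
      refine Or.inr ⟨S, inferInstance, inferInstance, j', α, hS, hj', ?_⟩
      rintro ⟨s, hs'⟩
      obtain ⟨r, hr⟩ := hj'.retraction_of_section s hs'
      have h0 : r.comp i' = 0 := h.hom_zero hf hT hS.simple.inF _
      obtain ⟨r', hr'⟩ := factor_surj β hi'.surj r (fun e he => by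
        obtain ⟨w, rfl⟩ := hi'.exact e he
        exact LinearMap.congr_fun h0 w)
      apply hn
      apply hs.section_of_retraction r'
      intro w
      rw [← hc3 w, hr', hr]

theorem TTop.step (hS : TTop A M Y S) (g : Z →ₗ[A] S) (hg : Surjective g) :
    Step A M Y Z (LinearMap.ker g) :=
  Or.inl ⟨S, inferInstance, inferInstance, _, _, hS, SES.of_ker g hg⟩

theorem TTop.ch (hS : TTop A M Y S) : Ch A M Y 1 S := by
  refine ⟨LinearMap.ker (LinearMap.id : S →ₗ[A] S), inferInstance, inferInstance,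
    hS.step _ surjective_id, ?_⟩
  change Subsingleton _
  rw [Submodule.subsingleton_iff_eq_bot]
  exact LinearMap.ker_id

end gen

end Bic
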