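import Pool.Agent.Helper16.Bic.Descent

universe u

namespace Bic

open Function Module

section rat

variable {k K : Type u} [Field k] [Field K] [Algebra k K]
variable {ι ι' : Type} [Fintype ι] [Fintype ι']
variable {V V' : Type u} [AddCommGroup V] [Module K V] [AddCommGroup V'] [Module K V']
set_option linter.unusedSectionVars false

/-- `v` has coordinates in `k` -/
def IsRat (k : Type u) [Field k] [Algebra k K] (b : Basis ι K V) (v : V) : Prop :=
  ∀ l, ∃ c : k, algebraMap k K c = b.repr v l

theorem isRat_zero (b : Basis ι K V) : IsRat k b 0 := fun l => ⟨0, by simp⟩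

theorem IsRat.add {b : Basis ι K V} {v w : V} (hv : IsRat k b v) (hw : IsRat k b w) :
    IsRat k b (v + w) := fun l => by
  obtain ⟨c, hc⟩ := hv l
  obtain ⟨d, hd⟩ := hw l
  exact ⟨c + d, by simp [hc, hd]⟩

theorem IsRat.smul {b : Basis ι K V} {v : V} (c : k) (hv : IsRat k b v) :
    IsRat k b (algebraMap k K c • v) := fun l => by
  obtain ⟨d, hd⟩ := hv l
  exact ⟨c * d, by rw [map_smul, Finsupp.smul_apply, smul_eq_mul, ← hd, map_mul]⟩

theorem IsRat.sum {b : Basis ι K V} {α : Type*} (s : Finset α) (f : α → V)
    (h : ∀ i ∈ s, IsRat k b (f i)) : IsRat k b (∑ i ∈ s, f i) := by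
  classical
  induction s using Finset.induction_on with
  | empty => simpa using isRat_zero b
  | insert a s ha ih =>
    rw [Finset.sum_insert ha]
    exact (h a (Finset.mem_insert_self a s)).add
      (ih fun i hi => h i (Finset.mem_insert_of_mem hi))

theorem isRat_basis (b : Basis ι K V) (j : ι) : IsRat k b (b j) := fun l => by
  classical
  rw [b.repr_self, Finsupp.single_apply]
  by_cases h : j = l
  · exact ⟨1, by simp [h]⟩
  · exact ⟨0, by simp [h]⟩

theorem IsRat.map {b : Basis ι K V} {b' : Basis ι' K V'} (φ : V →ₗ[K] V')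
    (hφ : ∀ j, IsRat k b' (φ (b j))) {v : V} (hv : IsRat k b v) : IsRat k b' (φ v) := by
  rw [← b.sum_repr v, map_sum]
  apply IsRat.sum
  intro i _
  obtain ⟨c, hc⟩ := hv i
  rw [map_smul, ← hc]
  exact (hφ i).smul c

/-- coordinatewise application of `ξ` -/
noncomputable def xi (b : Basis ι K V) (ξ : K →ₗ[k] k) (v : V) : V :=
  ∑ j, algebraMap k K (ξ (b.repr v j)) • b j

theorem repr_xi (b : Basis ι K V) (ξ : K →ₗ[k] k) (v : V) (l : ι) :
    b.repr (xi b ξ v) l = algebraMap k K (ξ (b.repr v l)) := by
  classical
  unfold xi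
  rw [map_sum, Finsupp.finsetSum_apply]
  rw [Finset.sum_eq_single l]
  · rw [map_smul, Finsupp.smul_apply, b.repr_self, Finsupp.single_eq_same, smul_eq_mul, mul_one]
  · intro j _ hj
    rw [map_smul, Finsupp.smul_apply, b.repr_self, Finsupp.single_apply, if_neg hj, smul_zero]
  · intro hcon; exact absurd (Finset.mem_univ _) hcon

theorem xi_isRat (b : Basis ι K V) (ξ : K →ₗ[k] k) (v : V) : IsRat k b (xi b ξ v) :=
  fun l => ⟨_, (repr_xi b ξ v l).symm⟩

theorem xi_add (b : Basis ι K V) (ξ : K →ₗ[k] k) (v w : V) :
    xi b ξ (v + w) = xi b ξ v + xi b ξ w := by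
  apply b.ext_elem
  intro l
  rw [map_add, Finsupp.add_apply, repr_xi, repr_xi, repr_xi, map_add, Finsupp.add_apply,
    map_add, map_add]

theorem xi_comm (b : Basis ι K V) (b' : Basis ι' K V') (ξ : K →ₗ[k] k) (φ : V →ₗ[K] V')
    (hφ : ∀ j, IsRat k b' (φ (b j))) (v : V) : xi b' ξ (φ v) = φ (xi b ξ v) := by
  apply b'.ext_elem
  intro l
  rw [repr_xi]
  choose c hc using hφ
  have h1 : ∀ w : V, b'.repr (φ w) l = ∑ j, b.repr w j * algebraMap k K (c j l) := by
    intro w
    conv_lhs => rw [← b.sum_repr w]
    rw [map_sum, map_sum, Finsupp.finsetSum_apply]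
    apply Finset.sum_congr rfl
    intro j _
    rw [map_smul, map_smul, Finsupp.smul_apply, smul_eq_mul, hc]
  rw [h1, h1, map_sum, map_sum]
  apply Finset.sum_congr rfl
  intro j _
  rw [repr_xi]
  have h2 : b.repr v j * algebraMap k K (c j l) = c j l • b.repr v j := by
    rw [Algebra.smul_def, mul_comm]
  rw [h2, map_smul, smul_eq_mul, map_mul, mul_comm]

theorem xi_of_isRat (b : Basis ι K V) (ξ : K →ₗ[k] k) (hξ : ∀ c, ξ (algebraMap k K c) = c)
    {v : V} (hv : IsRat k b v) : xi b ξ v = v := by
  apply b.ext_elem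
  intro l
  obtain ⟨c, hc⟩ := hv l
  rw [repr_xi, ← hc, hξ]

end rat

section concrete

variable {k K : Type u} [Field k] [Finite k] [Field K] [Algebra k K]
variable {A : Type u} [Ring A] [Algebra K A] [Algebra k A] [IsScalarTower k K A]
variable {M Y : Type u} [AddCommGroup M] [Module A M] [AddCommGroup Y] [Module A Y]
variable [Module K M] [IsScalarTower K A M] [Module K Y] [IsScalarTower K A Y]
variable {ιA ιM ιY : Type} [Fintype ιA] [Fintype ιM] [Fintype ιY]

/-- action of `a` as a `K`-linear map -/
def actL (K : Type u) [Field K] {A : Type u} [Ring A] [Algebra K A] (M : Type u)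
    [AddCommGroup M] [Module A M] [Module K M] [IsScalarTower K A M] (a : A) : M →ₗ[K] M where
  toFun m := a • m
  map_add' := smul_add a
  map_smul' c m := by
    change a • (c • m) = c • (a • m)
    rw [← algebraMap_smul A c m, ← algebraMap_smul A c (a • m), ← mul_smul, ← mul_smul,
      Algebra.commutes]

/-- action on `m` as a `K`-linear map -/
def actR (K : Type u) [Field K] (A : Type u) [Ring A] [Algebra K A] {M : Type u}
    [AddCommGroup M] [Module A M] [Module K M] [IsScalarTower K A M] (m : M) : A →ₗ[K] M where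
  toFun a := a • m
  map_add' a b := add_smul a b m
  map_smul' c a := by
    change (c • a) • m = c • (a • m)
    rw [smul_assoc]

theorem finite_of_isRat {V : Type u} [AddCommGroup V] [Module K V] {ι : Type} [Fintype ι]
    (b : Basis ι K V) (S : Set V) (hS : ∀ v ∈ S, IsRat k b v) : Finite S := by
  classical
  let f : S → (ι → k) := fun v l => (hS v.1 v.2 l).choose
  have hf : Injective f := by
    intro v w hvw
    apply Subtype.ext
    apply b.ext_elem
    intro l
    rw [← (hS v.1 v.2 l).choose_spec, ← (hS w.1 w.2 l).choose_spec]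
    exact congrArg (algebraMap k K) (congrFun hvw l)
  exact Finite.of_injective f hf

theorem core2_aux (bA : Basis ιA K A) (bM : Basis ιM K M) (bY : Basis ιY K Y)
    (hA : ∀ i j, IsRat k bA (bA i * bA j)) (h1 : IsRat k bA 1)
    (hM : ∀ i j, IsRat k bM (bA i • bM j)) (hY : ∀ i j, IsRat k bY (bA i • bY j))
    (hMY : InT A Y M)
    (hdisj : ∀ (N : Type u) [AddCommGroup N] [Module A N], Module.Finite A N → InT A Y N →
      InF A M N → Subsingleton N) :
    ∃ (P : Type u) (_ : AddCommGroup P) (_ : Module A P), Module.Finite A P ∧ InT A Y P ∧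
      ∀ (Z : Type u) [AddCommGroup Z] [Module A Z], Module.Finite A Z → InT A Y Z →
        InFac A P Z := by
  classical
  have hmul : ∀ a b, IsRat k bA a → IsRat k bA b → IsRat k bA (a * b) := by
    intro a b ha hb
    refine IsRat.map (b := bA) (LinearMap.mulRight K b) (fun i => ?_) ha
    exact IsRat.map (b := bA) (LinearMap.mulLeft K (bA i)) (fun j => hA i j) hb
  have hMs : ∀ a m, IsRat k bA a → IsRat k bM m → IsRat k bM (a • m) := by
    intro a m ha hm
    refine IsRat.map (b := bA) (actR K A m) (fun i => ?_) ha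
    exact IsRat.map (b := bM) (actL K M (bA i)) (fun j => hM i j) hm
  have hYs : ∀ a m, IsRat k bA a → IsRat k bY m → IsRat k bY (a • m) := by
    intro a m ha hm
    refine IsRat.map (b := bA) (actR K A m) (fun i => ?_) ha
    exact IsRat.map (b := bY) (actL K Y (bA i)) (fun j => hY i j) hm
  let A0 : Subalgebra k A :=
    { carrier := {a | IsRat k bA a}
      mul_mem' := fun ha hb => hmul _ _ ha hb
      one_mem' := h1
      add_mem' := fun ha hb => ha.add hb
      zero_mem' := isRat_zero bA
      algebraMap_mem' := fun c => by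
        have : algebraMap k A c = algebraMap k K c • (1 : A) := by
          rw [IsScalarTower.algebraMap_apply k K A, Algebra.algebraMap_eq_smul_one]
        change IsRat k bA (algebraMap k A c)
        rw [this]
        exact h1.smul c }
  let M0 : Submodule A0 M :=
    { carrier := {m | IsRat k bM m}
      add_mem' := fun ha hb => ha.add hb
      zero_mem' := isRat_zero bM
      smul_mem' := fun c m hm => hMs c m c.2 hm }
  let Y0 : Submodule A0 Y :=
    { carrier := {m | IsRat k bY m}
      add_mem' := fun ha hb => ha.add hb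
      zero_mem' := isRat_zero bY
      smul_mem' := fun c m hm => hYs c m c.2 hm }
  let B := Basis.ofVectorSpace k K
  let mkBi : (K →ₗ[k] k) → BiMap A0 := fun ξ =>
    { f := fun a => ⟨xi bA ξ a, xi_isRat bA ξ a⟩
      add := fun a b => Subtype.ext (xi_add bA ξ a b)
      left := fun c a => Subtype.ext
        (xi_comm bA bA ξ (LinearMap.mulLeft K (c : A))
          (fun j => hmul c (bA j) c.2 (isRat_basis bA j)) a)
      right := fun a c => Subtype.ext
        (xi_comm bA bA ξ (LinearMap.mulRight K (c : A))
          (fun j => hmul (bA j) c (isRat_basis bA j) c.2) a) }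
  let mkEta : (K →ₗ[k] k) → (Y →ₗ[A0] Y0) := fun ξ =>
    { toFun := fun y => ⟨xi bY ξ y, xi_isRat bY ξ y⟩
      map_add' := fun a b => Subtype.ext (xi_add bY ξ a b)
      map_smul' := fun c y => Subtype.ext
        (xi_comm bY bY ξ (actL K Y (c : A))
          (fun j => hYs c (bY j) c.2 (isRat_basis bY j)) y) }
  obtain ⟨ξ1, hξ1⟩ := (Algebra.linearMap k K).exists_leftInverse_of_injective
    (LinearMap.ker_eq_bot.mpr (algebraMap k K).injective)
  have hξ1' : ∀ c, ξ1 (algebraMap k K c) = c := fun c => LinearMap.congr_fun hξ1 c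
  have hM0Y0 : InT A0 Y0 M0 := by
    intro f
    let gK : M →ₗ[K] Y := bM.constr K (fun j => (f ⟨bM j, isRat_basis bM j⟩ : Y))
    have hgf : ∀ m : M0, gK (m : M) = f m := by
      intro m
      have hm := m.2
      choose c hc using hm
      have h2 : m = ∑ j, (algebraMap k A0 (c j)) • (⟨bM j, isRat_basis bM j⟩ : M0) := by
        apply Subtype.ext
        rw [AddSubmonoidClass.coe_finsetSum]
        conv_lhs => rw [← bM.sum_repr (m : M)]
        apply Finset.sum_congr rfl
        intro j _
        rw [← hc j]
        change algebraMap k K (c j) • bM j = algebraMap k A (c j) • bM j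
        rw [IsScalarTower.algebraMap_apply k K A, algebraMap_smul A (algebraMap k K (c j)) (bM j)]
      have h3 : (f m : Y) = ∑ j, algebraMap k K (c j) • (f ⟨bM j, isRat_basis bM j⟩ : Y) := by
        conv_lhs => rw [h2]
        rw [map_sum, AddSubmonoidClass.coe_finsetSum]
        apply Finset.sum_congr rfl
        intro j _
        rw [map_smul]
        change algebraMap k A (c j) • (f ⟨bM j, isRat_basis bM j⟩ : Y) = _
        rw [IsScalarTower.algebraMap_apply k K A,
          algebraMap_smul A (algebraMap k K (c j)) (f ⟨bM j, isRat_basis bM j⟩ : Y)]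
      rw [h3]
      conv_lhs => rw [← bM.sum_repr (m : M)]
      rw [map_sum]
      apply Finset.sum_congr rfl
      intro j _
      rw [map_smul, ← hc j]
      congr 1
      exact bM.constr_basis K _ j
    have hlin1 : ∀ i j, gK (bA i • bM j) = bA i • gK (bM j) := by
      intro i j
      have h4 := hgf ((⟨bA i, isRat_basis bA i⟩ : A0) • (⟨bM j, isRat_basis bM j⟩ : M0))
      rw [map_smul] at h4
      have h5 := hgf ⟨bM j, isRat_basis bM j⟩
      change gK (bA i • bM j) = bA i • (f ⟨bM j, isRat_basis bM j⟩ : Y) at h4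
      change gK (bM j) = _ at h5
      rw [h4, h5]
    have hlin2 : ∀ j (a : A), gK (a • bM j) = a • gK (bM j) := by
      intro j a
      have h4 : gK.comp (actR K A (bM j)) = actR K A (gK (bM j)) := by
        apply bA.ext
        intro i
        exact hlin1 i j
      exact LinearMap.congr_fun h4 a
    have hlin3 : ∀ (a : A) (m : M), gK (a • m) = a • gK m := by
      intro a m
      have h4 : gK.comp (actL K M a) = (actL K Y a).comp gK := by
        apply bM.ext
        intro j
        exact hlin2 j a
      exact LinearMap.congr_fun h4 m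
    let g : M →ₗ[A] Y :=
      { toFun := gK
        map_add' := gK.map_add
        map_smul' := hlin3 }
    have hg : g = 0 := hMY g
    ext m
    rw [← hgf]
    exact LinearMap.congr_fun hg (m : M)
  have hexp : ∀ (n : ℕ) (z : Fin n → A), ∃ F : Finset (Basis.ofVectorSpaceIndex k K),
      ∀ i, z i = ∑ s ∈ F, algebraMap K A (B s) * ((mkBi (B.coord s)).f (z i) : A) := by
    intro n z
    refine ⟨Finset.univ.biUnion (fun i : Fin n => Finset.univ.biUnion (fun l : ιA =>
      (B.repr (bA.repr (z i) l)).support)), fun i => ?_⟩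
    apply bA.ext_elem
    intro l
    have h2 : ∀ s, algebraMap K A (B s) * ((mkBi (B.coord s)).f (z i) : A) =
        (B s) • xi bA (B.coord s) (z i) := fun s => by
      rw [Algebra.smul_def]
    rw [map_sum, Finsupp.finsetSum_apply]
    have h3 : ∀ s, bA.repr (algebraMap K A (B s) * ((mkBi (B.coord s)).f (z i) : A)) l =
        (B.repr (bA.repr (z i) l) s) • (B s) := by
      intro s
      rw [h2, map_smul, Finsupp.smul_apply, repr_xi, smul_eq_mul, Algebra.smul_def, mul_comm]
      rfl
    simp only [h3]
    conv_lhs => rw [← B.linearCombination_repr (bA.repr (z i) l)]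
    rw [Finsupp.linearCombination_apply]
    apply Finsupp.sum_of_support_subset
    · intro s hs
      exact Finset.mem_biUnion.mpr ⟨i, Finset.mem_univ _,
        Finset.mem_biUnion.mpr ⟨l, Finset.mem_univ _, hs⟩⟩
    · intro s _
      rw [zero_smul]
  refine descent A0 (finite_of_isRat bA (A0 : Set A) (fun a ha => ha)) M0 Y0
    (finite_of_isRat bM (M0 : Set M) (fun a ha => ha))
    (finite_of_isRat bY (Y0 : Set Y) (fun a ha => ha)) hM0Y0 ?_
    (Basis.ofVectorSpaceIndex k K) (fun s => mkEta (B.coord s)) ?_
    (fun s => mkBi (B.coord s)) (fun s => algebraMap K A (B s))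
    (fun s a => Algebra.commutes _ _) hexp (mkBi ξ1) ?_ hdisj
  · intro L hL
    rw [eq_top_iff]
    intro m _
    rw [← bM.sum_repr m]
    apply L.sum_mem
    intro j _
    rw [← algebraMap_smul A]
    exact L.smul_mem _ (hL _ (isRat_basis bM j))
  · intro y hy
    apply bY.ext_elem
    intro l
    rw [map_zero, Finsupp.zero_apply]
    apply B.ext_elem
    intro s
    have h2 := congrArg (fun t : Y0 => bY.repr (t : Y) l) (hy s)
    change bY.repr (xi bY (B.coord s) y) l = bY.repr 0 l at h2
    rw [repr_xi, map_zero, Finsupp.zero_apply] at h2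
    rw [map_zero, Finsupp.zero_apply]
    exact (map_eq_zero (algebraMap k K)).mp h2
  · exact Subtype.ext (xi_of_isRat bA ξ1 hξ1' h1)

end concrete

end Bic
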