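import Pool.Agent.Helper16.Bic.Chain

universe u

namespace Bic

open Function

section gen
variable {A : Type u} [Ring A]

variable {M Y X Z W E Z' W' U V S Z1 Z2 : Type u}
variable [AddCommGroup M] [Module A M] [AddCommGroup Y] [Module A Y]
variable [AddCommGroup X] [Module A X]
variable [AddCommGroup Z] [Module A Z] [AddCommGroup W] [Module A W]
variable [AddCommGroup Z1] [Module A Z1] [AddCommGroup Z2] [Module A Z2]
variable [AddCommGroup E] [Module A E]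
variable [AddCommGroup Z'] [Module A Z'] [AddCommGroup W'] [Module A W']
variable [AddCommGroup U] [Module A U] [AddCommGroup V] [Module A V]
variable [AddCommGroup S] [Module A S]

theorem SES.iso_left {S' : Type u} [AddCommGroup S'] [Module A S']
    {i : W →ₗ[A] E} {g : E →ₗ[A] S} (h : SES i g) {i' : W' →ₗ[A] E}
    {g' : E →ₗ[A] S'} (h' : SES i' g') (hk : ∀ e, g e = 0 ↔ g' e = 0) :
    Nonempty (W ≃ₗ[A] W') := by
  obtain ⟨f, hf⟩ := factor_inj i' h'.inj i (fun x => h'.exact _ ((hk _).mp (h.comp x)))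
  refine ⟨LinearEquiv.ofBijective f ⟨?_, ?_⟩⟩
  · intro x y hxy
    apply h.inj
    rw [← hf, ← hf, hxy]
  · intro w'
    obtain ⟨w, hw⟩ := h.exact (i' w') ((hk _).mpr (h'.comp w'))
    exact ⟨w, h'.inj (by rw [hf, hw])⟩

theorem diamond_ii_aux (h : TPair A M Y) (hf : Finite Z1)
    {S1 S2 : Type u} [AddCommGroup S1] [Module A S1]
    [AddCommGroup S2] [Module A S2] (hS1 : TTop A M Y S1) (hS2 : TTop A M Y S2)
    {i1 : Z1 →ₗ[A] Z} {g1 : Z →ₗ[A] S1} (h1 : SES i1 g1)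
    {i2 : Z2 →ₗ[A] Z} {g2 : Z →ₗ[A] S2} (h2 : SES i2 g2)
    (h0 : g2.comp i1 = 0) : Nonempty (Z1 ≃ₗ[A] Z2) := by
  obtain ⟨φ, hφ⟩ := factor_surj g1 h1.surj g2 (fun e he => by
    obtain ⟨w, rfl⟩ := h1.exact e he
    exact LinearMap.congr_fun h0 w)
  have hφs : Surjective φ := by
    intro s
    obtain ⟨z, rfl⟩ := h2.surj s
    exact ⟨g1 z, hφ z⟩
  have hk := hS2.ker_inT h hS1.simple.fin hS1.simple.inT φ hφs
  have hinj : Injective φ := by
    rcases hS1.simple.sub _ hk with h3 | h3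
    · exact LinearMap.ker_eq_bot.mp h3
    · exfalso
      have h4 := LinearMap.ker_eq_top.mp h3
      have := hS2.simple.nt
      obtain ⟨s, hs⟩ := exists_ne (0 : S2)
      obtain ⟨x, hx⟩ := hφs s
      rw [h4] at hx
      exact hs hx.symm
  apply h1.iso_left h2
  intro e
  rw [← hφ]
  constructor
  · intro h3; rw [h3, map_zero]
  · intro h3; exact hinj (by rw [h3, map_zero])

theorem diamond_i_i (h : TPair A M Y) (hf1 : Finite Z1) (hf2 : Finite Z2) (hZ1 : InT A Y Z1)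
    (hZ2 : InT A Y Z2)
    {S1 S2 : Type u} [AddCommGroup S1] [Module A S1]
    [AddCommGroup S2] [Module A S2] (hS1 : TTop A M Y S1) (hS2 : TTop A M Y S2)
    {i1 : Z1 →ₗ[A] Z} {g1 : Z →ₗ[A] S1} (h1 : SES i1 g1)
    {i2 : Z2 →ₗ[A] Z} {g2 : Z →ₗ[A] S2} (h2 : SES i2 g2) :
    Nonempty (Z1 ≃ₗ[A] Z2) ∨ ∃ (Z12 : Type u) (_ : AddCommGroup Z12) (_ : Module A Z12),
      Step A M Y Z1 Z12 ∧ Step A M Y Z2 Z12 := by
  by_cases h0 : g2.comp i1 = 0
  · exact Or.inl (diamond_ii_aux h hf1 hS1 hS2 h1 h2 h0)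
  by_cases h0' : g1.comp i2 = 0
  · obtain ⟨e⟩ := diamond_ii_aux h hf2 hS2 hS1 h2 h1 h0'
    exact Or.inl ⟨e.symm⟩
  right
  have hs1 := hS2.simple.surj hZ1 _ h0
  have hs2 := hS1.simple.surj hZ2 _ h0'
  refine ⟨LinearMap.ker (g2.comp i1), inferInstance, inferInstance, hS2.step _ hs1, ?_⟩
  obtain ⟨j, hj⟩ := factor_inj i2 h2.inj (i1.comp (LinearMap.ker (g2.comp i1)).subtype)
    (fun x => h2.exact _ x.2)
  refine Or.inl ⟨S1, inferInstance, inferInstance, j, g1.comp i2, hS1, ⟨?_, hs2, ?_, ?_⟩⟩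
  · intro x y hxy
    apply Subtype.ext
    apply h1.inj
    have hx := hj x
    have hy := hj y
    rw [hxy, hy] at hx
    exact hx.symm
  · intro x
    rw [LinearMap.comp_apply, hj]
    exact h1.comp _
  · intro z hz
    obtain ⟨z1, hz1⟩ := h1.exact (i2 z) hz
    refine ⟨⟨z1, ?_⟩, ?_⟩
    · rw [LinearMap.mem_ker, LinearMap.comp_apply, hz1, h2.comp]
    · apply h2.inj
      rw [hj]
      exact hz1

theorem diamond_i_ii (h : TPair A M Y) (hf2 : Finite Z2) (hZ2 : InT A Y Z2)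
    {S1 S2 : Type u} [AddCommGroup S1] [Module A S1]
    [AddCommGroup S2] [Module A S2] (hS1 : TTop A M Y S1) (hS2 : FTop A M Y S2)
    {i1 : Z1 →ₗ[A] Z} {g1 : Z →ₗ[A] S1} (h1 : SES i1 g1)
    {i2 : S2 →ₗ[A] Z2} {p2 : Z2 →ₗ[A] Z} (h2 : SES i2 p2) :
    ∃ (Z12 : Type u) (_ : AddCommGroup Z12) (_ : Module A Z12),
      Step A M Y Z1 Z12 ∧ Step A M Y Z2 Z12 := by
  obtain ⟨a', b', hab, hb', ha'⟩ := ses_ker h2 h1
  refine ⟨LinearMap.ker (g1.comp p2), inferInstance, inferInstance, ?_,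
    hS1.step _ (h1.surj.comp h2.surj)⟩
  refine Or.inr ⟨S2, inferInstance, inferInstance, a', b', hS2, hab, ?_⟩
  rintro ⟨s, hs⟩
  let K0 := LinearMap.ker (g1.comp p2)
  let R : Submodule A Z2 := LinearMap.range (K0.subtype.comp s)
  have hR : R ≤ LinearMap.ker (g1.comp p2) := by
    rintro _ ⟨x, rfl⟩
    exact (s x).2
  let gb : (Z2 ⧸ R) →ₗ[A] S1 := R.liftQ (g1.comp p2) hR
  have hgb : Surjective gb := by
    intro x
    obtain ⟨y, hy⟩ := (h1.surj.comp h2.surj) x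
    exact ⟨R.mkQ y, hy⟩
  let κ : S2 →ₗ[A] (Z2 ⧸ R) := R.mkQ.comp (K0.subtype.comp a')
  have hκ : Injective κ := by
    rw [injective_iff_map_eq_zero]
    intro x hx
    obtain ⟨z, hz⟩ := mem_of_mkQ hx
    have h3 : s z = a' x := Subtype.ext hz
    have h4 := congrArg b' h3
    rw [hs, hab.comp] at h4
    apply hab.inj
    rw [← h3, h4, map_zero, map_zero]
  have hex : ∀ q, gb q = 0 → ∃ x, κ x = q := by
    intro q hq
    obtain ⟨z, rfl⟩ := R.mkQ_surjective q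
    have hz : z ∈ K0 := hq
    obtain ⟨x, hx⟩ := hab.exact (⟨z, hz⟩ - s (b' ⟨z, hz⟩)) (by rw [map_sub, hs, sub_self])
    refine ⟨x, ?_⟩
    change R.mkQ ((a' x : K0) : Z2) = R.mkQ z
    rw [hx]
    rw [← sub_eq_zero, ← map_sub]
    apply mkQ_zero
    refine ⟨-b' ⟨z, hz⟩, ?_⟩
    change ((s (-b' ⟨z, hz⟩) : K0) : Z2) = _
    rw [map_neg]
    simp
  have hF : InF A M (LinearMap.ker gb) := by
    rw [inF_ker_iff]
    intro φ hφ
    obtain ⟨ψ, hψ⟩ := factor_inj κ hκ φ (fun m => hex _ (hφ m))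
    have hψ0 : ψ = 0 := hS2.simple.inF ψ
    refine LinearMap.ext fun m => ?_
    rw [← hψ, hψ0]
    simp
  have hinj := hS1.top (Z2 ⧸ R) (finite_quot hf2 R) (hZ2.quot R) gb hgb hF
  have := hS2.simple.nt
  obtain ⟨x, hx⟩ := exists_ne (0 : S2)
  apply hx
  apply hκ
  apply hinj
  rw [map_zero, map_zero]
  have : (a' x : Z2) = i2 x := ha' x
  change g1 (p2 ((a' x : K0) : Z2)) = 0
  rw [this, h2.comp, map_zero]

theorem ext_iso (h : TPair A M Y)
    {S1 S2 : Type u} [AddCommGroup S1] [Module A S1]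
    [AddCommGroup S2] [Module A S2] (hS1 : FTop A M Y S1) (hS2 : FTop A M Y S2)
    {i1 : S1 →ₗ[A] Z1} {p1 : Z1 →ₗ[A] Z} (h1 : SES i1 p1)
    {i2 : S2 →ₗ[A] Z2} {p2 : Z2 →ₗ[A] Z} (h2 : SES i2 p2)
    (hn2 : ¬ ∃ s : Z →ₗ[A] Z2, ∀ z, p2 (s z) = z)
    (u : Z1 →ₗ[A] Z2) (hu : ∀ z, p2 (u z) = p1 z) : Nonempty (Z1 ≃ₗ[A] Z2) := by
  obtain ⟨v, hv⟩ := factor_inj i2 h2.inj (u.comp i1) (fun x => h2.exact _ (by
    rw [LinearMap.comp_apply, hu, h1.comp]))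
  have hv0 : v ≠ 0 := by
    intro hv0
    obtain ⟨t, ht⟩ := factor_surj p1 h1.surj u (fun e he => by
      obtain ⟨w, rfl⟩ := h1.exact e he
      have := hv w
      rw [hv0, LinearMap.zero_apply, map_zero] at this
      exact this.symm)
    apply hn2
    refine ⟨t, fun z => ?_⟩
    obtain ⟨z1, rfl⟩ := h1.surj z
    rw [ht, hu]
  have hvi := hS1.simple.inj hS2.simple.inF v hv0
  have hvs : Surjective v := by
    have h3 := hS1.coker_inF h hS2.simple.fin hS2.simple.inF v hvi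
    rcases hS2.simple.quot _ h3 with h4 | h4
    · exact absurd ((ne_zero_iff_range v).mpr h4) hv0
    · exact LinearMap.range_eq_top.mp h4
  refine ⟨LinearEquiv.ofBijective u ⟨?_, ?_⟩⟩
  · rw [injective_iff_map_eq_zero]
    intro z hz
    have h3 : p1 z = 0 := by rw [← hu, hz, map_zero]
    obtain ⟨x, rfl⟩ := h1.exact _ h3
    have h4 := hv x
    rw [LinearMap.comp_apply, hz] at h4
    have h5 : x = 0 := hvi (h2.inj (by rw [h4, map_zero, map_zero]))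
    rw [h5, map_zero]
  · intro z2
    obtain ⟨z1, hz1⟩ := h1.surj (p2 z2)
    obtain ⟨y, hy⟩ := h2.exact (z2 - u z1) (by rw [map_sub, hu, hz1, sub_self])
    obtain ⟨x, rfl⟩ := hvs y
    refine ⟨i1 x + z1, ?_⟩
    rw [map_add]
    have := hv x
    rw [LinearMap.comp_apply] at this
    rw [← this, hy, sub_add_cancel]

theorem diamond (h : TPair A M Y) (hf : Finite Z) (hZ : InT A Y Z)
    (h1 : Step A M Y Z Z1) (h2 : Step A M Y Z Z2) :
    Nonempty (Z1 ≃ₗ[A] Z2) ∨ ∃ (Z12 : Type u) (_ : AddCommGroup Z12) (_ : Module A Z12),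
      Step A M Y Z1 Z12 ∧ Step A M Y Z2 Z12 := by
  have hf1 := h1.finite hf
  have hf2 := h2.finite hf
  have hZ1 := h1.inT h hf hZ
  have hZ2 := h2.inT h hf hZ
  rcases h1 with ⟨S1, _, _, i1, g1, hS1, hs1⟩ | ⟨S1, _, _, i1, p1, hS1, hs1, hn1⟩ <;>
  rcases h2 with ⟨S2, _, _, i2, g2, hS2, hs2⟩ | ⟨S2, _, _, i2, p2, hS2, hs2, hn2⟩
  · exact diamond_i_i h hf1 hf2 hZ1 hZ2 hS1 hS2 hs1 hs2
  · exact Or.inr (diamond_i_ii h hf2 hZ2 hS1 hS2 hs1 hs2)
  · obtain ⟨Z12, _, _, ha, hb⟩ := diamond_i_ii h hf1 hZ1 hS2 hS1 hs2 hs1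
    exact Or.inr ⟨Z12, inferInstance, inferInstance, hb, ha⟩
  · obtain ⟨G, _, _, a, b, i', j', hi', hj', hc1, hc2, hc3⟩ := pullback hs1 hs2
    by_cases hsa : ∃ s : Z1 →ₗ[A] G, ∀ z, a (s z) = z
    · obtain ⟨s, hs⟩ := hsa
      exact Or.inl (ext_iso h hS1 hS2 hs1 hs2 hn2 (b.comp s) (fun z => by
        rw [LinearMap.comp_apply, ← hc1, hs]))
    by_cases hsb : ∃ s : Z2 →ₗ[A] G, ∀ z, b (s z) = z
    · obtain ⟨s, hs⟩ := hsb
      obtain ⟨e⟩ := ext_iso h hS2 hS1 hs2 hs1 hn1 (a.comp s) (fun z => by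
        rw [LinearMap.comp_apply, hc1, hs])
      exact Or.inl ⟨e.symm⟩
    exact Or.inr ⟨G, inferInstance, inferInstance,
      Or.inr ⟨S2, inferInstance, inferInstance, j', a, hS2, hj', hsa⟩,
      Or.inr ⟨S1, inferInstance, inferInstance, i', b, hS1, hi', hsb⟩⟩

theorem Step.not_subsingleton (hs : Step A M Y Z Z') (hZ : Subsingleton Z) : False := by
  rcases hs with ⟨S, _, _, i, g, hS, hs⟩ | ⟨S, _, _, i, p, hS, hs, hn⟩
  · have := hS.simple.nt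
    obtain ⟨s, hs0⟩ := exists_ne (0 : S)
    obtain ⟨z, rfl⟩ := hs.surj s
    apply hs0
    rw [Subsingleton.elim z 0, map_zero]
  · exact hn ⟨0, fun z => Subsingleton.elim _ _⟩

theorem Ch.step_pred (h : TPair A M Y) : ∀ (n : ℕ) (Z Z2 : Type u) [AddCommGroup Z] [Module A Z]
    [AddCommGroup Z2] [Module A Z2], Finite Z → InT A Y Z → Ch A M Y n Z →
    Step A M Y Z Z2 → ∃ m, n = m + 1 ∧ Ch A M Y m Z2 := by
  intro n
  induction n with
  | zero =>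
    intro Z Z2 _ _ _ _ hf hZ hc hs
    exact (hs.not_subsingleton hc).elim
  | succ n ih =>
    intro Z Z2 _ _ _ _ hf hZ hc hs
    obtain ⟨Z1, _, _, hs1, hc1⟩ := hc
    refine ⟨n, rfl, ?_⟩
    rcases diamond h hf hZ hs1 hs with ⟨⟨e⟩⟩ | ⟨Z12, _, _, ha, hb⟩
    · exact hc1.congr e
    · obtain ⟨m, rfl, hm⟩ := ih Z1 Z12 (hs1.finite hf) (hs1.inT h hf hZ) hc1 ha
      exact ⟨Z12, inferInstance, inferInstance, hb, hm⟩

end gen

end Bic
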