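import Pool.Agent.Helper16.Bic.Good
import Pool.Agent.Helper16.Bic.Diamond

universe u

namespace Bic

open Function

section gen
variable {A : Type u} [Ring A]

variable {M Y X Z W E Z' W' U V S Z1 Z2 : Type u}
variable [AddCommGroup M] [Module A M] [AddCommGroup Y] [Module A Y]
variable [AddCommGroup X] [Module A X]
variable [AddCommGroup Z] [Module A Z] [AddCommGroup W] [Module A W]
variable [AddCommGroup Z1] [Module A Z1] [AddCommGroup Z2] [Module A Z2]
variable [AddCommGroup E] [Module A E]
variable [AddCommGroup Z'] [Module A Z'] [AddCommGroup W'] [Module A W']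
variable [AddCommGroup U] [Module A U] [AddCommGroup V] [Module A V]
variable [AddCommGroup S] [Module A S]

/-- all extensions of `Z` by `F`-tops split -/
def CondA (A : Type u) [Ring A] (M Y Z : Type u) [AddCommGroup M] [Module A M]
    [AddCommGroup Y] [Module A Y] [AddCommGroup Z] [Module A Z] : Prop :=
  ∀ (S E : Type u) [AddCommGroup S] [Module A S] [AddCommGroup E] [Module A E]
    (i : S →ₗ[A] E) (p : E →ₗ[A] Z), FTop A M Y S → SES i p →
    ∃ s : Z →ₗ[A] E, ∀ z, p (s z) = z

/-- maps to `T`-tops have kernels inside a fixed proper submodule `R` -/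
def CondB (A : Type u) [Ring A] (M Y Z : Type u) [AddCommGroup M] [Module A M]
    [AddCommGroup Y] [Module A Y] [AddCommGroup Z] [Module A Z] (R : Submodule A Z) : Prop :=
  ∀ (S : Type u) [AddCommGroup S] [Module A S] (u : Z →ₗ[A] S), TTop A M Y S → u ≠ 0 →
    ∀ z, u z = 0 → z ∈ R

theorem endpoint (h : TPair A M Y) (R : Submodule A Z) : ∀ (n : ℕ) (Z' : Type u)
    [AddCommGroup Z'] [Module A Z'] (g : Z' →ₗ[A] Z), Finite Z' → InT A Y Z' → Ch A M Y n Z' →
    (∃ z, g z ∉ R) →
    ∃ (Z2 : Type u) (_ : AddCommGroup Z2) (_ : Module A Z2) (g2 : Z2 →ₗ[A] Z),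
      Finite Z2 ∧ InT A Y Z2 ∧ (∃ z, g2 z ∉ R) ∧ CondA A M Y Z2 ∧
      CondB A M Y Z2 (R.comap g2) := by
  intro n
  induction n with
  | zero =>
    intro Z' _ _ g hf hT hc hz
    exfalso
    obtain ⟨z, hz⟩ := hz
    have hc : Subsingleton Z' := hc
    apply hz
    rw [Subsingleton.elim z 0, map_zero]
    exact R.zero_mem
  | succ n ih =>
    intro Z' _ _ g hf hT hc hz
    by_cases hA : CondA A M Y Z'
    · by_cases hB : CondB A M Y Z' (R.comap g)
      · exact ⟨Z', inferInstance, inferInstance, g, hf, hT, hz, hA, hB⟩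
      · unfold CondB at hB
        push Not at hB
        obtain ⟨S, _, _, u, hS, hu, z, huz, hzR⟩ := hB
        have hus := hS.simple.surj hT u hu
        have hst := hS.step u hus
        obtain ⟨m, hm, hcm⟩ := Ch.step_pred h _ _ _ hf hT hc hst
        have hmn : m = n := by omega
        subst hmn
        exact ih (LinearMap.ker u) (g.comp (LinearMap.ker u).subtype) inferInstance
          (hst.inT h hf hT) hcm ⟨⟨z, huz⟩, hzR⟩
    · unfold CondA at hA
      push Not at hA
      obtain ⟨S, E, _, _, _, _, i, p, hS, hs, hn⟩ := hA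
      have hst : Step A M Y Z' E := Or.inr ⟨S, inferInstance, inferInstance, i, p, hS, hs, by
        rintro ⟨s, hs'⟩
        obtain ⟨z, hz⟩ := hn s
        exact hz (hs' z)⟩
      obtain ⟨m, hm, hcm⟩ := Ch.step_pred h _ _ _ hf hT hc hst
      have hmn : m = n := by omega
      subst hmn
      refine ih E (g.comp p) (hst.finite hf) (hst.inT h hf hT) hcm ?_
      obtain ⟨z, hz⟩ := hz
      obtain ⟨e, rfl⟩ := hs.surj z
      exact ⟨e, hz⟩

/-- the uniform bound for `Hom(Z, S)`, `S` a `T`-top -/
theorem card_hom_top (h : TPair A M Y) (hf : Finite Z) (hT : InT A Y Z) (R : Submodule A Z)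
    (hR : ∃ z, z ∉ R) (hB : CondB A M Y Z R) (hS : TTop A M Y S) :
    Nat.card (Z →ₗ[A] S) ≤ Nat.card M ^ Nat.card M := by
  have hfM := h.finM
  have hfS := hS.simple.fin
  by_cases hu : ∃ u : Z →ₗ[A] S, u ≠ 0
  · obtain ⟨u, hu⟩ := hu
    have hus := hS.simple.surj hT u hu
    have hkT := hS.ker_inT h hf hT u hus
    have hfac : ∀ v : Z →ₗ[A] S, ∃ φ : S →ₗ[A] S, φ.comp u = v := by
      intro v
      by_cases hv : v.comp (LinearMap.ker u).subtype = 0
      · obtain ⟨φ, hφ⟩ := factor_surj u hus v (fun e he => LinearMap.congr_fun hv ⟨e, he⟩)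
        exact ⟨φ, LinearMap.ext hφ⟩
      · exfalso
        have hvs := hS.simple.surj hkT _ hv
        obtain ⟨z, hz⟩ := hR
        obtain ⟨k, hk⟩ := hvs (v z)
        have hv0 : v ≠ 0 := by
          rintro rfl
          exact hv (LinearMap.zero_comp _)
        have h1 : v (z - k) = 0 := by
          rw [map_sub, sub_eq_zero]; exact hk.symm
        have h2 := hB S v hS hv0 _ h1
        have h3 := hB S u hS hu _ k.2
        apply hz
        have := R.add_mem h2 h3
        simpa using this
    have h1 : Nat.card (Z →ₗ[A] S) ≤ Nat.card (S →ₗ[A] S) := by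
      have := finite_lin (B := A) hfS hfS
      exact Nat.card_le_card_of_surjective (fun φ : S →ₗ[A] S => φ.comp u) hfac
    have h2 : Nat.card (S →ₗ[A] S) ≤ Nat.card (S → S) :=
      Nat.card_le_card_of_injective _ DFunLike.coe_injective
    have h3 : Nat.card (S → S) = Nat.card S ^ Nat.card S := Nat.card_fun
    have h4 := hS.simple.card_le h
    calc _ ≤ Nat.card S ^ Nat.card S := by rw [← h3]; exact h1.trans h2
      _ ≤ Nat.card M ^ Nat.card S := Nat.pow_le_pow_left h4 _
      _ ≤ _ := Nat.pow_le_pow_right Nat.card_pos h4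
  · push Not at hu
    have : Subsingleton (Z →ₗ[A] S) := ⟨fun a b => by rw [hu a, hu b]⟩
    have h1 : Nat.card (Z →ₗ[A] S) ≤ 1 := Finite.card_le_one_iff_subsingleton.mpr this
    exact h1.trans (Nat.one_le_pow _ _ Nat.card_pos)

theorem CondA.lift (hA : CondA A M Y Z) {i : S →ₗ[A] E} {p : E →ₗ[A] U} (hS : FTop A M Y S)
    (hs : SES i p) (v : Z →ₗ[A] U) : ∃ w : Z →ₗ[A] E, ∀ z, p (w z) = v z := by
  let G := LinearMap.ker ((v.comp (LinearMap.fst A Z E)) - (p.comp (LinearMap.snd A Z E)))
  have hG : ∀ x : Z × E, x ∈ G ↔ v x.1 = p x.2 := by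
    intro x
    simp [G, LinearMap.mem_ker, sub_eq_zero]
  let j : S →ₗ[A] G := ((LinearMap.inr A Z E).comp i).codRestrict G (fun u => by
    rw [hG]; simp [hs.comp])
  let q : G →ₗ[A] Z := (LinearMap.fst A Z E).comp G.subtype
  have hjq : SES j q := by
    constructor
    · intro x y hxy
      apply hs.inj
      exact congrArg (fun t : G => t.1.2) hxy
    · intro z
      obtain ⟨e, he⟩ := hs.surj (v z)
      exact ⟨⟨(z, e), by rw [hG]; exact he.symm⟩, rfl⟩
    · intro x; rfl
    · rintro ⟨⟨z, e⟩, hg⟩ hz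
      have hz : z = 0 := hz
      subst hz
      rw [hG] at hg
      obtain ⟨x, rfl⟩ := hs.exact e (by simpa using hg.symm)
      exact ⟨x, rfl⟩
  obtain ⟨s, hs'⟩ := hA S G j q hS hjq
  refine ⟨((LinearMap.snd A Z E).comp G.subtype).comp s, fun z => ?_⟩
  have h1 := (hG (s z).1).mp (s z).2
  have h2 : (s z).1.1 = z := hs' z
  rw [h2] at h1
  exact h1.symm

theorem card_le_mul {α β γ : Type u} [AddCommGroup α] [AddCommGroup β] [Finite β] [Finite γ]
    (f : α →+ β) (k : γ → α) (hk : ∀ a, f a = 0 → ∃ c, k c = a) :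
    Nat.card α ≤ Nat.card γ * Nat.card β := by
  classical
  have h1 : ∀ a : α, ∃ c : γ, k c = a - Function.invFun f (f a) := by
    intro a
    apply hk
    rw [map_sub, sub_eq_zero]
    exact (Function.invFun_eq ⟨a, rfl⟩).symm
  choose c hc using h1
  rw [← Nat.card_prod]
  apply Nat.card_le_card_of_injective (fun a => (c a, f a))
  intro a b hab
  have h2 : c a = c b := congrArg Prod.fst hab
  have h3 : f a = f b := congrArg Prod.snd hab
  have h4 := hc a
  rw [h2, hc b, h3] at h4
  exact (sub_left_injective h4).symm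

theorem card_hom_le (h : TPair A M Y) (hf : Finite Z) (hT : InT A Y Z) (R : Submodule A Z)
    (hR : ∃ z, z ∉ R) (hA : CondA A M Y Z) (hB : CondB A M Y Z R) :
    ∀ (n : ℕ) (U : Type u) [AddCommGroup U] [Module A U], Finite U → Ch A M Y n U →
      Nat.card (Z →ₗ[A] U) ≤ (Nat.card M ^ Nat.card M) ^ n := by
  have hfM := h.finM
  intro n
  induction n with
  | zero =>
    intro U _ _ hfU hc
    have hc : Subsingleton U := hc
    have : Subsingleton (Z →ₗ[A] U) := ⟨fun a b => LinearMap.ext fun z => Subsingleton.elim _ _⟩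
    rw [pow_zero]
    exact Finite.card_le_one_iff_subsingleton.mpr this
  | succ n ih =>
    intro U _ _ hfU hc
    obtain ⟨U', _, _, hst, hc'⟩ := hc
    have hfU' := hst.finite hfU
    have hih := ih U' hfU' hc'
    have hfin' : Finite (Z →ₗ[A] U') := finite_lin hf hfU'
    rcases hst with ⟨S, _, _, i, g, hS, hs⟩ | ⟨S, _, _, i, p, hS, hs, hn⟩
    · have hfS := hS.simple.fin
      have hfin : Finite (Z →ₗ[A] S) := finite_lin hf hfS
      have h1 := card_hom_top h hf hT R hR hB hS
      let ρ : (Z →ₗ[A] U) →+ (Z →ₗ[A] S) :=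
        { toFun := fun v => g.comp v
          map_zero' := by simp
          map_add' := fun a b => by ext z; simp }
      have h2 := card_le_mul ρ (fun w : Z →ₗ[A] U' => i.comp w) (fun v hv => by
        obtain ⟨w, hw⟩ := factor_inj i hs.inj v (fun x => hs.exact _ (LinearMap.congr_fun hv x))
        exact ⟨w, LinearMap.ext hw⟩)
      rw [pow_succ]
      exact h2.trans (Nat.mul_le_mul hih h1)
    · have h1 : Nat.card (Z →ₗ[A] U) ≤ Nat.card (Z →ₗ[A] U') := by
        apply Nat.card_le_card_of_surjective (fun w : Z →ₗ[A] U' => p.comp w)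
        intro v
        obtain ⟨w, hw⟩ := hA.lift hS hs v
        exact ⟨w, LinearMap.ext hw⟩
      refine h1.trans (hih.trans ?_)
      rw [pow_succ]
      exact Nat.le_mul_of_pos_right _ (Nat.pow_pos Nat.card_pos)

end gen

section inj

/-- The injective cogenerator `Hom_K(A,K)` as a left `A`-module. -/
def Co (K A : Type u) [Field K] [Ring A] [Algebra K A] : Type u := A →ₗ[K] K

variable (K : Type u) [Field K] (A : Type u) [Ring A] [Algebra K A]

instance : AddCommGroup (Co K A) := inferInstanceAs (AddCommGroup (A →ₗ[K] K))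

instance : SMul A (Co K A) := ⟨fun a φ => LinearMap.comp (R₁ := K) (R₂ := K) φ
  (LinearMap.mulRight K a)⟩

theorem Co.smul_app (a : A) (φ : Co K A) (b : A) :
    (show A →ₗ[K] K from a • φ) b = (show A →ₗ[K] K from φ) (b * a) := rfl

instance : Module A (Co K A) where
  one_smul φ := by
    apply LinearMap.ext (R := K)
    intro b
    rw [Co.smul_app, mul_one]
  mul_smul a c φ := by
    apply LinearMap.ext (R := K)
    intro b
    rw [Co.smul_app, Co.smul_app, Co.smul_app, mul_assoc]
  smul_zero a := by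
    apply LinearMap.ext (R := K)
    intro b
    rfl
  smul_add a φ ψ := by
    apply LinearMap.ext (R := K)
    intro b
    rfl
  add_smul a c φ := by
    apply LinearMap.ext (R := K)
    intro b
    rw [Co.smul_app, mul_add, map_add]
    rfl
  zero_smul φ := by
    apply LinearMap.ext (R := K)
    intro b
    rw [Co.smul_app, mul_zero, map_zero]
    rfl

theorem card_le_hom_Co [Finite K] [Finite A] (Z : Type u) [AddCommGroup Z] [Module A Z]
    (hf : Finite Z) : Nat.card Z ≤ Nat.card (Z →ₗ[A] Co K A) := by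
  let _ := kmod K A Z
  have := kmod_tower K A Z
  have hfd : FiniteDimensional K Z := Module.Finite.of_finite
  have hfC : Finite (Co K A) := finite_lin (B := K) (P := A) (Q := K) inferInstance inferInstance
  obtain ⟨e⟩ := (Basis.linearEquiv_dual_iff_finiteDimensional (K := K) (V := Z)).mpr hfd
  rw [Nat.card_congr e.toEquiv]
  have hsm : ∀ (k : K) (b : A) (z : Z), (k • b) • z = k • (b • z) := fun k b z => by
    rw [smul_assoc]
  let F : Module.Dual K Z → (Z →ₗ[A] Co K A) := fun θ =>
    { toFun := fun z => (show A →ₗ[K] K from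
        { toFun := fun b => θ (b • z)
          map_add' := fun b c => by rw [add_smul, map_add]
          map_smul' := fun k b => by rw [hsm, map_smul]; rfl })
      map_add' := fun z z' => by
        apply LinearMap.ext (R := K)
        intro b
        change θ (b • (z + z')) = θ (b • z) + θ (b • z')
        rw [smul_add, map_add]
      map_smul' := fun a z => by
        apply LinearMap.ext (R := K)
        intro b
        change θ (b • (a • z)) = θ ((b * a) • z)
        rw [mul_smul] }
  have hfin : Finite (Z →ₗ[A] Co K A) := finite_lin hf hfC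
  apply Nat.card_le_card_of_injective F
  intro θ θ' hθ
  ext z
  have h1 := LinearMap.congr_fun hθ z
  have h2 : θ ((1 : A) • z) = θ' ((1 : A) • z) :=
    congrArg (fun (c : Co K A) => (show A →ₗ[K] K from c) 1) h1
  rwa [one_smul] at h2

end inj

section core

variable {A : Type u} [Ring A]
variable {M Y : Type u}
variable [AddCommGroup M] [Module A M] [AddCommGroup Y] [Module A Y]

/-- a finite module `Z` is a quotient of a finite sum of copies of `P` -/
def InFac (A : Type u) [Ring A] (P Z : Type u) [AddCommGroup P] [Module A P]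
    [AddCommGroup Z] [Module A Z] : Prop :=
  ∃ (n : ℕ) (f : (Fin n → P) →ₗ[A] Z), Surjective f

theorem InT.pi {ι : Type u} [Finite ι] {N : ι → Type u} [∀ i, AddCommGroup (N i)]
    [∀ i, Module A (N i)] (h : ∀ i, InT A Y (N i)) : InT A Y (∀ i, N i) := by
  classical
  intro f
  apply LinearMap.pi_ext'
  intro i
  rw [h i (f.comp (LinearMap.single A N i)), LinearMap.zero_comp]

theorem fac_of_gen {P Z : Type u} [AddCommGroup P] [Module A P] [AddCommGroup Z] [Module A Z]
    (hP : Finite P) (hZ : Finite Z)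
    (hg : ∀ R : Submodule A Z, (∃ z, z ∉ R) → ∃ f : P →ₗ[A] Z, ∃ x, f x ∉ R) :
    InFac A P Z := by
  classical
  have hfin : Finite (P →ₗ[A] Z) := finite_lin hP hZ
  obtain ⟨n, ⟨e⟩⟩ := Finite.exists_equiv_fin (P →ₗ[A] Z)
  let F : (Fin n → P) →ₗ[A] Z := ∑ i, (e.symm i).comp (LinearMap.proj i)
  refine ⟨n, F, ?_⟩
  rw [← LinearMap.range_eq_top]
  by_contra hne
  have : ∃ z, z ∉ LinearMap.range F := by
    by_contra hcon
    push Not at hcon
    exact hne (eq_top_iff.mpr fun z _ => hcon z)
  obtain ⟨f, x, hfx⟩ := hg _ this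
  apply hfx
  refine ⟨Pi.single (e f) x, ?_⟩
  simp only [F, LinearMap.sum_apply, LinearMap.comp_apply, LinearMap.proj_apply]
  rw [Finset.sum_eq_single (e f)]
  · simp
  · intro j _ hj
    rw [Pi.single_eq_of_ne hj, map_zero]
  · intro hcon; exact absurd (Finset.mem_univ _) hcon

theorem core (K : Type u) [Field K] [Finite K] [Algebra K A] (hfA : Finite A)
    (h : TPair A M Y) :
    ∃ (P : Type u) (_ : AddCommGroup P) (_ : Module A P), Finite P ∧ InT A Y P ∧
      ∀ (Z : Type u) [AddCommGroup Z] [Module A Z], Finite Z → InT A Y Z → InFac A P Z := by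
  classical
  have hfC : Finite (Co K A) := finite_lin (B := K) (P := A) (Q := K) inferInstance inferInstance
  obtain ⟨n0, hn0⟩ := all_good (M := M) K h (Z := tor A Y (Co K A)) inferInstance tor_inT
  let B := (Nat.card M ^ Nat.card M) ^ n0
  let ι := {L : Submodule A (Fin B → A) // InT A Y ((Fin B → A) ⧸ L)}
  have hfι : Finite ι := inferInstance
  let P := (∀ L : ι, (Fin B → A) ⧸ L.1)
  have hPf : ∀ L : ι, Finite ((Fin B → A) ⧸ L.1) := fun L => finite_quot inferInstance _
  have hP : Finite P := inferInstance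
  refine ⟨P, inferInstance, inferInstance, hP, InT.pi (fun L => L.2), ?_⟩
  intro Z _ _ hfZ hZ
  apply fac_of_gen hP hfZ
  intro R hR
  obtain ⟨n, hn⟩ := all_good (M := M) K h hfZ hZ
  obtain ⟨Z2, _, _, g2, hf2, hT2, ⟨z2, hz2⟩, hA, hB⟩ :=
    endpoint h R n Z LinearMap.id hfZ hZ hn (by simpa using hR)
  have hcard : Nat.card Z2 ≤ B := by
    have h1 := card_le_hom_Co K A Z2 hf2
    have h2 := card_hom_le h hf2 hT2 (R.comap g2) ⟨z2, hz2⟩ hA hB n0 (tor A Y (Co K A))
      inferInstance hn0
    have hfin : Finite (Z2 →ₗ[A] tor A Y (Co K A)) := finite_lin hf2 inferInstance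
    have h3 : Nat.card (Z2 →ₗ[A] Co K A) ≤ Nat.card (Z2 →ₗ[A] tor A Y (Co K A)) := by
      apply Nat.card_le_card_of_surjective
        (fun v : Z2 →ₗ[A] tor A Y (Co K A) => (tor A Y (Co K A)).subtype.comp v)
      intro v
      have h4 : LinearMap.range v ≤ tor A Y (Co K A) := le_tor (hT2.range v)
      exact ⟨v.codRestrict _ (fun z => h4 ⟨z, rfl⟩), rfl⟩
    exact h1.trans (h3.trans h2)
  -- surjection from `Fin B → A`
  have hne : Nonempty Z2 := ⟨0⟩
  obtain ⟨σ, hσ⟩ : ∃ σ : Fin B → Z2, Surjective σ := by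
    have hft : Fintype Z2 := Fintype.ofFinite Z2
    have h5 : Fintype.card Z2 ≤ Fintype.card (Fin B) := by
      rw [Fintype.card_fin, ← Nat.card_eq_fintype_card]
      exact hcard
    obtain ⟨τ⟩ := Function.Embedding.nonempty_of_card_le h5
    exact ⟨Function.invFun τ, Function.invFun_surjective τ.injective⟩
  let q : (Fin B → A) →ₗ[A] Z2 := Fintype.linearCombination A σ
  have hq : Surjective q := by
    intro z
    obtain ⟨i, rfl⟩ := hσ z
    refine ⟨Pi.single i 1, ?_⟩
    simp [q]
  let e := q.quotKerEquivOfSurjective hq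
  let L0 : ι := ⟨LinearMap.ker q, hT2.congr e.symm⟩
  refine ⟨g2.comp (e.toLinearMap.comp (LinearMap.proj L0)), ?_⟩
  refine ⟨Pi.single L0 (e.symm z2), ?_⟩
  have h6 : (LinearMap.proj (R := A) (φ := fun L : ι => (Fin B → A) ⧸ L.1) L0)
      (Pi.single L0 (e.symm z2)) = e.symm z2 := Pi.single_eq_same L0 _
  rw [LinearMap.comp_apply, LinearMap.comp_apply, h6]
  change g2 (e (e.symm z2)) ∉ R
  rw [LinearEquiv.apply_symm_apply]
  exact hz2

end core

end Bic
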