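import Mathlib

/-!
Torsion classes in the category of finitely generated modules over a ring `A`, compactness,
cocompactness and functorial finiteness.  Classes of modules are predicates on `ModuleCat A`.
-/

universe u

namespace Bic

open Function

variable (A : Type u) [Ring A]

/-- A torsion class in `mod A`: a class of finitely generated modules closed under factor modules
and extensions. -/
structure IsTorsionClass (T : ModuleCat.{u} A → Prop) : Prop where
  fg : ∀ X, T X → Module.Finite A X
  quot : ∀ (X Z : ModuleCat.{u} A) (p : X →ₗ[A] Z), Surjective p → T X → T Z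
  ext : ∀ (X E Z : ModuleCat.{u} A) (i : X →ₗ[A] E) (p : E →ₗ[A] Z), Injective i →
    Surjective p → Exact i p → T X → T Z → T E

/-- A torsion-free class in `mod A`: a class of finitely generated modules closed under submodules
and extensions. -/
structure IsTorsionFreeClass (F : ModuleCat.{u} A → Prop) : Prop where
  fg : ∀ X, F X → Module.Finite A X
  sub : ∀ (X Z : ModuleCat.{u} A) (i : Z →ₗ[A] X), Injective i → F X → F Z
  ext : ∀ (X E Z : ModuleCat.{u} A) (i : X →ₗ[A] E) (p : E →ₗ[A] Z), Injective i →
    Surjective p → Exact i p → F X → F Z → F E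

/-- The smallest torsion class containing `M`. -/
def torsionHull (M : ModuleCat.{u} A) : ModuleCat.{u} A → Prop :=
  fun X => ∀ T : ModuleCat.{u} A → Prop, IsTorsionClass A T → T M → T X

/-- The smallest torsion-free class containing `N`. -/
def torsionFreeHull (N : ModuleCat.{u} A) : ModuleCat.{u} A → Prop :=
  fun X => ∀ F : ModuleCat.{u} A → Prop, IsTorsionFreeClass A F → F N → F X

/-- The finitely generated modules receiving no nonzero map from a member of `T`. -/
def perp (T : ModuleCat.{u} A → Prop) : ModuleCat.{u} A → Prop :=
  fun Y => Module.Finite A Y ∧ ∀ X, T X → ∀ f : X →ₗ[A] Y, f = 0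

/-- `T` is the smallest torsion class containing some finitely generated module. -/
def IsCompactClass (T : ModuleCat.{u} A → Prop) : Prop :=
  ∃ M : ModuleCat.{u} A, Module.Finite A M ∧ T = torsionHull A M

/-- The class orthogonal to `T` is the smallest torsion-free class containing some finitely
generated module. -/
def IsCocompactClass (T : ModuleCat.{u} A → Prop) : Prop :=
  ∃ N : ModuleCat.{u} A, Module.Finite A N ∧ perp A T = torsionFreeHull A N

/-- compact and cocompact -/
def IsBicompact (T : ModuleCat.{u} A → Prop) : Prop :=
  IsCompactClass A T ∧ IsCocompactClass A T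

/-- Every finitely generated module has a left `T`-approximation. -/
def IsCovariantlyFinite (T : ModuleCat.{u} A → Prop) : Prop :=
  ∀ X : ModuleCat.{u} A, Module.Finite A X → ∃ (Z : ModuleCat.{u} A) (f : X →ₗ[A] Z), T Z ∧
    ∀ (Z' : ModuleCat.{u} A) (g : X →ₗ[A] Z'), T Z' → ∃ h : Z →ₗ[A] Z', h ∘ₗ f = g

/-- Every finitely generated module has a right `T`-approximation. -/
def IsContravariantlyFinite (T : ModuleCat.{u} A → Prop) : Prop :=
  ∀ X : ModuleCat.{u} A, Module.Finite A X → ∃ (Z : ModuleCat.{u} A) (f : Z →ₗ[A] X), T Z ∧
    ∀ (Z' : ModuleCat.{u} A) (g : Z' →ₗ[A] X), T Z' → ∃ h : Z' →ₗ[A] Z, f ∘ₗ h = g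

/-- covariantly and contravariantly finite in `mod A` -/
def IsFunctoriallyFinite (T : ModuleCat.{u} A → Prop) : Prop :=
  IsCovariantlyFinite A T ∧ IsContravariantlyFinite A T

end Bic
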