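import Pool.Agent.Helper16.Bic.Induced

universe u

namespace Bic

open Function

theorem inT_iSup {A : Type u} [Ring A] {Y Z : Type u} [AddCommGroup Y] [Module A Y]
    [AddCommGroup Z] [Module A Z] {ι : Sort*} (L : ι → Submodule A Z)
    (h : ∀ i, InT A Y (L i)) : InT A Y (⨆ i, L i : Submodule A Z) := by
  intro f
  have hle : (⨆ i, L i) ≤ (LinearMap.ker f).map (⨆ i, L i : Submodule A Z).subtype := by
    apply iSup_le
    intro i x hx
    have hxt : L i ≤ ⨆ i, L i := le_iSup L i
    have h0 : f.comp (Submodule.inclusion hxt) = 0 := h i _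
    refine ⟨⟨x, hxt hx⟩, ?_, rfl⟩
    exact LinearMap.congr_fun h0 ⟨x, hx⟩
  ext x
  obtain ⟨y, hy, hyx⟩ := hle x.2
  have : y = x := Subtype.ext hyx
  rw [← this]
  exact hy

theorem fac_of_iSup {A : Type u} [Ring A] {P Z : Type u} [AddCommGroup P] [Module A P]
    [AddCommGroup Z] [Module A Z] (hZ : Module.Finite A Z)
    (h : (⨆ g : P →ₗ[A] Z, LinearMap.range g) = ⊤) : InFac A P Z := by
  classical
  obtain ⟨n, s, hs⟩ := Module.Finite.exists_fin (R := A) (M := Z)
  have h1 : ∀ i, ∃ F : Finset (P →ₗ[A] Z), s i ∈ ⨆ g ∈ F, LinearMap.range g := by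
    intro i
    rw [← Submodule.mem_iSup_iff_exists_finset, h]
    trivial
  choose F hF using h1
  let G := Finset.univ.biUnion F
  let e := G.equivFin
  let Φ : (Fin G.card → P) →ₗ[A] Z := ∑ i, ((e.symm i).1).comp (LinearMap.proj i)
  refine ⟨G.card, Φ, ?_⟩
  have h2 : ∀ g ∈ G, LinearMap.range g ≤ LinearMap.range Φ := by
    rintro g hg _ ⟨p, rfl⟩
    refine ⟨Pi.single (e ⟨g, hg⟩) p, ?_⟩
    simp only [Φ, LinearMap.sum_apply, LinearMap.comp_apply, LinearMap.proj_apply]
    rw [Finset.sum_eq_single (e ⟨g, hg⟩)]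
    · simp
    · intro j _ hj
      rw [Pi.single_eq_of_ne hj, map_zero]
    · intro hcon; exact absurd (Finset.mem_univ _) hcon
  rw [← LinearMap.range_eq_top, eq_top_iff, ← hs, Submodule.span_le]
  rintro _ ⟨i, rfl⟩
  have h3 : (⨆ g ∈ F i, LinearMap.range g) ≤ LinearMap.range Φ := by
    apply iSup₂_le
    intro g hg
    exact h2 g (Finset.mem_biUnion.mpr ⟨i, Finset.mem_univ _, hg⟩)
  exact h3 (hF i)

section descent

variable {k : Type u} [Field k] [Finite k] {A : Type u} [Ring A] [Algebra k A]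
variable {M Y : Type u} [AddCommGroup M] [Module A M] [AddCommGroup Y] [Module A Y]

theorem descent (A0 : Subalgebra k A) (hA0 : Finite A0)
    (M0 : Submodule A0 M) (Y0 : Submodule A0 Y) (hfM : Finite M0) (hfY : Finite Y0)
    (hM0Y0 : InT A0 Y0 M0)
    (hspan : ∀ L : Submodule A M, (∀ m ∈ M0, m ∈ L) → L = ⊤)
    (κ : Type u) (η : κ → (Y →ₗ[A0] Y0)) (hη : ∀ y, (∀ s, η s y = 0) → y = 0)
    (ξ : κ → BiMap A0) (β : κ → A) (hβ : ∀ s a, β s * a = a * β s)
    (hexp : ∀ (n : ℕ) (z : Fin n → A), ∃ F : Finset κ,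
      ∀ i, z i = ∑ s ∈ F, β s * ((ξ s).f (z i) : A))
    (ξ1 : BiMap A0) (hξ1 : ξ1.f 1 = 1)
    (hdisj : ∀ (N : Type u) [AddCommGroup N] [Module A N], Module.Finite A N → InT A Y N →
      InF A M N → Subsingleton N) :
    ∃ (P : Type u) (_ : AddCommGroup P) (_ : Module A P), Module.Finite A P ∧ InT A Y P ∧
      ∀ (Z : Type u) [AddCommGroup Z] [Module A Z], Module.Finite A Z → InT A Y Z →
        InFac A P Z := by
  classical
  -- induced modules of `T₀`-modules are in `T`
  have hindT : ∀ (N0 N : Type u) [AddCommGroup N0] [Module A0 N0] [AddCommGroup N] [Module A N]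
      (ι : N0 →ₗ[A0] N),
      (∀ n : N, ∃ (r : ℕ) (a : Fin r → A) (x : Fin r → N0), n = ∑ i, a i • ι (x i)) →
      InT A0 Y0 N0 → InT A Y N := by
    intro N0 N _ _ _ _ ι hgen hN0 g
    have h1 : ∀ x, g (ι x) = 0 := by
      intro x
      apply hη
      intro s
      have := hN0 ((η s).comp ((g.restrictScalars A0).comp ι))
      exact LinearMap.congr_fun this x
    ext n
    obtain ⟨r, a, x, rfl⟩ := hgen n
    rw [map_sum]
    simp [h1]
  -- the pair over `A0`
  have hTP : TPair A0 M0 Y0 := by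
    refine ⟨hfM, hfY, hM0Y0, ?_⟩
    intro N0 _ _ hfN hT hF
    obtain ⟨N, _, _, ι, hNf, hgen, -, hcoord⟩ := induced A0 N0 hfN
    have hNT : InT A Y N := hindT N0 N ι hgen hT
    choose ξN hξN using hcoord
    have hjoint : ∀ n : N, (∀ s, ξN (ξ s) n = 0) → n = 0 := by
      intro n hn
      obtain ⟨r, a, x, rfl⟩ := hgen n
      obtain ⟨F, hFa⟩ := hexp r a
      have h1 : ∀ s, ∑ i, (ξ s).f (a i) • x i = 0 := by
        intro s
        have := hn s
        rw [map_sum] at this
        simpa [hξN] using this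
      have h2 : ∑ i, a i • ι (x i) = ∑ s ∈ F, β s • ι (∑ i, (ξ s).f (a i) • x i) := by
        calc ∑ i, a i • ι (x i) = ∑ i, ∑ s ∈ F, β s • ι ((ξ s).f (a i) • x i) := by
              apply Finset.sum_congr rfl
              intro i _
              conv_lhs => rw [hFa i]
              rw [Finset.sum_smul]
              apply Finset.sum_congr rfl
              intro s _
              rw [mul_smul, map_smul]
              rfl
          _ = _ := by
              rw [Finset.sum_comm]
              apply Finset.sum_congr rfl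
              intro s _
              rw [map_sum, Finset.smul_sum]
      rw [h2]
      apply Finset.sum_eq_zero
      intro s _
      rw [h1, map_zero, smul_zero]
    have hNF : InF A M N := by
      intro g
      have h1 : LinearMap.ker g = ⊤ := by
        apply hspan
        intro m hm
        rw [LinearMap.mem_ker]
        apply hjoint
        intro s
        have := hF ((ξN (ξ s)).comp ((g.restrictScalars A0).comp M0.subtype))
        exact LinearMap.congr_fun this ⟨m, hm⟩
      exact LinearMap.ker_eq_top.mp h1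
    have hsub := hdisj N hNf hNT hNF
    constructor
    intro x y
    have h3 : ∀ x, ξN ξ1 (ι x) = x := fun x => by
      have := hξN ξ1 1 x
      rwa [one_smul, hξ1, one_smul] at this
    rw [← h3 x, ← h3 y, Subsingleton.elim (ι x) (ι y)]
  obtain ⟨P0, _, _, hfP0, hP0T, hP0⟩ := core (A := A0) k hA0 hTP
  obtain ⟨P, _, _, ιP, hPf, hPgen, hPuniv, -⟩ := induced A0 P0 hfP0
  refine ⟨P, inferInstance, inferInstance, hPf, hindT P0 P ιP hPgen hP0T, ?_⟩
  intro Z _ _ hfZ hZ
  apply fac_of_iSup hfZ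
  by_contra hne
  let R : Submodule A Z := ⨆ g : P →ₗ[A] Z, LinearMap.range g
  let R0 : Submodule A0 Z := ⨆ f : P0 →ₗ[A0] Z, LinearMap.range f
  have hR0R : ∀ z ∈ R0, z ∈ R := by
    intro z hz
    refine Submodule.iSup_induction _ (motive := fun z => z ∈ R) hz ?_ R.zero_mem
      (fun x y hx hy => R.add_mem hx hy)
    rintro f _ ⟨p, rfl⟩
    obtain ⟨g, hg⟩ := hPuniv Z f
    rw [← hg]
    exact Submodule.mem_iSup_of_mem g ⟨_, rfl⟩
  have hR0b : ∀ s, ∀ z ∈ R0, β s • z ∈ R0 := by
    intro s z hz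
    refine Submodule.iSup_induction _ (motive := fun z => β s • z ∈ R0) hz ?_ ?_ ?_
    · rintro f _ ⟨p, rfl⟩
      let f' : P0 →ₗ[A0] Z :=
        { toFun := fun p => β s • f p
          map_add' := fun p q => by rw [map_add, smul_add]
          map_smul' := fun c p => by
            rw [map_smul]
            change β s • ((c : A) • f p) = (c : A) • (β s • f p)
            rw [← mul_smul, ← mul_smul, hβ] }
      exact Submodule.mem_iSup_of_mem f' ⟨p, rfl⟩
    · rw [smul_zero]; exact R0.zero_mem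
    · intro x y hx hy
      rw [smul_add]
      exact R0.add_mem hx hy
  have hR0A : ∀ (a : A), ∀ z ∈ R0, a • z ∈ R0 := by
    intro a z hz
    obtain ⟨F, hFa⟩ := hexp 1 (fun _ => a)
    have h1 : a = ∑ s ∈ F, β s * ((ξ s).f a : A) := hFa 0
    rw [h1, Finset.sum_smul]
    apply Submodule.sum_mem
    intro s _
    rw [mul_smul]
    exact hR0b s _ (R0.smul_mem ((ξ s).f a) hz)
  have hRR0 : ∀ z ∈ R, z ∈ R0 := by
    intro z hz
    refine Submodule.iSup_induction _ (motive := fun z => z ∈ R0) hz ?_ R0.zero_mem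
      (fun x y hx hy => R0.add_mem hx hy)
    rintro g _ ⟨p, rfl⟩
    obtain ⟨r, a, x, rfl⟩ := hPgen p
    rw [map_sum]
    apply Submodule.sum_mem
    intro i _
    rw [map_smul]
    apply hR0A
    exact Submodule.mem_iSup_of_mem ((g.restrictScalars A0).comp ιP) ⟨x i, rfl⟩
  -- the quotient
  have hZ'T : InT A Y (Z ⧸ R) := hZ.quot R
  have hZ'F : InF A M (Z ⧸ R) := by
    intro h
    have hker : LinearMap.ker h = ⊤ := by
      apply hspan
      have hlift : ∀ m : M0, ∃ z, R.mkQ z = h m := fun m => R.mkQ_surjective _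
      choose ζ hζ using hlift
      let Z1 : Submodule A0 Z := Submodule.span A0 (Set.range ζ)
      have hZ1fg : Z1.FG := Submodule.fg_span (Set.finite_range ζ)
      have hZ1fin : Finite Z1 := by
        have : Module.Finite A0 Z1 := Module.Finite.iff_fg.mpr hZ1fg
        exact Module.finite_of_finite A0
      let J : Set Z := {z | z ∈ Z1 ∧ z ∈ R0}
      have hJ : J.Finite := (Set.toFinite (Z1 : Set Z)).subset (fun z hz => hz.1)
      have hJF : ∀ z : J, ∃ F : Finset (P0 →ₗ[A0] Z), (z : Z) ∈ ⨆ f ∈ F, LinearMap.range f :=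
        fun z => (Submodule.mem_iSup_iff_exists_finset).mp z.2.2
      choose FF hFF using hJF
      have hJft : Fintype J := hJ.fintype
      let G := Finset.univ.biUnion FF
      let Z3 : Submodule A0 Z := ⨆ f ∈ G, LinearMap.range f
      have hJZ3 : ∀ z, z ∈ Z1 → z ∈ R0 → z ∈ Z3 := by
        intro z hz1 hz2
        have h1 : (⨆ f ∈ FF ⟨z, hz1, hz2⟩, LinearMap.range f) ≤ Z3 := by
          apply iSup₂_le
          intro f hf
          exact le_iSup₂_of_le f (Finset.mem_biUnion.mpr ⟨_, Finset.mem_univ _, hf⟩) le_rfl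
        exact h1 (hFF ⟨z, hz1, hz2⟩)
      have hZ3T : InT A0 Y0 Z3 := inT_iSup _ (fun f => inT_iSup _ (fun _ => hP0T.range f))
      have hZ3fg : Z3.FG := Submodule.fg_biSup G _ (fun f _ => by
        have : Module.Finite A0 (LinearMap.range f) :=
          Module.Finite.of_surjective f.rangeRestrict f.surjective_rangeRestrict
        exact Module.Finite.iff_fg.mp this)
      have hDfg : (Z1 ⊔ Z3).FG := hZ1fg.sup hZ3fg
      have hDfin : Finite (Z1 ⊔ Z3 : Submodule A0 Z) := by
        have : Module.Finite A0 (Z1 ⊔ Z3 : Submodule A0 Z) := Module.Finite.iff_fg.mpr hDfg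
        exact Module.finite_of_finite A0
      -- the map `Z1 → range of h0`
      let h0 : M0 →ₗ[A0] (Z ⧸ R) := (h.restrictScalars A0).comp M0.subtype
      let I0 := LinearMap.range h0
      have hI0T : InT A0 Y0 I0 := hM0Y0.range h0
      have hmap : ∀ z : Z1, R.mkQ (z : Z) ∈ I0 := by
        intro z
        refine Submodule.span_induction (p := fun z _ => R.mkQ z ∈ I0) ?_ ?_ ?_ ?_ z.2
        · rintro _ ⟨m, rfl⟩
          rw [hζ]
          exact ⟨m, rfl⟩
        · rw [map_zero]; exact I0.zero_mem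
        · intro x y _ _ hx hy
          rw [map_add]
          exact I0.add_mem hx hy
        · intro c x _ hx
          exact I0.smul_mem c hx
      let π : Z1 →ₗ[A0] I0 :=
        ((R.mkQ.restrictScalars A0).comp Z1.subtype).codRestrict I0 hmap
      have hπs : Surjective π := by
        rintro ⟨_, ⟨m, rfl⟩⟩
        refine ⟨⟨ζ m, Submodule.subset_span ⟨m, rfl⟩⟩, Subtype.ext ?_⟩
        exact hζ m
      have hDT : InT A0 Y0 (Z1 ⊔ Z3 : Submodule A0 Z) := by
        intro f
        have hf3 : f.comp (Submodule.inclusion (le_sup_right : Z3 ≤ Z1 ⊔ Z3)) = 0 := hZ3T _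
        obtain ⟨f1, hf1⟩ := factor_surj π hπs
          (f.comp (Submodule.inclusion (le_sup_left : Z1 ≤ Z1 ⊔ Z3))) (fun z hz => by
            have h1 : R.mkQ (z : Z) = 0 := congrArg Subtype.val hz
            have h2 := hJZ3 z z.2 (hRR0 _ (mem_of_mkQ h1))
            exact LinearMap.congr_fun hf3 ⟨z, h2⟩)
        have hf10 : f1 = 0 := hI0T f1
        have hf1' : ∀ z : Z1, f (Submodule.inclusion (le_sup_left : Z1 ≤ Z1 ⊔ Z3) z) = 0 := by
          intro z
          have := hf1 z
          rw [hf10] at this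
          exact this.symm
        refine LinearMap.ext fun d => ?_
        obtain ⟨d, hd⟩ := d
        obtain ⟨y, hy, z, hz, rfl⟩ := Submodule.mem_sup.mp hd
        have h5 : (⟨y + z, hd⟩ : (Z1 ⊔ Z3 : Submodule A0 Z)) =
            Submodule.inclusion (le_sup_left : Z1 ≤ Z1 ⊔ Z3) ⟨y, hy⟩ +
            Submodule.inclusion (le_sup_right : Z3 ≤ Z1 ⊔ Z3) ⟨z, hz⟩ := rfl
        rw [h5, map_add, hf1', LinearMap.zero_apply, zero_add]
        exact LinearMap.congr_fun hf3 ⟨z, hz⟩
      obtain ⟨n, φ, hφ⟩ := hP0 _ hDfin hDT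
      have hDR : ∀ d : (Z1 ⊔ Z3 : Submodule A0 Z), (d : Z) ∈ R0 := by
        intro d
        obtain ⟨c, rfl⟩ := hφ d
        have h6 : c = ∑ i, Pi.single i (c i) := (Finset.univ_sum_single c).symm
        rw [h6, map_sum]
        rw [AddSubmonoidClass.coe_finsetSum]
        apply Submodule.sum_mem
        intro i _
        exact Submodule.mem_iSup_of_mem
          ((Submodule.subtype _).comp (φ.comp (LinearMap.single A0 (fun _ => P0) i))) ⟨c i, rfl⟩
      intro m hm
      rw [LinearMap.mem_ker]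
      have h7 : ζ ⟨m, hm⟩ ∈ R0 :=
        hDR ⟨ζ ⟨m, hm⟩, (le_sup_left : Z1 ≤ Z1 ⊔ Z3) (Submodule.subset_span ⟨_, rfl⟩)⟩
      have h8 := hζ ⟨m, hm⟩
      rw [← h8]
      exact mkQ_zero (hR0R _ h7)
    exact LinearMap.ker_eq_top.mp hker
  have hfZ' : Module.Finite A (Z ⧸ R) := inferInstance
  exact hne (subsing_quot (hdisj _ hfZ' hZ'T hZ'F))

end descent

end Bic
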