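import Pool.Agent.Helper16.Bic.Star
import Pool.Agent.Helper16.Bic.Chain

universe u

namespace Bic

open Function

section gen
variable {A : Type u} [Ring A]

/-- some chain leads to zero -/
def Good (A : Type u) [Ring A] (M Y X : Type u) [AddCommGroup M] [Module A M]
    [AddCommGroup Y] [Module A Y] [AddCommGroup X] [Module A X] : Prop := ∃ n, Ch A M Y n X

/-- `W → E → Z` exact with `E` in `T` -/
def TType (A : Type u) [Ring A] (Y Z W : Type u) [AddCommGroup Y] [Module A Y]
    [AddCommGroup Z] [Module A Z] [AddCommGroup W] [Module A W] : Prop :=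
  ∃ (E : Type u) (_ : AddCommGroup E) (_ : Module A E) (i : W →ₗ[A] E) (p : E →ₗ[A] Z),
    SES i p ∧ InT A Y E

/-- `W → E → Z` exact with `E` in `F` -/
def FType (A : Type u) [Ring A] (M Z W : Type u) [AddCommGroup M] [Module A M]
    [AddCommGroup Z] [Module A Z] [AddCommGroup W] [Module A W] : Prop :=
  ∃ (E : Type u) (_ : AddCommGroup E) (_ : Module A E) (i : W →ₗ[A] E) (p : E →ₗ[A] Z),
    SES i p ∧ InF A M E

/-- the transitive relation -/
def Rel (A : Type u) [Ring A] (M Y X X' : Type u) [AddCommGroup M] [Module A M]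
    [AddCommGroup Y] [Module A Y] [AddCommGroup X] [Module A X]
    [AddCommGroup X'] [Module A X'] : Prop :=
  ∃ (Z0 : Type u) (_ : AddCommGroup Z0) (_ : Module A Z0)
    (W : Type u) (_ : AddCommGroup W) (_ : Module A W), Finite Z0 ∧ Finite W ∧
    TType A Y (X × Z0) W ∧ FType A M (X' × Z0) W

variable {M Y X Z W E Z' W' U V S X' X'' : Type u}
variable [AddCommGroup M] [Module A M] [AddCommGroup Y] [Module A Y]
variable [AddCommGroup X] [Module A X] [AddCommGroup X'] [Module A X']
variable [AddCommGroup X''] [Module A X'']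
variable [AddCommGroup Z] [Module A Z] [AddCommGroup W] [Module A W]
variable [AddCommGroup E] [Module A E]
variable [AddCommGroup Z'] [Module A Z'] [AddCommGroup W'] [Module A W']
variable [AddCommGroup U] [Module A U] [AddCommGroup V] [Module A V]
variable [AddCommGroup S] [Module A S]

theorem SES.prod {i : W →ₗ[A] E} {p : E →ₗ[A] Z} (h : SES i p)
    {j : W' →ₗ[A] U} {q : U →ₗ[A] Z'} (h' : SES j q) : SES (i.prodMap j) (p.prodMap q) where
  inj := by
    rintro ⟨a, b⟩ ⟨c, d⟩ hab
    exact Prod.ext (h.inj (congrArg Prod.fst hab)) (h'.inj (congrArg Prod.snd hab))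
  surj := by
    rintro ⟨z, z'⟩
    obtain ⟨e, rfl⟩ := h.surj z
    obtain ⟨e', rfl⟩ := h'.surj z'
    exact ⟨(e, e'), rfl⟩
  comp := by
    rintro ⟨a, b⟩
    exact Prod.ext (h.comp a) (h'.comp b)
  exact := by
    rintro ⟨a, b⟩ hab
    obtain ⟨w, rfl⟩ := h.exact a (congrArg Prod.fst hab)
    obtain ⟨w', rfl⟩ := h'.exact b (congrArg Prod.snd hab)
    exact ⟨(w, w'), rfl⟩

theorem InT.prod (h : InT A Y Z) (h' : InT A Y Z') : InT A Y (Z × Z') := by
  intro f
  have h1 := h (f.comp (LinearMap.inl A Z Z'))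
  have h2 := h' (f.comp (LinearMap.inr A Z Z'))
  apply LinearMap.prod_ext
  · rw [h1, LinearMap.zero_comp]
  · rw [h2, LinearMap.zero_comp]

theorem InF.prod (h : InF A M Z) (h' : InF A M Z') : InF A M (Z × Z') := by
  intro f
  have h1 := h ((LinearMap.fst A Z Z').comp f)
  have h2 := h' ((LinearMap.snd A Z Z').comp f)
  ext m
  · exact LinearMap.congr_fun h1 m
  · exact LinearMap.congr_fun h2 m

theorem TType.congr (h : TType A Y Z W) (e : Z ≃ₗ[A] Z') : TType A Y Z' W := by
  obtain ⟨E, _, _, i, p, hs, hE⟩ := h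
  exact ⟨E, inferInstance, inferInstance, _, _, hs.congr_right e, hE⟩

theorem FType.congr (h : FType A M Z W) (e : Z ≃ₗ[A] Z') : FType A M Z' W := by
  obtain ⟨E, _, _, i, p, hs, hE⟩ := h
  exact ⟨E, inferInstance, inferInstance, _, _, hs.congr_right e, hE⟩

theorem TType.prod (h : TType A Y Z W) (h' : TType A Y Z' W') :
    TType A Y (Z × Z') (W × W') := by
  obtain ⟨E, _, _, i, p, hs, hE⟩ := h
  obtain ⟨E', _, _, i', p', hs', hE'⟩ := h'
  exact ⟨E × E', inferInstance, inferInstance, _, _, hs.prod hs', hE.prod hE'⟩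

theorem FType.prod (h : FType A M Z W) (h' : FType A M Z' W') :
    FType A M (Z × Z') (W × W') := by
  obtain ⟨E, _, _, i, p, hs, hE⟩ := h
  obtain ⟨E', _, _, i', p', hs', hE'⟩ := h'
  exact ⟨E × E', inferInstance, inferInstance, _, _, hs.prod hs', hE.prod hE'⟩

/-- reordering -/
def shuffle (A : Type u) [Ring A] (X' Z0 X'' Z1 : Type u) [AddCommGroup X'] [Module A X']
    [AddCommGroup Z0] [Module A Z0] [AddCommGroup X''] [Module A X''] [AddCommGroup Z1]
    [Module A Z1] : ((X' × Z0) × (X'' × Z1)) ≃ₗ[A] (X'' × (Z0 × (X' × Z1))) where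
  toFun x := (x.2.1, (x.1.2, (x.1.1, x.2.2)))
  invFun x := ((x.2.2.1, x.2.1), (x.1, x.2.2.2))
  map_add' _ _ := rfl
  map_smul' _ _ := rfl
  left_inv _ := rfl
  right_inv _ := rfl

theorem Rel.trans (h1 : Rel A M Y X X') (h2 : Rel A M Y X' X'') (hf : Finite X') :
    Rel A M Y X X'' := by
  obtain ⟨Z0, _, _, W, _, _, hZ0, hW, hT, hF⟩ := h1
  obtain ⟨Z1, _, _, W1, _, _, hZ1, hW1, hT1, hF1⟩ := h2
  refine ⟨Z0 × (X' × Z1), inferInstance, inferInstance, W × W1, inferInstance, inferInstance,
    inferInstance, inferInstance, ?_, ?_⟩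
  · exact (hT.prod hT1).congr (LinearEquiv.prodAssoc A X Z0 (X' × Z1))
  · exact (hF.prod hF1).congr (shuffle A X' Z0 X'' Z1)

theorem Rel.irrefl (K : Type u) [Field K] [Finite K] [Algebra K A] (h : TPair A M Y)
    (hf : Finite X) (hr : Rel A M Y X X) : Subsingleton X := by
  obtain ⟨Z0, _, _, W, _, _, hZ0, hW, ⟨E, _, _, i, p, hs, hE⟩, ⟨E', _, _, i', p', hs', hE'⟩⟩ := hr
  have := star K h hW inferInstance hs hE hs' hE'
  constructor
  intro a b
  exact congrArg Prod.fst (Subsingleton.elim ((a, 0) : X × Z0) (b, 0))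

/-- reordering with zero -/
def prodZero (A : Type u) [Ring A] (X : Type u) [AddCommGroup X] [Module A X] :
    X ≃ₗ[A] (X × PUnit.{u+1}) where
  toFun x := (x, 0)
  invFun x := x.1
  map_add' _ _ := rfl
  map_smul' _ _ := rfl
  left_inv _ := rfl
  right_inv _ := rfl

theorem Rel.of (hW : Finite W) (hT : TType A Y X W) (hF : FType A M X' W) :
    Rel A M Y X X' :=
  ⟨PUnit, inferInstance, inferInstance, W, inferInstance, inferInstance, inferInstance, hW,
    hT.congr (prodZero A X), hF.congr (prodZero A X')⟩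

theorem Rel.congr_right (h : Rel A M Y X X') (e : X' ≃ₗ[A] X'') : Rel A M Y X X'' := by
  obtain ⟨Z0, _, _, W, _, _, hZ0, hW, hT, hF⟩ := h
  exact ⟨Z0, inferInstance, inferInstance, W, inferInstance, inferInstance, hZ0, hW, hT,
    hF.congr (e.prodCongr (LinearEquiv.refl A Z0))⟩

theorem Good.congr (e : X ≃ₗ[A] X') (h : Good A M Y X) : Good A M Y X' := by
  obtain ⟨n, hn⟩ := h
  exact ⟨n, hn.congr e⟩

theorem TSimple.congr (e : X ≃ₗ[A] X') (h : TSimple A Y X) : TSimple A Y X' := by
  have := h.fin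
  have := h.nt
  refine ⟨Finite.of_surjective e e.surjective, h.inT.congr e, e.symm.toEquiv.nontrivial, ?_⟩
  intro L hL
  have h1 : InT A Y (L.map e.symm.toLinearMap) := hL.map _
  rcases h.sub _ h1 with h2 | h2
  · exact Or.inl (eq_bot_of_map e.symm.injective h2)
  · right
    rw [eq_top_iff]
    intro x _
    have : e.symm x ∈ L.map e.symm.toLinearMap := h2 ▸ Submodule.mem_top
    obtain ⟨l, hl, hlx⟩ := this
    have : l = x := e.symm.injective hlx
    rwa [← this]

/-- restriction of a short exact sequence to a submodule of the quotient -/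
theorem ses_comap {Za Zb : Type u} [AddCommGroup Za] [Module A Za] [AddCommGroup Zb] [Module A Zb]
    {a : Za →ₗ[A] Z} {b : Z →ₗ[A] Zb} (h : SES a b) (Q : Submodule A Zb) :
    ∃ (a' : Za →ₗ[A] (Q.comap b)) (b' : (Q.comap b) →ₗ[A] Q), SES a' b' := by
  refine ⟨a.codRestrict _ (fun x => by
      rw [Submodule.mem_comap, h.comp]; exact Q.zero_mem),
    (b.comp (Q.comap b).subtype).codRestrict Q (fun x => x.2), ⟨?_, ?_, ?_, ?_⟩⟩
  · intro x y hxy
    exact h.inj (congrArg (fun t : Q.comap b => (t : Z)) hxy)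
  · rintro ⟨q, hq⟩
    obtain ⟨z, rfl⟩ := h.surj q
    exact ⟨⟨z, hq⟩, rfl⟩
  · intro w
    exact Subtype.ext (h.comp w)
  · intro e he
    have : b (e : Z) = 0 := congrArg Subtype.val he
    obtain ⟨w, hw⟩ := h.exact _ this
    exact ⟨w, Subtype.ext hw⟩

theorem card_quot_lt (hf : Finite Z) (L : Submodule A Z) (hL : Nontrivial L) :
    Nat.card (Z ⧸ L) < Nat.card Z := by
  have h1 := Nat.card_le_card_of_surjective L.mkQ L.mkQ_surjective
  rcases lt_or_eq_of_le h1 with h2 | h2
  · exact h2
  · exfalso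
    have hb := L.mkQ_surjective.bijective_of_nat_card_le h2.symm.le
    have : L = ⊥ := by
      rw [← L.ker_mkQ]
      exact LinearMap.ker_eq_bot.mpr hb.1
    exact (Submodule.nontrivial_iff_ne_bot).mp hL this

/-- a bad module has a bad `T`-simple factor -/
theorem bad_factor (h : TPair A M Y) : ∀ (n : ℕ) (Q : Type u) [AddCommGroup Q] [Module A Q],
    Finite Q → InT A Y Q → Nat.card Q ≤ n → ¬ Good A M Y Q →
    ∃ (X2 : Type u) (_ : AddCommGroup X2) (_ : Module A X2), TSimple A Y X2 ∧
      ¬ Good A M Y X2 ∧ ∃ (Q1 : Submodule A Q) (p : Q1 →ₗ[A] X2), Surjective p ∧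
      InT A Y (LinearMap.ker p) := by
  intro n
  induction n with
  | zero =>
    intro Q _ _ hf hT hc hb
    have := Nat.card_pos (α := Q)
    omega
  | succ n ih =>
    intro Q _ _ hf hT hc hb
    have hnt : Nontrivial Q := by
      by_contra hcon
      rw [not_nontrivial_iff_subsingleton] at hcon
      exact hb ⟨0, hcon⟩
    obtain ⟨L, hL⟩ := exists_TSimple_sub hf hnt hT
    by_cases hg : Good A M Y L
    · have hlt := card_quot_lt hf L hL.nt
      have hbad : ¬ Good A M Y (Q ⧸ L) := by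
        rintro ⟨m, hm⟩
        obtain ⟨k, hk⟩ := hg
        exact hb ⟨m + k, Ch.ext h m k (SES.of_sub L) inferInstance hL.inT hm hk⟩
      obtain ⟨X2, _, _, hX2, hX2b, Q1, p, hp, hpk⟩ := ih (Q ⧸ L) (finite_quot hf L) (hT.quot L)
        (by omega) hbad
      obtain ⟨a', b', hab⟩ := ses_comap (SES.of_sub L) Q1
      obtain ⟨a'', b'', hab', -, -⟩ := ses_ker hab (SES.of_ker p hp)
      exact ⟨X2, inferInstance, inferInstance, hX2, hX2b, Q1.comap L.mkQ, p.comp b',
        hp.comp hab.surj, hab'.inT hL.inT hpk⟩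
    · refine ⟨L, inferInstance, inferInstance, hL, hg, L, LinearMap.id, surjective_id, ?_⟩
      apply InT.of_subsingleton
      rw [Submodule.subsingleton_iff_eq_bot]
      exact LinearMap.ker_id

/-- the main claim: a bad quotient `X = S/V` of a `T`-top by `V` in `F` is related to a bad
`T`-simple. -/
theorem claim (h : TPair A M Y) : ∀ (n : ℕ) (S X : Type u) [AddCommGroup S] [Module A S]
    [AddCommGroup X] [Module A X] (g : S →ₗ[A] X), TTop A M Y S → Surjective g →
    InF A M (LinearMap.ker g) → Nat.card (LinearMap.ker g) ≤ n → ¬ Good A M Y X →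
    ∃ (X2 : Type u) (_ : AddCommGroup X2) (_ : Module A X2)
      (W : Type u) (_ : AddCommGroup W) (_ : Module A W), TSimple A Y X2 ∧
      ¬ Good A M Y X2 ∧ Finite W ∧ TType A Y X W ∧ FType A M X2 W := by
  intro n
  induction n with
  | zero =>
    intro S X _ _ _ _ g hS hg hk hc hb
    have := hS.simple.fin
    have := Nat.card_pos (α := LinearMap.ker g)
    omega
  | succ n ih =>
    intro S X _ _ _ _ g hS hg hk hc hb
    have hfS := hS.simple.fin
    by_cases hV : Subsingleton (LinearMap.ker g)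
    · exfalso
      have hinj : Injective g :=
        LinearMap.ker_eq_bot.mp ((Submodule.subsingleton_iff_eq_bot).mp hV)
      exact hb ⟨1, hS.ch.congr (LinearEquiv.ofBijective g ⟨hinj, hg⟩)⟩
    rw [not_subsingleton_iff_nontrivial] at hV
    obtain ⟨L, hN⟩ := exists_FSimple_quot inferInstance hV hk
    let V1 : Submodule A S := L.map (LinearMap.ker g).subtype
    have hV1 : V1 ≤ LinearMap.ker g := Submodule.map_subtype_le _ L
    have hV1' : V1 ≤ LinearMap.ker g := hV1
    -- the sequence `N → X1 → X`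
    let i : (LinearMap.ker g ⧸ L) →ₗ[A] (S ⧸ V1) :=
      L.mapQ V1 (LinearMap.ker g).subtype (fun x hx => ⟨x, hx, rfl⟩)
    let p : (S ⧸ V1) →ₗ[A] X := V1.liftQ g hV1
    have hip : SES i p := by
      constructor
      · rw [injective_iff_map_eq_zero]
        intro x hx
        obtain ⟨v, rfl⟩ := L.mkQ_surjective x
        have h1 : V1.mkQ (v : S) = 0 := hx
        obtain ⟨v', hv', hvv⟩ := mem_of_mkQ h1
        have : v' = v := Subtype.ext hvv
        exact mkQ_zero (this ▸ hv')
      · intro x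
        obtain ⟨s, rfl⟩ := hg x
        exact ⟨V1.mkQ s, rfl⟩
      · intro x
        obtain ⟨v, rfl⟩ := L.mkQ_surjective x
        exact v.2
      · intro x hx
        obtain ⟨s, rfl⟩ := V1.mkQ_surjective x
        exact ⟨L.mkQ ⟨s, hx⟩, rfl⟩
    have hX1T : InT A Y (S ⧸ V1) := hS.simple.inT.quot V1
    have hX1f : Finite (S ⧸ V1) := finite_quot hfS V1
    obtain ⟨S', _, _, hS', c, hc1, hc2⟩ := hN.exists_top h
    have hcs : SES c (LinearMap.range c).mkQ := SES.of_range c hc1
    have hQf : Finite (S' ⧸ LinearMap.range c) := finite_quot hS'.simple.fin _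
    obtain ⟨G, _, _, a, b, p', q', hb', ha', hab, hp', hq'⟩ := pushout hip hcs
    have hnons : ¬ ∃ s : X →ₗ[A] G, ∀ z, p' (s z) = z := by
      rintro ⟨s, hs⟩
      obtain ⟨r, hr⟩ := hb'.retraction_of_section s hs
      have h0 : r.comp a = 0 := h.hom_zero hX1f hX1T hS'.simple.inF _
      have h1 : ∀ n, n = (0 : LinearMap.ker g ⧸ L) := by
        intro n
        apply hc1
        rw [map_zero, ← hr (c n), ← hab]
        exact LinearMap.congr_fun h0 _
      have := hN.nt
      obtain ⟨n, hn⟩ := exists_ne (0 : LinearMap.ker g ⧸ L)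
      exact hn (h1 n)
    by_cases hQ : Good A M Y (S' ⧸ LinearMap.range c)
    · -- `X1` is bad
      have hX1 : ¬ Good A M Y (S ⧸ V1) := by
        rintro ⟨m, hm⟩
        obtain ⟨k, hk⟩ := hQ
        apply hb
        exact ⟨k + m + 1, G, inferInstance, inferInstance,
          Or.inr ⟨S', inferInstance, inferInstance, b, p', hS', hb', hnons⟩,
          Ch.ext h k m ha' hX1f hX1T hk hm⟩
      have hcard : Nat.card (LinearMap.ker V1.mkQ) ≤ n := by
        rw [V1.ker_mkQ]
        have h1 : Nat.card V1 < Nat.card (LinearMap.ker g) := by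
          have h2 : Nat.card V1 ≤ Nat.card (LinearMap.ker g) :=
            Nat.card_le_card_of_injective _ (Submodule.inclusion_injective hV1)
          rcases lt_or_eq_of_le h2 with h3 | h3
          · exact h3
          · exfalso
            have h4 := (Submodule.inclusion_injective hV1).bijective_of_nat_card_le h3.symm.le
            have h5 : L = ⊤ := by
              rw [eq_top_iff]
              intro x _
              obtain ⟨⟨y, v', hv', hvy⟩, hy⟩ := h4.2 x
              have h6 : y = (x : S) := congrArg Subtype.val hy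
              have h7 : v' = x := Subtype.ext (hvy.trans h6)
              rwa [← h7]
            have := hN.nt
            rw [Submodule.Quotient.nontrivial_iff] at this
            exact this h5
        omega
      obtain ⟨X2, _, _, W, _, _, hX2, hX2b, hWf, ⟨E, _, _, i0, p0, hs0, hE⟩,
        ⟨E', _, _, i0', p0', hs0', hE'⟩⟩ := ih S (S ⧸ V1) V1.mkQ hS V1.mkQ_surjective
          (by rw [V1.ker_mkQ]
              exact hk.of_inj (Submodule.inclusion hV1) (Submodule.inclusion_injective hV1))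
          hcard hX1
      obtain ⟨a'', b'', hab'', -, -⟩ := ses_ker hs0 hip
      obtain ⟨G', _, _, α, β, p'', q'', hβ, hα, -, -, -⟩ := pushout hs0' hab''
      refine ⟨X2, inferInstance, inferInstance, LinearMap.ker (p.comp p0), inferInstance,
        inferInstance, hX2, hX2b, ?_, ?_, ?_⟩
      · exact hab''.finite hWf hN.fin
      · exact ⟨E, inferInstance, inferInstance, _, _, SES.of_ker (p.comp p0)
          (hip.surj.comp hs0.surj), hE⟩
      · exact ⟨G', inferInstance, inferInstance, _, _, hβ, hα.inF hE' hN.inF⟩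
    · -- `Q` is bad
      obtain ⟨X2, _, _, hX2, hX2b, Q1, π, hπ, hπk⟩ := bad_factor h _
        (S' ⧸ LinearMap.range c) hQf hc2 le_rfl hQ
      obtain ⟨a1, b1, hab1⟩ := ses_comap hcs Q1
      obtain ⟨a2, b2, hab2, -, -⟩ := ses_ker hab1 (SES.of_ker π hπ)
      obtain ⟨G', _, _, α, β, p'', q'', hβ, hα, -, -, -⟩ := pushout hip hab2
      have hS'f := hS'.simple.fin
      refine ⟨X2, inferInstance, inferInstance, LinearMap.ker (π.comp b1), inferInstance,
        inferInstance, hX2, hX2b, inferInstance, ?_, ?_⟩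
      · exact ⟨G', inferInstance, inferInstance, _, _, hβ, hα.inT hX1T hπk⟩
      · exact ⟨Q1.comap (LinearMap.range c).mkQ, inferInstance, inferInstance, _, _,
          SES.of_ker (π.comp b1) (hπ.comp hab1.surj), hS'.simple.inF.sub _⟩

/-- every object of `T` is good -/
theorem all_good (K : Type u) [Field K] [Finite K] [Algebra K A] (h : TPair A M Y)
    (hf : Finite Z) (hZ : InT A Y Z) : Good A M Y Z := by
  by_contra hbad
  obtain ⟨X0, _, _, hX0, hX0b, -⟩ := bad_factor h _ Z hf hZ le_rfl hbad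
  have hfM := h.finM
  let B := {L : Submodule A M // TSimple A Y (M ⧸ L) ∧ ¬ Good A M Y (M ⧸ L)}
  have hB : ∀ (X : Type u) [AddCommGroup X] [Module A X], TSimple A Y X → ¬ Good A M Y X →
      ∃ (b : B), Nonempty (X ≃ₗ[A] (M ⧸ b.1)) := by
    intro X _ _ hX hXb
    obtain ⟨g, hg⟩ := hX.exists_surj h
    let e := g.quotKerEquivOfSurjective hg
    exact ⟨⟨LinearMap.ker g, hX.congr e.symm, fun hgood => hXb (hgood.congr e)⟩, ⟨e.symm⟩⟩
  obtain ⟨b0, -⟩ := hB X0 hX0 hX0b
  let r : B → B → Prop := fun b b' => Rel A M Y (M ⧸ b'.1) (M ⧸ b.1)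
  have hirr : Std.Irrefl r := ⟨fun b hb => by
    have h1 := Rel.irrefl K h b.2.1.fin hb
    have := b.2.1.nt
    exact not_subsingleton _ h1⟩
  have htr : IsTrans B r := ⟨fun a b c hab hbc => Rel.trans hbc hab b.2.1.fin⟩
  have hfB : Finite B := inferInstance
  have hwf : WellFounded r := Finite.wellFounded_of_trans_of_irrefl r
  obtain ⟨b, -, hb⟩ := hwf.has_min Set.univ ⟨b0, trivial⟩
  obtain ⟨S, _, _, hS, g, hg, hgk⟩ := b.2.1.exists_top h
  obtain ⟨X2, _, _, W, _, _, hX2, hX2b, hWf, hT, hF⟩ := claim h _ S _ g hS hg hgk le_rfl b.2.2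
  obtain ⟨b', ⟨e⟩⟩ := hB X2 hX2 hX2b
  exact hb b' trivial ((Rel.of hWf hT hF).congr_right e)

end gen

end Bic
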