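import Pool.Agent.Helper16.Bic.Core

universe u

namespace Bic

open Function

section induced

variable {k : Type u} [Field k] {A : Type u} [Ring A] [Algebra k A]

/-- additive bimodule maps `A → A0`. -/
structure BiMap (A0 : Subalgebra k A) where
  f : A → A0
  add : ∀ a b, f (a + b) = f a + f b
  left : ∀ (c : A0) (a : A), f (c * a) = c * f a
  right : ∀ (a : A) (c : A0), f (a * c) = f a * c

theorem BiMap.zero {A0 : Subalgebra k A} (ξ : BiMap A0) : ξ.f 0 = 0 := by
  have := ξ.add 0 0
  rw [add_zero] at this
  exact left_eq_add.mp this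

theorem BiMap.sum {A0 : Subalgebra k A} (ξ : BiMap A0) {ι : Type*} (s : Finset ι) (g : ι → A) :
    ξ.f (∑ i ∈ s, g i) = ∑ i ∈ s, ξ.f (g i) := by
  classical
  induction s using Finset.induction_on with
  | empty => simp [ξ.zero]
  | insert a s ha ih => rw [Finset.sum_insert ha, Finset.sum_insert ha, ξ.add, ih]

theorem induced (A0 : Subalgebra k A) (N0 : Type u) [AddCommGroup N0] [Module A0 N0]
    (hf : Finite N0) :
    ∃ (N : Type u) (_ : AddCommGroup N) (_ : Module A N) (ι : N0 →ₗ[A0] N),
      Module.Finite A N ∧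
      (∀ n : N, ∃ (r : ℕ) (a : Fin r → A) (x : Fin r → N0), n = ∑ i, a i • ι (x i)) ∧
      (∀ (Z : Type u) [AddCommGroup Z] [Module A Z] (f : N0 →ₗ[A0] Z),
        ∃ g : N →ₗ[A] Z, ∀ x, g (ι x) = f x) ∧
      (∀ ξ : BiMap A0, ∃ ξN : N →ₗ[A0] N0, ∀ (a : A) (x : N0), ξN (a • ι x) = ξ.f a • x) := by
  classical
  have hft : Fintype N0 := Fintype.ofFinite N0
  let q0 : (N0 → A0) →ₗ[A0] N0 := Fintype.linearCombination A0 (fun x : N0 => x)
  have hq0 : Surjective q0 := fun x => ⟨Pi.single x 1, by simp [q0]⟩
  let j : (N0 → A0) →ₗ[A0] (N0 → A) :=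
    { toFun := fun l x => (l x : A)
      map_add' := fun l l' => rfl
      map_smul' := fun c l => rfl }
  let LA : Submodule A (N0 → A) := Submodule.span A {z | ∃ l, q0 l = 0 ∧ z = j l}
  let θ : (N0 → A0) →ₗ[A0] ((N0 → A) ⧸ LA) := (LA.mkQ.restrictScalars A0).comp j
  obtain ⟨ι, hι⟩ := factor_surj q0 hq0 θ (fun l hl => by
    change LA.mkQ (j l) = 0
    exact mkQ_zero (Submodule.subset_span ⟨l, hl, rfl⟩))
  have hι1 : ∀ x, ι x = LA.mkQ (Pi.single x 1) := by
    intro x
    have h1 : q0 (Pi.single x 1) = x := by simp [q0]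
    have h2 := hι (Pi.single x 1)
    rw [h1] at h2
    rw [h2]
    change LA.mkQ (j (Pi.single x 1)) = _
    congr 1
    ext y
    change ((Pi.single x (1 : A0) : N0 → A0) y : A) = _
    by_cases hy : y = x
    · subst hy; simp
    · simp [hy]
  have hgen : ∀ z : N0 → A, LA.mkQ z = ∑ x, z x • ι x := by
    intro z
    have h1 : z = ∑ x, z x • (Pi.single x (1 : A) : N0 → A) := by
      ext y
      simp [Finset.sum_apply, Pi.single_apply]
    conv_lhs => rw [h1]
    rw [map_sum]
    apply Finset.sum_congr rfl
    intro x _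
    rw [map_smul, hι1]
  refine ⟨(N0 → A) ⧸ LA, inferInstance, inferInstance, ι, inferInstance, ?_, ?_, ?_⟩
  · intro n
    obtain ⟨z, rfl⟩ := LA.mkQ_surjective n
    let e := Fintype.equivFin N0
    refine ⟨Fintype.card N0, fun i => z (e.symm i), fun i => e.symm i, ?_⟩
    rw [hgen]
    exact (Equiv.sum_comp e.symm (fun x => z x • ι x)).symm
  · intro Z _ _ f
    have hle : LA ≤ LinearMap.ker (Fintype.linearCombination A (fun x => f x)) := by
      apply Submodule.span_le.mpr
      rintro _ ⟨l, hl, rfl⟩
      change Fintype.linearCombination A (fun x => f x) (j l) = 0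
      rw [Fintype.linearCombination_apply]
      have h1 : f (q0 l) = 0 := by rw [hl, map_zero]
      rw [Fintype.linearCombination_apply, map_sum] at h1
      rw [← h1]
      apply Finset.sum_congr rfl
      intro x _
      rw [map_smul]
      rfl
    refine ⟨LA.liftQ _ hle, fun x => ?_⟩
    rw [hι1]
    change Fintype.linearCombination A (fun x => f x) (Pi.single x 1) = f x
    simp
  · intro ξ
    let Ξ : (N0 → A) →ₗ[A0] N0 :=
      { toFun := fun z => ∑ x, ξ.f (z x) • x
        map_add' := fun z z' => by
          rw [← Finset.sum_add_distrib]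
          apply Finset.sum_congr rfl
          intro x _
          rw [Pi.add_apply, ξ.add, add_smul]
        map_smul' := fun c z => by
          rw [Finset.smul_sum]
          apply Finset.sum_congr rfl
          intro x _
          have h1 : (c • z) x = (c : A) * z x := rfl
          rw [h1, ξ.left, mul_smul]
          rfl }
    obtain ⟨ξN, hξN⟩ := factor_surj (LA.mkQ.restrictScalars A0) LA.mkQ_surjective Ξ
      (fun z hz => by
        have hz' : z ∈ LA := mem_of_mkQ hz
        have hle : ∀ z ∈ LA, Ξ z = 0 := by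
          intro z hz
          refine Submodule.closure_induction ?_ ?_ ?_ hz
          · exact map_zero _
          · intro x y _ _ hx hy
            rw [map_add, hx, hy, add_zero]
          · rintro a _ ⟨l, hl, rfl⟩
            change ∑ x, ξ.f (a * (l x : A)) • x = 0
            have h1 : ∑ x, ξ.f (a * (l x : A)) • x = ξ.f a • q0 l := by
              rw [Fintype.linearCombination_apply, Finset.smul_sum]
              apply Finset.sum_congr rfl
              intro x _
              rw [ξ.right, mul_smul]
            rw [h1, hl, smul_zero]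
        exact hle z hz')
    refine ⟨ξN, fun a x => ?_⟩
    have h1 : a • ι x = LA.mkQ (a • (Pi.single x (1 : A) : N0 → A)) := by
      rw [hι1, map_smul]
    rw [h1]
    have h2 := hξN (a • (Pi.single x (1 : A) : N0 → A))
    have h3 : Ξ (a • (Pi.single x (1 : A) : N0 → A)) = ξ.f a • x := by
      change ∑ y, ξ.f ((a • (Pi.single x (1 : A) : N0 → A)) y) • y = _
      rw [Finset.sum_eq_single x]
      · simp
      · intro y _ hy
        simp [hy, ξ.zero]
      · intro hcon; exact absurd (Finset.mem_univ _) hcon
    rw [h3] at h2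
    exact h2

end induced

end Bic
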