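import Pool.Agent.Helper16.Bic.Tops2

universe u

namespace Bic

open Function

theorem exists_big_ext (K : Type u) [Field K] [Finite K] (n : ℕ) :
    ∃ (L : Type u) (_ : Field L) (_ : Algebra K L), Finite L ∧ n < Nat.card L ∧
      ∃ lam : L, lam ≠ 0 ∧ ∀ x : L, x ≠ 0 → ∃ k : ℕ, x = lam ^ k := by
  classical
  obtain ⟨S, hS⟩ := Infinite.exists_subset_card_eq (AlgebraicClosure K) (n + 1)
  let L := IntermediateField.adjoin K (S : Set (AlgebraicClosure K))
  have hfd : FiniteDimensional K L :=
    IntermediateField.finiteDimensional_adjoin (fun x _ => Algebra.IsIntegral.isIntegral x)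
  have hfin : Finite L := Module.finite_of_finite K
  refine ⟨L, inferInstance, inferInstance, hfin, ?_, ?_⟩
  · have h1 : Nat.card (S : Set (AlgebraicClosure K)) ≤ Nat.card L :=
      Nat.card_le_card_of_injective
        (fun x : (S : Set (AlgebraicClosure K)) =>
          (⟨x.1, IntermediateField.subset_adjoin K _ x.2⟩ : L))
        (fun x y hxy => by
          have := congrArg (fun t : L => (t : AlgebraicClosure K)) hxy
          exact Subtype.ext this)
    have h2 : Nat.card (S : Set (AlgebraicClosure K)) = n + 1 := by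
      simp [hS]
    omega
  · obtain ⟨g, hg⟩ := IsCyclic.exists_generator (α := Lˣ)
    refine ⟨g, g.ne_zero, fun x hx => ?_⟩
    have := hg (Units.mk0 x hx)
    rw [← mem_powers_iff_mem_zpowers] at this
    obtain ⟨k, hk⟩ := this
    refine ⟨k, ?_⟩
    have := congrArg Units.val hk
    simpa using this.symm

section star

variable {K : Type u} [Field K] {A : Type u} [Ring A] [Algebra K A]
variable {L : Type u} [Field L] [Algebra K L]
variable {M Y Z W E1 E2 P : Type u}
variable [AddCommGroup M] [Module A M] [AddCommGroup Y] [Module A Y]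
variable [AddCommGroup Z] [Module A Z] [Module K Z] [IsScalarTower K A Z]
variable [AddCommGroup W] [Module A W] [Module K W] [IsScalarTower K A W]
variable [AddCommGroup E1] [Module A E1] [Module K E1] [IsScalarTower K A E1]
variable [AddCommGroup E2] [Module A E2] [Module K E2] [IsScalarTower K A E2]
variable [AddCommGroup P] [Module A P] [Module K P] [IsScalarTower K A P]

/-- postcomposition -/
def post (K L : Type u) [Field K] [Field L] [Algebra K L] [Algebra K A] (f : P →ₗ[A] Z)
    [Module K P] [Module K Z] [IsScalarTower K A P] [IsScalarTower K A Z] :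
    (L →ₗ[K] P) →ₗ[A] (L →ₗ[K] Z) where
  toFun φ := (f.restrictScalars K).comp φ
  map_add' φ ψ := by ext x; simp
  map_smul' a φ := by ext x; simp

/-- precomposition with multiplication by `l` -/
def pre (K : Type u) {L : Type u} [Field K] [Field L] [Algebra K L] [Algebra K A] (P : Type u)
    [AddCommGroup P] [Module A P] [Module K P] [IsScalarTower K A P] (l : L) :
    (L →ₗ[K] P) →ₗ[A] (L →ₗ[K] P) where
  toFun φ := φ.comp (LinearMap.mulLeft K l)
  map_add' φ ψ := by ext x; simp
  map_smul' a φ := by ext x; simp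

/-- evaluation -/
def ev (K : Type u) {L : Type u} [Field K] [Field L] [Algebra K L] [Algebra K A] (P : Type u)
    [AddCommGroup P] [Module A P] [Module K P] [IsScalarTower K A P] (l : L) :
    (L →ₗ[K] P) →ₗ[A] P where
  toFun φ := φ l
  map_add' φ ψ := by simp
  map_smul' a φ := by simp

/-- rank one maps -/
def rk (c : L →ₗ[K] K) (P : Type u)
    [AddCommGroup P] [Module A P] [Module K P] [IsScalarTower K A P] :
    P →ₗ[A] (L →ₗ[K] P) where
  toFun p := c.smulRight p
  map_add' φ ψ := by ext x; simp
  map_smul' a p := by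
    ext x
    exact smul_comm (c x) a p

theorem exists_ne_of_card {α β : Type u} [AddCommGroup α] [AddCommGroup β] [Finite α] [Finite β]
    (f : α →+ β) (h : Nat.card β < Nat.card α) : ∃ a, a ≠ 0 ∧ f a = 0 := by
  by_contra hcon
  push Not at hcon
  have hinj : Injective f := by
    rw [injective_iff_map_eq_zero]
    intro a ha
    by_contra h0
    exact hcon a h0 ha
  have := Nat.card_le_card_of_injective f hinj
  omega

theorem dual_eq (hfin : Finite L) (c0 : L →ₗ[K] K) (hc0 : c0 ≠ 0) (c : L →ₗ[K] K) :
    ∃ x : L, c = c0.comp (LinearMap.mulLeft K x) := by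
  have hfd : FiniteDimensional K L := Module.Finite.of_finite
  let F : L →ₗ[K] (L →ₗ[K] K) :=
    { toFun := fun x => c0.comp (LinearMap.mulLeft K x)
      map_add' := fun x y => by ext z; simp [add_mul]
      map_smul' := fun a x => by ext z; simp }
  have hinj : Injective F := by
    rw [injective_iff_map_eq_zero]
    intro x hx
    by_contra h0
    apply hc0
    ext y
    have := LinearMap.congr_fun hx (x⁻¹ * y)
    simp only [F, LinearMap.coe_mk, AddHom.coe_mk, LinearMap.comp_apply,
      LinearMap.mulLeft_apply, LinearMap.zero_apply] at this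
    rw [← mul_assoc, mul_inv_cancel₀ h0, one_mul] at this
    simpa using this
  have hsurj : Surjective F := by
    rw [← LinearMap.injective_iff_surjective_of_finrank_eq_finrank
      (Subspace.dual_finrank_eq (K := K) (V := L)).symm]
    exact hinj
  obtain ⟨x, hx⟩ := hsurj c
  exact ⟨x, hx.symm⟩

theorem finite_lin {B : Type u} [Semiring B] {P Q : Type u} [AddCommMonoid P] [Module B P]
    [AddCommMonoid Q] [Module B Q] (hP : Finite P) (hQ : Finite Q) : Finite (P →ₗ[B] Q) :=
  DFunLike.finite _

include K in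
theorem star_aux (hfL : Finite L) (h : TPair A M Y) (hfW : Finite W) (hfZ : Finite Z)
    (hfP : Finite P)
    {i1 : W →ₗ[A] E1} {p1 : E1 →ₗ[A] Z} (h1 : SES i1 p1) (hE1 : InT A Y E1)
    {i2 : W →ₗ[A] E2} {p2 : E2 →ₗ[A] Z} (h2 : SES i2 p2) (hE2 : InF A M E2)
    {a : P →ₗ[A] E1} {b : P →ₗ[A] E2} {i' : W →ₗ[A] P} {j' : W →ₗ[A] P}
    (hb : SES i' b) (ha : SES j' a) (hab : ∀ g, p1 (a g) = p2 (b g))
    (hai : ∀ w, a (i' w) = i1 w) (hbj : ∀ w, b (j' w) = i2 w)
    (lam : L) (hlam0 : lam ≠ 0) (hlam : ∀ x : L, x ≠ 0 → ∃ k : ℕ, x = lam ^ k)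
    (hcard1 : Nat.card (W →ₗ[A] Y) < Nat.card L) (hcard2 : Nat.card (M →ₗ[A] Z) < Nat.card L) :
    Subsingleton Z := by
  have hfM := h.finM
  have hfY := h.finY
  have hfd : FiniteDimensional K L := Module.Finite.of_finite
  have hfLP : Finite (L →ₗ[K] P) := finite_lin hfL hfP
  let j : (L →ₗ[K] W) →ₗ[A] (L →ₗ[K] P) := post K L j' - (post K L i').comp (pre (A := A) K W lam)
  have hj : ∀ φ x, j φ x = j' (φ x) - i' (φ (lam * x)) := fun φ x => rfl
  let N := (L →ₗ[K] P) ⧸ LinearMap.range j
  have hfN : Finite N := finite_quot hfLP _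
  have hcardd : Nat.card (L →ₗ[K] K) = Nat.card L := by
    have e := (Basis.linearEquiv_dual_iff_finiteDimensional (K := K) (V := L)).mpr hfd
    obtain ⟨e⟩ := e
    exact (Nat.card_congr e.toEquiv).symm
  have hfd' : Finite (L →ₗ[K] K) := Nat.finite_of_card_ne_zero (by
    rw [hcardd]; exact Nat.card_pos.ne')
  -- `N` is in `T`
  have hT : InT A Y N := by
    intro f
    let f' : (L →ₗ[K] P) →ₗ[A] Y := f.comp (LinearMap.range j).mkQ
    have hrel : ∀ φ : L →ₗ[K] W, f' (post K L j' φ) = f' (post K L i' (pre (A := A) K W lam φ)) := by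
      intro φ
      have : f' (j φ) = 0 := by
        change f ((LinearMap.range j).mkQ (j φ)) = 0
        rw [mkQ_range, map_zero]
      have h3 : j φ = post K L j' φ - post K L i' (pre (A := A) K W lam φ) := rfl
      rw [h3, map_sub, sub_eq_zero] at this
      exact this
    have key : ∀ c : L →ₗ[K] K, (∀ w, f' (rk (A := A) (c.comp (LinearMap.mulLeft K lam)) P (i' w)) = 0) →
        f'.comp (rk c P) = 0 := by
      intro c hc
      obtain ⟨g, hg⟩ := factor_surj a ha.surj (f'.comp (rk c P)) (fun e he => by
        obtain ⟨w, rfl⟩ := ha.exact e he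
        have h4 := hrel (rk (A := A) c W w)
        have h5 : post K L j' (rk (A := A) c W w) = rk (A := A) c P (j' w) := by
          ext x; simp [post, rk]
        have h6 : post K L i' (pre (A := A) K W lam (rk (A := A) c W w)) =
            rk (A := A) (c.comp (LinearMap.mulLeft K lam)) P (i' w) := by
          ext x; simp [post, rk, pre]
        rw [h5, h6, hc w] at h4
        exact h4)
      ext e
      rw [← hg, hE1 g]
      rfl
    let ρ : (L →ₗ[K] K) →+ (W →ₗ[A] Y) :=
      { toFun := fun c => (f'.comp (rk c P)).comp i'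
        map_zero' := by
          ext w
          have : rk (A := A) (0 : L →ₗ[K] K) P (i' w) = 0 := by ext x; simp [rk]
          simp [this]
        map_add' := fun c d => by
          ext w
          have : rk (A := A) (c + d) P (i' w) = rk (A := A) c P (i' w) +
              rk (A := A) d P (i' w) := by
            ext x; simp [rk, add_smul]
          simp [this] }
    have hfWY : Finite (W →ₗ[A] Y) := finite_lin hfW hfY
    obtain ⟨c0, hc0, hc0'⟩ := exists_ne_of_card ρ (by rw [hcardd]; exact hcard1)
    have hall : ∀ k : ℕ, ρ (c0.comp (LinearMap.mulLeft K (lam⁻¹ ^ k))) = 0 := by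
      intro k
      induction k with
      | zero =>
        have : c0.comp (LinearMap.mulLeft K (lam⁻¹ ^ 0)) = c0 := by ext x; simp
        rw [this]; exact hc0'
      | succ k ih =>
        have h7 := key (c0.comp (LinearMap.mulLeft K (lam⁻¹ ^ (k + 1)))) (fun w => by
          have h8 : (c0.comp (LinearMap.mulLeft K (lam⁻¹ ^ (k + 1)))).comp
              (LinearMap.mulLeft K lam) = c0.comp (LinearMap.mulLeft K (lam⁻¹ ^ k)) := by
            ext x
            simp only [LinearMap.comp_apply, LinearMap.mulLeft_apply]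
            congr 1
            rw [pow_succ, mul_assoc, ← mul_assoc lam⁻¹ lam x, inv_mul_cancel₀ hlam0, one_mul]
          rw [h8]
          exact LinearMap.congr_fun ih w)
        change (f'.comp (rk _ P)).comp i' = 0
        rw [h7, LinearMap.zero_comp]
    have hall2 : ∀ c : L →ₗ[K] K, ρ c = 0 := by
      intro c
      obtain ⟨x, rfl⟩ := dual_eq hfL c0 hc0 c
      by_cases hx : x = 0
      · have : c0.comp (LinearMap.mulLeft K x) = 0 := by ext y; simp [hx]
        rw [this, map_zero]
      · obtain ⟨k, hk⟩ := hlam x⁻¹ (inv_ne_zero hx)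
        have : x = lam⁻¹ ^ k := by rw [inv_pow, ← hk, inv_inv]
        rw [this]; exact hall k
    have hall3 : ∀ c : L →ₗ[K] K, f'.comp (rk c P) = 0 := fun c =>
      key c (fun w => LinearMap.congr_fun (hall2 _) w)
    have hf' : f' = 0 := by
      ext φ
      let B := Module.finBasis K L
      have hφ : φ = ∑ t, rk (A := A) (B.coord t) P (φ (B t)) := by
        apply B.ext
        intro s
        rw [LinearMap.sum_apply]
        rw [Finset.sum_eq_single s]
        · simp [rk]
        · intro t _ hts
          simp [rk, hts.symm]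
        · intro hs; exact absurd (Finset.mem_univ s) hs
      rw [hφ, map_sum, LinearMap.zero_apply]
      apply Finset.sum_eq_zero
      intro t _
      exact LinearMap.congr_fun (hall3 (B.coord t)) _
    refine LinearMap.ext fun n => ?_
    obtain ⟨φ, rfl⟩ := (LinearMap.range j).mkQ_surjective n
    exact LinearMap.congr_fun hf' φ
  -- the projection `N → Hom(L,Z)`
  let q : P →ₗ[A] Z := p1.comp a
  have hqj : LinearMap.range j ≤ LinearMap.ker (post K L q) := by
    rintro _ ⟨φ, rfl⟩
    rw [LinearMap.mem_ker]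
    ext x
    change p1 (a (j φ x)) = 0
    rw [hj, map_sub, map_sub, ha.comp, hai, h1.comp]
    simp
  let π : N →ₗ[A] (L →ₗ[K] Z) := (LinearMap.range j).liftQ (post K L q) hqj
  have hπ : ∀ φ x, π ((LinearMap.range j).mkQ φ) x = p1 (a (φ x)) := fun φ x => rfl
  -- the inclusion `Hom(L,W) → N`
  let θ : (L →ₗ[K] W) →ₗ[A] N := (LinearMap.range j).mkQ.comp (post K L i')
  have hθ : Injective θ := by
    rw [injective_iff_map_eq_zero]
    intro φ hφ
    obtain ⟨ψ, hψ⟩ := mem_of_mkQ hφ
    have hψ0 : ψ = 0 := by
      ext x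
      apply h2.inj
      have h3 := LinearMap.congr_fun hψ x
      rw [hj] at h3
      have h4 := congrArg b h3
      rw [map_sub, hbj, hb.comp, sub_zero] at h4
      rw [h4]
      change b (i' (φ x)) = i2 0
      rw [hb.comp, map_zero]
    ext x
    apply hb.inj
    have h3 := LinearMap.congr_fun hψ x
    rw [hψ0, map_zero] at h3
    change 0 = i' (φ x) at h3
    rw [← h3, LinearMap.zero_apply, map_zero]
  have hθπ : ∀ n, π n = 0 → ∃ φ, θ φ = n := by
    intro n hn
    obtain ⟨φ, rfl⟩ := (LinearMap.range j).mkQ_surjective n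
    have h3 : ∀ x, p2 (b (φ x)) = 0 := fun x => by
      rw [← hab, ← hπ, hn]; rfl
    obtain ⟨w', hw'⟩ := factor_inj (i2.restrictScalars K) h2.inj
      ((b.restrictScalars K).comp φ) (fun x => h2.exact _ (h3 x))
    have h4 : ∀ x, b (φ x - j' (w' x)) = 0 := fun x => by
      rw [map_sub, hbj, sub_eq_zero]
      exact (hw' x).symm
    obtain ⟨w'', hw''⟩ := factor_inj (i'.restrictScalars K) hb.inj
      (φ - (j'.restrictScalars K).comp w') (fun x => hb.exact _ (h4 x))
    refine ⟨w'' + pre (A := A) K W lam w', ?_⟩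
    rw [← sub_eq_zero]
    change (LinearMap.range j).mkQ _ - (LinearMap.range j).mkQ _ = 0
    rw [← map_sub]
    apply mkQ_zero
    refine ⟨-w', ?_⟩
    ext x
    rw [hj]
    have h5 : i' (w'' x) = φ x - j' (w' x) := hw'' x
    change j' (-(w' x)) - i' (-(w' (lam * x))) = i' (w'' x + w' (lam * x)) - φ x
    rw [map_add, h5, map_neg, map_neg]
    abel
  -- `N` is in `F`
  have hF : InF A M N := by
    intro f
    obtain ⟨G, _, _, α, β, p', q', hβ, hα, hαβ, hp', hq'⟩ := pushout h1 h2
    have hfMZ : Finite (M →ₗ[A] Z) := finite_lin hfM hfZ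
    let ρ : L →+ (M →ₗ[A] Z) :=
      { toFun := fun x => (ev K Z x).comp (π.comp f)
        map_zero' := by ext m; simp [ev]
        map_add' := fun x y => by ext m; simp [ev] }
    obtain ⟨x0, hx0, hx0'⟩ := exists_ne_of_card ρ hcard2
    have key : ∀ x, ρ x = 0 → ρ (lam * x) = 0 := by
      intro x hx
      let ψ0 : (L →ₗ[K] P) →ₗ[A] G :=
        (α.comp a).comp (ev K P x) + (β.comp b).comp (ev K P (lam * x))
      have hψj : LinearMap.range j ≤ LinearMap.ker ψ0 := by
        rintro _ ⟨φ, rfl⟩
        rw [LinearMap.mem_ker]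
        change α (a (j φ x)) + β (b (j φ (lam * x))) = 0
        rw [hj, hj]
        simp only [map_sub, ha.comp, hb.comp, hai, hbj, ← hαβ]
        simp
      let ψ : N →ₗ[A] G := (LinearMap.range j).liftQ ψ0 hψj
      have hrange : ∀ m, ∃ e, β e = (ψ.comp f) m := by
        intro m
        obtain ⟨φ, hφ⟩ := (LinearMap.range j).mkQ_surjective (f m)
        have h3 : p1 (a (φ x)) = 0 := by
          have := LinearMap.congr_fun hx m
          change π (f m) x = 0 at this
          rw [← hφ] at this
          exact this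
        obtain ⟨w, hw⟩ := h1.exact _ h3
        refine ⟨i2 w + b (φ (lam * x)), ?_⟩
        rw [LinearMap.comp_apply, ← hφ]
        change _ = α (a (φ x)) + β (b (φ (lam * x)))
        rw [map_add, ← hαβ, hw]
      obtain ⟨g, hg⟩ := factor_inj β hβ.inj (ψ.comp f) hrange
      have hg0 : g = 0 := hE2 g
      ext m
      obtain ⟨φ, hφ⟩ := (LinearMap.range j).mkQ_surjective (f m)
      change π (f m) (lam * x) = 0
      have h3 : p1 (a (φ x)) = 0 := by
        have := LinearMap.congr_fun hx m
        change π (f m) x = 0 at this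
        rw [← hφ] at this
        exact this
      obtain ⟨w, hw⟩ := h1.exact _ h3
      have h4 := hg m
      rw [hg0, LinearMap.zero_apply, map_zero, LinearMap.comp_apply, ← hφ] at h4
      change 0 = α (a (φ x)) + β (b (φ (lam * x))) at h4
      rw [← hw, hαβ, ← map_add] at h4
      have h5 : i2 w + b (φ (lam * x)) = 0 := hβ.inj (by rw [← h4, map_zero])
      have h6 := congrArg p2 h5
      rw [map_add, h2.comp, zero_add, map_zero] at h6
      rw [← hφ, hπ, hab, h6]
    have hall : ∀ k : ℕ, ρ (lam ^ k * x0) = 0 := by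
      intro k
      induction k with
      | zero => simpa using hx0'
      | succ k ih =>
        have := key _ ih
        rwa [← mul_assoc, ← pow_succ'] at this
    have hall2 : ∀ x, ρ x = 0 := by
      intro x
      by_cases hx : x = 0
      · rw [hx, map_zero]
      · obtain ⟨k, hk⟩ := hlam (x * x0⁻¹) (mul_ne_zero hx (inv_ne_zero hx0))
        have : x = lam ^ k * x0 := by rw [← hk, mul_assoc, inv_mul_cancel₀ hx0, mul_one]
        rw [this]; exact hall k
    have hπf : ∀ m, π (f m) = 0 := by
      intro m
      ext x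
      exact LinearMap.congr_fun (hall2 x) m
    obtain ⟨g, hg⟩ := factor_inj θ hθ f (fun m => hθπ _ (hπf m))
    have hW : InF A M W := hE2.of_inj i2 h2.inj
    ext m
    rw [← hg]
    have : g m = 0 := by
      ext x
      have := hW ((ev K W x).comp g)
      exact LinearMap.congr_fun this m
    rw [this, map_zero]
    rfl
  -- conclusion
  have hsub := h.disj N hfN hT hF
  constructor
  intro z z'
  suffices hz : ∀ z : Z, z = 0 by rw [hz z, hz z']
  intro z
  obtain ⟨e, rfl⟩ := h1.surj z
  obtain ⟨p, rfl⟩ := ha.surj e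
  obtain ⟨c, hc⟩ := exists_ne (0 : L →ₗ[K] K)
  obtain ⟨x, hx⟩ : ∃ x, c x ≠ 0 := by
    by_contra hcon
    push Not at hcon
    exact hc (LinearMap.ext hcon)
  have h3 : π ((LinearMap.range j).mkQ (rk (A := A) c P p)) x = 0 := by
    rw [Subsingleton.elim ((LinearMap.range j).mkQ (rk (A := A) c P p)) 0, map_zero]
    rfl
  rw [hπ] at h3
  change p1 ((a.restrictScalars K) (c x • p)) = 0 at h3
  rw [map_smul] at h3
  change (p1.restrictScalars K) (c x • a p) = 0 at h3
  rw [map_smul] at h3
  exact (smul_eq_zero.mp h3).resolve_left hx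

end star

section star2

variable {A : Type u} [Ring A]
variable {M Y Z W E1 E2 : Type u}
variable [AddCommGroup M] [Module A M] [AddCommGroup Y] [Module A Y]
variable [AddCommGroup Z] [Module A Z]
variable [AddCommGroup W] [Module A W]
variable [AddCommGroup E1] [Module A E1]
variable [AddCommGroup E2] [Module A E2]

/-- the `K`-module structure on an `A`-module -/
@[reducible] def kmod (K : Type u) [Field K] (A : Type u) [Ring A] [Algebra K A] (Z : Type u)
    [AddCommGroup Z] [Module A Z] : Module K Z := Module.compHom Z (algebraMap K A)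

theorem kmod_tower (K : Type u) [Field K] (A : Type u) [Ring A] [Algebra K A] (Z : Type u)
    [AddCommGroup Z] [Module A Z] : @IsScalarTower K A Z _ _ (kmod K A Z).toSMul := by
  let _ := kmod K A Z
  refine ⟨fun k a z => ?_⟩
  change (k • a) • z = (algebraMap K A k) • (a • z)
  rw [Algebra.smul_def, mul_smul]

/-- No common extension data. -/
theorem star (K : Type u) [Field K] [Finite K] [Algebra K A] (h : TPair A M Y)
    (hfW : Finite W) (hfZ : Finite Z)
    {i1 : W →ₗ[A] E1} {p1 : E1 →ₗ[A] Z} (h1 : SES i1 p1) (hE1 : InT A Y E1)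
    {i2 : W →ₗ[A] E2} {p2 : E2 →ₗ[A] Z} (h2 : SES i2 p2) (hE2 : InF A M E2) :
    Subsingleton Z := by
  obtain ⟨P, iP, mP, a, b, i', j', hb, ha, hab, hai, hbj⟩ := pullback h1 h2
  have hfE1 : Finite E1 := h1.finite hfW hfZ
  have hfP : Finite P := ha.finite hfW hfE1
  obtain ⟨L, _, _, hfL, hcard, lam, hlam0, hlam⟩ := exists_big_ext K
    (Nat.card (W →ₗ[A] Y) + Nat.card (M →ₗ[A] Z))
  let _ := kmod K A Z
  let _ := kmod K A W
  let _ := kmod K A E1
  let _ := kmod K A E2
  let _ := kmod K A P
  have := kmod_tower K A Z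
  have := kmod_tower K A W
  have := kmod_tower K A E1
  have := kmod_tower K A E2
  have := kmod_tower K A P
  exact star_aux (K := K) hfL h hfW hfZ hfP h1 hE1 h2 hE2 hb ha hab hai hbj lam hlam0 hlam
    (by omega) (by omega)

end star2

end Bic
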