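import Pool.Agent.Helper16.Bic.Basic

universe u

namespace Bic

open Function

section gen
variable {A : Type u} [Ring A]

/-- Finite modules `M`, `Y` with `Hom(M,Y)=0` and no nonzero finite module `N` with
`Hom(M,N)=0=Hom(N,Y)`. -/
structure TPair (A : Type u) [Ring A] (M Y : Type u) [AddCommGroup M] [Module A M]
    [AddCommGroup Y] [Module A Y] : Prop where
  finM : Finite M
  finY : Finite Y
  hMY : InT A Y M
  disj : ∀ (N : Type u) [AddCommGroup N] [Module A N], Finite N → InT A Y N → InF A M N →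
    Subsingleton N

/-- `T`-simple modules. -/
structure TSimple (A : Type u) [Ring A] (Y X : Type u) [AddCommGroup Y] [Module A Y]
    [AddCommGroup X] [Module A X] : Prop where
  fin : Finite X
  inT : InT A Y X
  nt : Nontrivial X
  sub : ∀ L : Submodule A X, InT A Y L → L = ⊥ ∨ L = ⊤

/-- `T`-tops. -/
structure TTop (A : Type u) [Ring A] (M Y S : Type u) [AddCommGroup M] [Module A M]
    [AddCommGroup Y] [Module A Y] [AddCommGroup S] [Module A S] : Prop where
  simple : TSimple A Y S
  top : ∀ (Z : Type u) [AddCommGroup Z] [Module A Z], Finite Z → InT A Y Z →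
    ∀ g : Z →ₗ[A] S, Surjective g → InF A M (LinearMap.ker g) → Injective g

/-- `F`-simple modules. -/
structure FSimple (A : Type u) [Ring A] (M X : Type u) [AddCommGroup M] [Module A M]
    [AddCommGroup X] [Module A X] : Prop where
  fin : Finite X
  inF : InF A M X
  nt : Nontrivial X
  quot : ∀ L : Submodule A X, InF A M (X ⧸ L) → L = ⊥ ∨ L = ⊤

/-- `F`-tops. -/
structure FTop (A : Type u) [Ring A] (M Y S : Type u) [AddCommGroup M] [Module A M]
    [AddCommGroup Y] [Module A Y] [AddCommGroup S] [Module A S] : Prop where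
  simple : FSimple A M S
  top : ∀ (W : Type u) [AddCommGroup W] [Module A W], Finite W → InF A M W →
    ∀ i : S →ₗ[A] W, Injective i → InT A Y (W ⧸ LinearMap.range i) → Surjective i

variable {M Y X Z W E Z' W' U V S : Type u}
variable [AddCommGroup M] [Module A M] [AddCommGroup Y] [Module A Y]
variable [AddCommGroup X] [Module A X]
variable [AddCommGroup Z] [Module A Z] [AddCommGroup W] [Module A W]
variable [AddCommGroup E] [Module A E]
variable [AddCommGroup Z'] [Module A Z'] [AddCommGroup W'] [Module A W']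
variable [AddCommGroup U] [Module A U] [AddCommGroup V] [Module A V]
variable [AddCommGroup S] [Module A S]

theorem ne_zero_iff_range (f : Z →ₗ[A] W) : f = 0 ↔ LinearMap.range f = ⊥ := by
  rw [LinearMap.range_eq_bot]

theorem InT.range (hZ : InT A Y Z) (f : Z →ₗ[A] W) : InT A Y (LinearMap.range f) :=
  hZ.of_surj f.rangeRestrict f.surjective_rangeRestrict

theorem InF.sub (hW : InF A M W) (L : Submodule A W) : InF A M L :=
  hW.of_inj L.subtype L.injective_subtype

theorem InT.quot (hZ : InT A Y Z) (L : Submodule A Z) : InT A Y (Z ⧸ L) :=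
  hZ.of_surj L.mkQ L.mkQ_surjective

theorem InT.of_subsingleton (h : Subsingleton Z) : InT A Y Z := fun f => by
  ext z; rw [Subsingleton.elim z 0]; simp

theorem InF.of_subsingleton (h : Subsingleton W) : InF A M W := fun f => by
  ext z; exact Subsingleton.elim _ _

theorem TPair.hom_zero (h : TPair A M Y) (hf : Finite Z) (hZ : InT A Y Z) (hW : InF A M W)
    (f : Z →ₗ[A] W) : f = 0 := by
  have : Subsingleton (LinearMap.range f) :=
    h.disj _ (Finite.of_surjective _ f.surjective_rangeRestrict) (hZ.range f) (hW.sub _)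
  rw [ne_zero_iff_range]
  exact (Submodule.subsingleton_iff_eq_bot).mp this

theorem TPair.hMY' (h : TPair A M Y) : InF A M Y := h.hMY

/-- The torsion radical. -/
def tor (A : Type u) [Ring A] (Y N : Type u) [AddCommGroup Y] [Module A Y]
    [AddCommGroup N] [Module A N] : Submodule A N := sSup {L | InT A Y L}

theorem tor_inT : InT A Y (tor A Y Z) := by
  intro f
  have hle : tor A Y Z ≤ (LinearMap.ker f).map (tor A Y Z).subtype := by
    apply sSup_le
    intro L hL x hx
    have hxt : L ≤ tor A Y Z := le_sSup hL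
    have h0 : f.comp (Submodule.inclusion hxt) = 0 := hL _
    refine ⟨⟨x, hxt hx⟩, ?_, rfl⟩
    exact LinearMap.congr_fun h0 ⟨x, hx⟩
  ext x
  obtain ⟨y, hy, hyx⟩ := hle x.2
  have : y = x := Subtype.ext hyx
  rw [← this]
  exact hy

theorem le_tor {L : Submodule A Z} (h : InT A Y L) : L ≤ tor A Y Z := le_sSup h

theorem eq_bot_of_map {f : Z →ₗ[A] Z'} (hf : Injective f) {L : Submodule A Z}
    (h : L.map f = ⊥) : L = ⊥ := by
  rw [eq_bot_iff]
  intro x hx
  have : f x ∈ L.map f := ⟨x, hx, rfl⟩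
  rw [h, Submodule.mem_bot] at this
  exact hf (by rw [this, map_zero])

theorem finite_quot (hf : Finite Z) (L : Submodule A Z) : Finite (Z ⧸ L) :=
  Finite.of_surjective _ L.mkQ_surjective

theorem SES.comap (L : Submodule A Z) (Q : Submodule A (Z ⧸ L)) :
    ∃ (i : L →ₗ[A] (Q.comap L.mkQ)) (p : (Q.comap L.mkQ) →ₗ[A] Q), SES i p ∧
      (∀ x, ((i x : Q.comap L.mkQ) : Z) = x) ∧ (∀ x, ((p x : Q) : Z ⧸ L) = L.mkQ x) := by
  refine ⟨L.subtype.codRestrict (Q.comap L.mkQ) (fun x => ?_),
    (L.mkQ.comp (Q.comap L.mkQ).subtype).codRestrict Q (fun x => x.2), ⟨?_, ?_, ?_, ?_⟩, ?_, ?_⟩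
  · rw [Submodule.mem_comap, Submodule.mkQ_apply, (Submodule.Quotient.mk_eq_zero L).mpr]
    · exact Q.zero_mem
    · exact x.2
  · intro a b hab
    exact Subtype.ext (congrArg (fun t : Q.comap L.mkQ => (t : Z)) hab)
  · rintro ⟨q, hq⟩
    obtain ⟨z, rfl⟩ := L.mkQ_surjective q
    exact ⟨⟨z, hq⟩, rfl⟩
  · intro w
    apply Subtype.ext
    change L.mkQ (w : Z) = 0
    simp
  · intro e he
    have : L.mkQ (e : Z) = 0 := congrArg Subtype.val he
    rw [Submodule.mkQ_apply, Submodule.Quotient.mk_eq_zero] at this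
    exact ⟨⟨e, this⟩, rfl⟩
  · intro x; rfl
  · intro x; rfl

theorem TPair.quot_tor (h : TPair A M Y) : InF A M (Z ⧸ tor A Y Z) := by
  intro g
  obtain ⟨i, p, hip, -, -⟩ := SES.comap (tor A Y Z) (LinearMap.range g)
  have h1 : InT A Y ((LinearMap.range g).comap (tor A Y Z).mkQ) :=
    hip.inT tor_inT (h.hMY.range g)
  have h2 := le_tor h1
  ext m
  obtain ⟨z, hz⟩ := (tor A Y Z).mkQ_surjective (g m)
  have h3 : z ∈ (LinearMap.range g).comap (tor A Y Z).mkQ := ⟨m, hz.symm⟩
  have h4 := h2 h3
  rw [← hz]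
  simpa using h4

theorem inF_of_forall (h : TPair A M Y) (h1 : ∀ L : Submodule A Z, InT A Y L → L = ⊥) :
    InF A M Z := fun f => by
  rw [ne_zero_iff_range]
  exact h1 _ (h.hMY.range f)

theorem InT.congr (e : Z ≃ₗ[A] Z') (h : InT A Y Z) : InT A Y Z' :=
  h.of_surj e.toLinearMap e.surjective

theorem InF.congr (e : Z ≃ₗ[A] Z') (h : InF A M Z) : InF A M Z' :=
  h.of_inj e.symm.toLinearMap e.symm.injective

theorem InT.map {L : Submodule A Z} (h : InT A Y L) (f : Z →ₗ[A] Z') : InT A Y (L.map f) := by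
  have : LinearMap.range (f.comp L.subtype) = L.map f := by
    rw [LinearMap.range_comp, Submodule.range_subtype]
  rw [← this]
  exact h.range _

/-- proper submodules of a `T`-simple are in `F` -/
theorem TSimple.inF (h : TPair A M Y) (hX : TSimple A Y X) (L : Submodule A X) (hL : L ≠ ⊤) :
    InF A M L := by
  apply inF_of_forall h
  intro L' hL'
  rcases hX.sub _ (hL'.map L.subtype) with h1 | h1
  · exact eq_bot_of_map L.injective_subtype h1
  · exfalso
    apply hL
    rw [eq_top_iff, ← h1]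
    exact Submodule.map_subtype_le L L'

theorem TSimple.surj (hX : TSimple A Y X) (hZ : InT A Y Z) (f : Z →ₗ[A] X) (hf : f ≠ 0) :
    Surjective f := by
  rcases hX.sub _ (hZ.range f) with h1 | h1
  · exact absurd ((ne_zero_iff_range f).mpr h1) hf
  · exact LinearMap.range_eq_top.mp h1

theorem TSimple.exists_surj (h : TPair A M Y) (hX : TSimple A Y X) :
    ∃ g : M →ₗ[A] X, Surjective g := by
  by_contra hcon
  have : InF A M X := by
    intro f
    by_contra hf
    exact hcon ⟨f, hX.surj h.hMY f hf⟩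
  have h1 := h.disj X hX.fin hX.inT this
  have := hX.nt
  exact not_subsingleton X h1

theorem TSimple.card_le (h : TPair A M Y) (hX : TSimple A Y X) : Nat.card X ≤ Nat.card M := by
  obtain ⟨g, hg⟩ := hX.exists_surj h
  have := h.finM
  exact Nat.card_le_card_of_surjective g hg

/-- proper quotients of an `F`-simple are in `T` -/
theorem FSimple.inT (h : TPair A M Y) (hX : FSimple A M X) (L : Submodule A X) (hL : L ≠ ⊥) :
    InT A Y (X ⧸ L) := by
  intro f
  let f' := f.comp L.mkQ
  have hle : L ≤ LinearMap.ker f' := by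
    intro x hx
    rw [LinearMap.mem_ker, LinearMap.comp_apply, Submodule.mkQ_apply,
      (Submodule.Quotient.mk_eq_zero L).mpr hx, map_zero]
  have hinj : Injective ((LinearMap.ker f').liftQ f' le_rfl) := by
    rw [← LinearMap.ker_eq_bot, Submodule.ker_liftQ_eq_bot _ _ _ le_rfl]
  rcases hX.quot _ (h.hMY'.of_inj _ hinj) with h1 | h1
  · rw [h1] at hle
    exact absurd (le_bot_iff.mp hle) hL
  · have h2 : f' = 0 := LinearMap.ker_eq_top.mp h1
    ext x
    exact LinearMap.congr_fun h2 x

theorem FSimple.inj (hX : FSimple A M X) (hW : InF A M W) (f : X →ₗ[A] W) (hf : f ≠ 0) :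
    Injective f := by
  have hinj : Injective ((LinearMap.ker f).liftQ f le_rfl) := by
    rw [← LinearMap.ker_eq_bot, Submodule.ker_liftQ_eq_bot _ _ _ le_rfl]
  rcases hX.quot _ (hW.of_inj _ hinj) with h1 | h1
  · exact LinearMap.ker_eq_bot.mp h1
  · exact absurd (LinearMap.ker_eq_top.mp h1) hf

theorem FSimple.exists_inj (h : TPair A M Y) (hX : FSimple A M X) :
    ∃ g : X →ₗ[A] Y, Injective g := by
  by_contra hcon
  have : InT A Y X := by
    intro f
    by_contra hf
    exact hcon ⟨f, hX.inj h.hMY' f hf⟩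
  have h1 := h.disj X hX.fin this hX.inF
  have := hX.nt
  exact not_subsingleton X h1

theorem FSimple.card_le (h : TPair A M Y) (hX : FSimple A M X) : Nat.card X ≤ Nat.card Y := by
  obtain ⟨g, hg⟩ := hX.exists_inj h
  have := h.finY
  exact Nat.card_le_card_of_injective g hg

/-- existence of `T`-simple submodules, minimal with a given property stable enough. -/
theorem exists_TSimple_sub (hf : Finite Z) (hn : Nontrivial Z) (hZ : InT A Y Z) :
    ∃ L : Submodule A Z, TSimple A Y L := by
  have : WellFoundedLT (Submodule A Z) := Finite.to_wellFoundedLT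
  obtain ⟨L, hL⟩ := exists_minimal_of_wellFoundedLT
    (fun L : Submodule A Z => L ≠ ⊥ ∧ InT A Y L) ⟨⊤, top_ne_bot, hZ.congr Submodule.topEquiv.symm⟩
  refine ⟨L, inferInstance, hL.prop.2, (Submodule.nontrivial_iff_ne_bot).mpr hL.prop.1, ?_⟩
  intro L' hL'
  by_cases hb : L' = ⊥
  · exact Or.inl hb
  right
  have h1 : L'.map L.subtype ≤ L := Submodule.map_subtype_le L L'
  have h2 : L'.map L.subtype ≠ ⊥ := by
    intro h3
    exact hb (eq_bot_of_map L.injective_subtype h3)
  have h3 : L ≤ L'.map L.subtype := hL.le_of_le ⟨h2, hL'.map _⟩ h1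
  rw [eq_top_iff]
  intro x _
  obtain ⟨y, hy, hyx⟩ := h3 x.2
  have : y = x := Subtype.ext hyx
  rwa [← this]

/-- existence of `F`-simple quotients. -/
theorem exists_FSimple_quot (hf : Finite W) (hn : Nontrivial W) (hW : InF A M W) :
    ∃ L : Submodule A W, FSimple A M (W ⧸ L) := by
  have : WellFoundedGT (Submodule A W) := Finite.to_wellFoundedGT
  obtain ⟨L, hL⟩ := exists_maximal_of_wellFoundedGT
    (fun L : Submodule A W => L ≠ ⊤ ∧ InF A M (W ⧸ L))
    ⟨⊥, bot_ne_top, hW.congr (Submodule.quotEquivOfEqBot _ rfl).symm⟩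
  refine ⟨L, finite_quot hf L, hL.prop.2, Submodule.Quotient.nontrivial_iff.mpr hL.prop.1, ?_⟩
  intro L' hL'
  by_cases hb : L' = ⊤
  · exact Or.inr hb
  left
  have h1 : L ≤ L'.comap L.mkQ := by
    intro x hx
    rw [Submodule.mem_comap]
    have : L.mkQ x = 0 := by simpa using hx
    rw [this]
    exact L'.zero_mem
  have h2 : L'.comap L.mkQ ≠ ⊤ := by
    intro h3
    apply hb
    rw [eq_top_iff]
    intro q _
    obtain ⟨z, rfl⟩ := L.mkQ_surjective q
    have : z ∈ L'.comap L.mkQ := h3 ▸ Submodule.mem_top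
    exact this
  have h4 : InF A M (W ⧸ L'.comap L.mkQ) := by
    have hle : L'.comap L.mkQ ≤ LinearMap.ker (L'.mkQ.comp L.mkQ) := by
      intro x hx
      have : L.mkQ x ∈ L' := hx
      rw [LinearMap.mem_ker, LinearMap.comp_apply]
      simpa using this
    refine hL'.of_inj ((L'.comap L.mkQ).liftQ (L'.mkQ.comp L.mkQ) hle) ?_
    rw [← LinearMap.ker_eq_bot, Submodule.ker_liftQ_eq_bot]
    intro x hx
    rw [LinearMap.mem_ker, LinearMap.comp_apply] at hx
    have : L.mkQ x ∈ L' := by simpa using hx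
    exact this
  have h3 : L'.comap L.mkQ ≤ L := hL.le_of_ge ⟨h2, h4⟩ h1
  rw [eq_bot_iff]
  intro q hq
  obtain ⟨z, rfl⟩ := L.mkQ_surjective q
  have : z ∈ L := h3 hq
  simpa using this

end gen

end Bic
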