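import Pool.Agent.Helper16.Bic.Tops

universe u

namespace Bic

open Function

section gen
variable {A : Type u} [Ring A]

variable {M Y X Z W E Z' W' U V S : Type u}
variable [AddCommGroup M] [Module A M] [AddCommGroup Y] [Module A Y]
variable [AddCommGroup X] [Module A X]
variable [AddCommGroup Z] [Module A Z] [AddCommGroup W] [Module A W]
variable [AddCommGroup E] [Module A E]
variable [AddCommGroup Z'] [Module A Z'] [AddCommGroup W'] [Module A W']
variable [AddCommGroup U] [Module A U] [AddCommGroup V] [Module A V]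
variable [AddCommGroup S] [Module A S]

theorem mkQ_zero {L : Submodule A Z} {x : Z} (h : x ∈ L) : L.mkQ x = 0 := by
  rw [Submodule.mkQ_apply]; exact (Submodule.Quotient.mk_eq_zero L).mpr h

theorem mem_of_mkQ {L : Submodule A Z} {x : Z} (h : L.mkQ x = 0) : x ∈ L := by
  rw [Submodule.mkQ_apply] at h; exact (Submodule.Quotient.mk_eq_zero L).mp h

theorem mkQ_range (i : W →ₗ[A] E) (s : W) : (LinearMap.range i).mkQ (i s) = 0 :=
  mkQ_zero (LinearMap.mem_range_self i s)

theorem inF_ker_iff (g : Z →ₗ[A] X) :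
    InF A M (LinearMap.ker g) ↔ ∀ φ : M →ₗ[A] Z, (∀ m, g (φ m) = 0) → φ = 0 := by
  constructor
  · intro h φ hφ
    have := h (φ.codRestrict (LinearMap.ker g) hφ)
    ext m
    exact congrArg Subtype.val (LinearMap.congr_fun this m)
  · intro h φ
    have := h ((LinearMap.ker g).subtype.comp φ) (fun m => (φ m).2)
    ext m
    exact LinearMap.congr_fun this m

theorem inT_coker_iff (i : X →ₗ[A] W) :
    InT A Y (W ⧸ LinearMap.range i) ↔ ∀ φ : W →ₗ[A] Y, (∀ m, φ (i m) = 0) → φ = 0 := by
  constructor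
  · intro h φ hφ
    have hle : LinearMap.range i ≤ LinearMap.ker φ := by
      rintro _ ⟨x, rfl⟩
      exact hφ x
    have := h ((LinearMap.range i).liftQ φ hle)
    ext m
    exact LinearMap.congr_fun this ((LinearMap.range i).mkQ m)
  · intro h φ
    have := h (φ.comp (LinearMap.range i).mkQ) (fun m => by
      rw [LinearMap.comp_apply, mkQ_range, map_zero])
    ext m
    exact LinearMap.congr_fun this m

/-- largest `T`-submodule inside `K`. -/
def torIn (A : Type u) [Ring A] (Y : Type u) {N : Type u} [AddCommGroup Y] [Module A Y]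
    [AddCommGroup N] [Module A N] (K : Submodule A N) : Submodule A N :=
  sSup {L | L ≤ K ∧ InT A Y L}

theorem torIn_le (K : Submodule A Z) : torIn A Y K ≤ K := sSup_le fun _ h => h.1

theorem torIn_inT (K : Submodule A Z) : InT A Y (torIn A Y K) := by
  intro f
  have hle : torIn A Y K ≤ (LinearMap.ker f).map (torIn A Y K).subtype := by
    apply sSup_le
    intro L hL x hx
    have hxt : L ≤ torIn A Y K := le_sSup hL
    have h0 : f.comp (Submodule.inclusion hxt) = 0 := hL.2 _
    refine ⟨⟨x, hxt hx⟩, ?_, rfl⟩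
    exact LinearMap.congr_fun h0 ⟨x, hx⟩
  ext x
  obtain ⟨y, hy, hyx⟩ := hle x.2
  have : y = x := Subtype.ext hyx
  rw [← this]
  exact hy

theorem TPair.quot_torIn (h : TPair A M Y) (K : Submodule A Z)
    (φ : M →ₗ[A] Z ⧸ torIn A Y K) (hφ : ∀ m, ∃ k ∈ K, (torIn A Y K).mkQ k = φ m) : φ = 0 := by
  obtain ⟨i, p, hip, -, -⟩ := SES.comap (torIn A Y K) (LinearMap.range φ)
  have h1 : InT A Y ((LinearMap.range φ).comap (torIn A Y K).mkQ) :=
    hip.inT (torIn_inT K) (h.hMY.range φ)
  have h0 : (LinearMap.range φ).comap (torIn A Y K).mkQ ≤ K := by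
    intro x hx
    obtain ⟨m, hm⟩ := hx
    obtain ⟨k, hk, hkm⟩ := hφ m
    have h5 : (torIn A Y K).mkQ (x - k) = 0 := by
      rw [map_sub, hkm, hm, sub_self]
    rw [Submodule.mkQ_apply, Submodule.Quotient.mk_eq_zero] at h5
    have h6 := K.add_mem (torIn_le K h5) hk
    simpa using h6
  have h2 : (LinearMap.range φ).comap (torIn A Y K).mkQ ≤ torIn A Y K := le_sSup ⟨h0, h1⟩
  ext m
  obtain ⟨z, hz⟩ := (torIn A Y K).mkQ_surjective (φ m)
  have h3 : z ∈ (LinearMap.range φ).comap (torIn A Y K).mkQ := ⟨m, hz.symm⟩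
  have h4 := h2 h3
  rw [← hz]
  simpa using h4

/-- (7) -/
theorem TTop.ker_inT (h : TPair A M Y) (hS : TTop A M Y S) (hf : Finite Z) (hZ : InT A Y Z)
    (g : Z →ₗ[A] S) (hg : Surjective g) : InT A Y (LinearMap.ker g) := by
  let t := torIn A Y (LinearMap.ker g)
  have ht : t ≤ LinearMap.ker g := torIn_le _
  let g' : (Z ⧸ t) →ₗ[A] S := t.liftQ g ht
  have hg' : Surjective g' := by
    intro s
    obtain ⟨z, rfl⟩ := hg s
    exact ⟨t.mkQ z, rfl⟩
  have hk : InF A M (LinearMap.ker g') := by
    rw [inF_ker_iff]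
    intro φ hφ
    apply h.quot_torIn
    intro m
    obtain ⟨z, hz⟩ := t.mkQ_surjective (φ m)
    refine ⟨z, ?_, hz⟩
    have := hφ m
    rw [← hz] at this
    exact this
  have hinj := hS.top (Z ⧸ t) (finite_quot hf t) (hZ.quot t) g' hg' hk
  have heq : LinearMap.ker g = t := by
    apply le_antisymm _ ht
    intro z hz
    have : g' (t.mkQ z) = g' 0 := by
      rw [map_zero]; exact hz
    have := hinj this
    rwa [Submodule.mkQ_apply, Submodule.Quotient.mk_eq_zero] at this
  rw [heq]
  exact torIn_inT _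

/-- (7') -/
theorem FTop.coker_inF (h : TPair A M Y) (hS : FTop A M Y S) (hf : Finite W) (hW : InF A M W)
    (i : S →ₗ[A] W) (hi : Injective i) : InF A M (W ⧸ LinearMap.range i) := by
  apply inF_of_forall h
  intro L hL
  obtain ⟨a, p, hap, ha, hp⟩ := SES.comap (LinearMap.range i) L
  let W' := L.comap (LinearMap.range i).mkQ
  have him : ∀ s, i s ∈ W' := fun s => by
    rw [Submodule.mem_comap, mkQ_range]
    exact L.zero_mem
  let i' : S →ₗ[A] W' := i.codRestrict W' him
  have hi' : Injective i' := fun x y hxy => hi (congrArg Subtype.val hxy)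
  have hT : InT A Y (W' ⧸ LinearMap.range i') := by
    rw [inT_coker_iff]
    intro φ hφ
    obtain ⟨ψ, hψ⟩ := factor_surj p hap.surj φ (fun e he => by
      obtain ⟨⟨_, ⟨s, rfl⟩⟩, rfl⟩ := hap.exact e he
      rw [← hφ s]
      congr 1
      exact Subtype.ext (ha _))
    ext e
    rw [← hψ, hL ψ]
    rfl
  have hsurj := hS.top W' inferInstance (hW.sub W') i' hi' hT
  rw [eq_bot_iff]
  intro q hq
  obtain ⟨w, rfl⟩ := (LinearMap.range i).mkQ_surjective q
  obtain ⟨s, hs⟩ := hsurj ⟨w, hq⟩
  have hs' : i s = w := congrArg Subtype.val hs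
  rw [Submodule.mem_bot, ← hs', mkQ_range]

theorem subsing_quot {L : Submodule A Z} (h : Subsingleton (Z ⧸ L)) : L = ⊤ := by
  rw [eq_top_iff]
  intro z _
  have := Subsingleton.elim (L.mkQ z) 0
  rwa [Submodule.mkQ_apply, Submodule.Quotient.mk_eq_zero] at this

/-- (8') -/
theorem FTop.ext_inT (h : TPair A M Y) (hS : FTop A M Y S) (hf : Finite E)
    {i : S →ₗ[A] E} {p : E →ₗ[A] Z} (hs : SES i p) (hZ : InT A Y Z)
    (hns : ¬ ∃ s : Z →ₗ[A] E, ∀ z, p (s z) = z) : InT A Y E := by
  let t := tor A Y E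
  let c : S →ₗ[A] E ⧸ t := t.mkQ.comp i
  by_cases hc : c = 0
  · obtain ⟨d, hd⟩ := factor_surj p hs.surj t.mkQ (fun e he => by
      obtain ⟨w, rfl⟩ := hs.exact e he
      exact LinearMap.congr_fun hc w)
    have hds : Surjective d := by
      intro q
      obtain ⟨e, rfl⟩ := t.mkQ_surjective q
      exact ⟨p e, hd e⟩
    have h1 : InT A Y (E ⧸ t) := hZ.of_surj d hds
    exact (SES.of_sub t).inT tor_inT h1
  · exfalso
    have hinj := hS.simple.inj h.quot_tor c hc
    have hF := hS.coker_inF h (finite_quot hf t) h.quot_tor c hinj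
    have hT : InT A Y ((E ⧸ t) ⧸ LinearMap.range c) := by
      obtain ⟨d, hd⟩ := factor_surj p hs.surj ((LinearMap.range c).mkQ.comp t.mkQ)
        (fun e he => by
          obtain ⟨w, rfl⟩ := hs.exact e he
          exact mkQ_range c w)
      refine hZ.of_surj d ?_
      intro q
      obtain ⟨e', rfl⟩ := (LinearMap.range c).mkQ_surjective q
      obtain ⟨e, rfl⟩ := t.mkQ_surjective e'
      exact ⟨p e, hd e⟩
    have hsub := h.disj _ (finite_quot (finite_quot hf t) _) hT hF
    have hsurj : Surjective c := LinearMap.range_eq_top.mp (subsing_quot hsub)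
    let θ := LinearEquiv.ofBijective c ⟨hinj, hsurj⟩
    apply hns
    apply hs.section_of_retraction (θ.symm.toLinearMap.comp t.mkQ)
    intro w
    change θ.symm (c w) = w
    rw [LinearEquiv.symm_apply_eq]
    rfl

theorem exists_max_card {P : ℕ → Prop} (n0 b : ℕ) (h0 : P n0) (hb : ∀ n, P n → n ≤ b) :
    ∃ n, P n ∧ ∀ m, P m → m ≤ n := by
  have h1 := Nat.sSup_mem (s := {n | P n}) ⟨n0, h0⟩ ⟨b, fun n hn => hb n hn⟩
  exact ⟨_, h1, fun m hm => le_csSup ⟨b, fun n hn => hb n hn⟩ hm⟩

/-- every `T`-simple is a quotient of a `T`-top by a submodule in `F` -/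
theorem TSimple.exists_top (h : TPair A M Y) (hX : TSimple A Y X) :
    ∃ (S : Type u) (_ : AddCommGroup S) (_ : Module A S), TTop A M Y S ∧
      ∃ g : S →ₗ[A] X, Surjective g ∧ InF A M (LinearMap.ker g) := by
  obtain ⟨n, ⟨S, iS, mS, hS, ⟨g, hg, hgk⟩, hn⟩, hmax⟩ := exists_max_card
    (P := fun n => ∃ (S : Type u) (_ : AddCommGroup S) (_ : Module A S), TSimple A Y S ∧
      (∃ g : S →ₗ[A] X, Surjective g ∧ InF A M (LinearMap.ker g)) ∧ Nat.card S = n)
    (Nat.card X) (Nat.card M)
    ⟨X, inferInstance, inferInstance, hX, ⟨LinearMap.id, surjective_id,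
      by rw [inF_ker_iff]; intro φ hφ; ext m; exact hφ m⟩, rfl⟩
    (by
      rintro n ⟨S, _, _, hS, -, rfl⟩
      exact hS.card_le h)
  refine ⟨S, iS, mS, ⟨hS, ?_⟩, g, hg, hgk⟩
  intro Z _ _ hfZ hZ g' hg' hk'
  have : WellFoundedLT (Submodule A Z) := Finite.to_wellFoundedLT
  obtain ⟨L, hL⟩ := exists_minimal_of_wellFoundedLT
    (fun L : Submodule A Z => L.map g' = ⊤ ∧ InT A Y L)
    ⟨⊤, by rw [Submodule.map_top]; exact LinearMap.range_eq_top.mpr hg',
      hZ.congr Submodule.topEquiv.symm⟩
  let c : L →ₗ[A] S := g'.comp L.subtype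
  have hcs : Surjective c := by
    intro s
    have : s ∈ L.map g' := hL.prop.1 ▸ Submodule.mem_top
    obtain ⟨l, hl, hls⟩ := this
    exact ⟨⟨l, hl⟩, hls⟩
  have hLs : TSimple A Y L := by
    refine ⟨inferInstance, hL.prop.2, ?_, ?_⟩
    · have := hS.nt
      exact hcs.nontrivial
    · intro L' hL'
      have hL'' := hL'.map L.subtype
      have h1 : L'.map L.subtype ≤ L := Submodule.map_subtype_le L L'
      rcases hS.sub _ (hL''.map g') with h2 | h2
      · left
        have h3 : L'.map L.subtype ≤ LinearMap.ker g' := by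
          intro x hx
          have : g' x ∈ (L'.map L.subtype).map g' := ⟨x, hx, rfl⟩
          rw [h2, Submodule.mem_bot] at this
          exact this
        have h4 : InF A M (L'.map L.subtype) :=
          hk'.of_inj (Submodule.inclusion h3) (Submodule.inclusion_injective h3)
        have h5 := h.disj _ inferInstance hL'' h4
        exact eq_bot_of_map L.injective_subtype ((Submodule.subsingleton_iff_eq_bot).mp h5)
      · right
        have h3 : L ≤ L'.map L.subtype := hL.le_of_le ⟨h2, hL''⟩ h1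
        rw [eq_top_iff]
        intro x _
        obtain ⟨y, hy, hyx⟩ := h3 x.2
        have : y = x := Subtype.ext hyx
        rwa [← this]
  have hcard : Nat.card L ≤ n := by
    apply hmax
    refine ⟨L, inferInstance, inferInstance, hLs, ⟨g.comp c, hg.comp hcs, ?_⟩, rfl⟩
    rw [inF_ker_iff] at hgk hk' ⊢
    intro φ hφ
    have h1 : c.comp φ = 0 := hgk _ hφ
    have h2 : L.subtype.comp φ = 0 := hk' _ (fun m => LinearMap.congr_fun h1 m)
    ext m
    exact LinearMap.congr_fun h2 m
  have hbij := hcs.bijective_of_nat_card_le (hn ▸ hcard)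
  let θ := LinearEquiv.ofBijective c hbij
  have hθ : ∀ s, g' (θ.symm s : L) = s := fun s => θ.apply_symm_apply s
  let r : Z →ₗ[A] LinearMap.ker g' :=
    (LinearMap.id - L.subtype.comp (θ.symm.toLinearMap.comp g')).codRestrict _ (fun z => by
      rw [LinearMap.mem_ker]
      simp [hθ])
  have hr : Surjective r := by
    rintro ⟨z, hz⟩
    refine ⟨z, Subtype.ext ?_⟩
    have hz' : g' z = 0 := hz
    simp [r, hz']
  have h5 := h.disj _ inferInstance (hZ.of_surj r hr) hk'
  rw [← LinearMap.ker_eq_bot]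
  exact (Submodule.subsingleton_iff_eq_bot).mp h5

/-- every `F`-simple is contained in an `F`-top with quotient in `T` -/
theorem FSimple.exists_top (h : TPair A M Y) (hX : FSimple A M X) :
    ∃ (S : Type u) (_ : AddCommGroup S) (_ : Module A S), FTop A M Y S ∧
      ∃ g : X →ₗ[A] S, Injective g ∧ InT A Y (S ⧸ LinearMap.range g) := by
  obtain ⟨n, ⟨S, iS, mS, hS, ⟨g, hg, hgk⟩, hn⟩, hmax⟩ := exists_max_card
    (P := fun n => ∃ (S : Type u) (_ : AddCommGroup S) (_ : Module A S), FSimple A M S ∧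
      (∃ g : X →ₗ[A] S, Injective g ∧ InT A Y (S ⧸ LinearMap.range g)) ∧ Nat.card S = n)
    (Nat.card X) (Nat.card Y)
    ⟨X, inferInstance, inferInstance, hX, ⟨LinearMap.id, injective_id,
      by rw [inT_coker_iff]; intro φ hφ; ext m; exact hφ m⟩, rfl⟩
    (by
      rintro n ⟨S, _, _, hS, -, rfl⟩
      exact hS.card_le h)
  refine ⟨S, iS, mS, ⟨hS, ?_⟩, g, hg, hgk⟩
  intro W _ _ hfW hW i' hi' hk'
  have : WellFoundedGT (Submodule A W) := Finite.to_wellFoundedGT
  obtain ⟨L, hL⟩ := exists_maximal_of_wellFoundedGT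
    (fun L : Submodule A W => Injective (L.mkQ.comp i') ∧ InF A M (W ⧸ L))
    ⟨⊥, by
      constructor
      · intro x y hxy
        apply hi'
        have h0 : (⊥ : Submodule A W).mkQ (i' x - i' y) = 0 := by
          rw [map_sub, sub_eq_zero]; exact hxy
        rw [Submodule.mkQ_apply, Submodule.Quotient.mk_eq_zero, Submodule.mem_bot] at h0
        exact sub_eq_zero.mp h0
      · exact hW.congr (Submodule.quotEquivOfEqBot _ rfl).symm⟩
  let c : S →ₗ[A] W ⧸ L := L.mkQ.comp i'
  have hci : Injective c := hL.prop.1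
  have hLs : FSimple A M (W ⧸ L) := by
    refine ⟨finite_quot hfW L, hL.prop.2, ?_, ?_⟩
    · have := hS.nt
      exact hci.nontrivial
    · intro L' hL'
      have h1 : L ≤ L'.comap L.mkQ := by
        intro x hx
        rw [Submodule.mem_comap, Submodule.mkQ_apply, (Submodule.Quotient.mk_eq_zero L).mpr hx]
        exact L'.zero_mem
      have h4 : InF A M (W ⧸ L'.comap L.mkQ) := by
        have hle : L'.comap L.mkQ ≤ LinearMap.ker (L'.mkQ.comp L.mkQ) := by
          intro x hx
          have : L.mkQ x ∈ L' := hx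
          rw [LinearMap.mem_ker, LinearMap.comp_apply]
          simpa using this
        refine hL'.of_inj ((L'.comap L.mkQ).liftQ (L'.mkQ.comp L.mkQ) hle) ?_
        rw [← LinearMap.ker_eq_bot, Submodule.ker_liftQ_eq_bot]
        intro x hx
        rw [LinearMap.mem_ker, LinearMap.comp_apply] at hx
        have : L.mkQ x ∈ L' := by simpa using hx
        exact this
      by_cases hz : ((L'.comap L.mkQ).mkQ.comp i') = 0
      · right
        have h5 : InT A Y (W ⧸ L'.comap L.mkQ) := by
          have hle : LinearMap.range i' ≤ LinearMap.ker (L'.comap L.mkQ).mkQ := by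
            rintro _ ⟨x, rfl⟩
            exact LinearMap.congr_fun hz x
          refine hk'.of_surj ((LinearMap.range i').liftQ _ hle) ?_
          intro q
          obtain ⟨w, rfl⟩ := (L'.comap L.mkQ).mkQ_surjective q
          exact ⟨(LinearMap.range i').mkQ w, rfl⟩
        have h6 := subsing_quot (h.disj _ (finite_quot hfW _) h5 h4)
        rw [eq_top_iff]
        intro q _
        obtain ⟨z, rfl⟩ := L.mkQ_surjective q
        have : z ∈ L'.comap L.mkQ := h6 ▸ Submodule.mem_top
        exact this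
      · left
        have h5 := hS.inj h4 _ hz
        have h3 : L'.comap L.mkQ ≤ L := hL.le_of_ge ⟨h5, h4⟩ h1
        rw [eq_bot_iff]
        intro q hq
        obtain ⟨z, rfl⟩ := L.mkQ_surjective q
        have : z ∈ L := h3 hq
        rw [Submodule.mem_bot, Submodule.mkQ_apply, (Submodule.Quotient.mk_eq_zero L).mpr this]
  have hcard : Nat.card (W ⧸ L) ≤ n := by
    apply hmax
    refine ⟨W ⧸ L, inferInstance, inferInstance, hLs, ⟨c.comp g, hci.comp hg, ?_⟩, rfl⟩
    rw [inT_coker_iff] at hgk hk' ⊢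
    intro φ hφ
    have h1 : φ.comp c = 0 := hgk _ hφ
    have h2 : φ.comp L.mkQ = 0 := hk' _ (fun m => LinearMap.congr_fun h1 m)
    ext m
    exact LinearMap.congr_fun h2 m
  have := finite_quot hfW L
  have hbij := hci.bijective_of_nat_card_le (hn ▸ hcard)
  let θ := LinearEquiv.ofBijective c hbij
  have hθ : ∀ s, L.mkQ (i' (θ.symm s)) = s := fun s => θ.apply_symm_apply s
  have hθ2 : ∀ s, θ.symm (L.mkQ (i' s)) = s := fun s => θ.symm_apply_apply s
  let r : W →ₗ[A] L :=
    (LinearMap.id - i'.comp (θ.symm.toLinearMap.comp L.mkQ)).codRestrict _ (fun z => by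
      rw [← Submodule.Quotient.mk_eq_zero L, ← Submodule.mkQ_apply]
      rw [LinearMap.sub_apply, map_sub]
      simp only [LinearMap.id_apply, LinearMap.comp_apply, LinearEquiv.coe_coe]
      rw [hθ, sub_self])
  have hr : Surjective r := by
    rintro ⟨z, hz⟩
    refine ⟨z, Subtype.ext ?_⟩
    have hz' : L.mkQ z = 0 := by rw [Submodule.mkQ_apply, Submodule.Quotient.mk_eq_zero]; exact hz
    simp only [r, LinearMap.codRestrict_apply, LinearMap.sub_apply, LinearMap.id_apply,
      LinearMap.comp_apply, hz', map_zero, sub_zero]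
  have hrk : LinearMap.range i' ≤ LinearMap.ker r := by
    rintro _ ⟨s, rfl⟩
    rw [LinearMap.mem_ker]
    apply Subtype.ext
    simp only [r, LinearMap.codRestrict_apply, LinearMap.sub_apply, LinearMap.id_apply,
      LinearMap.comp_apply, LinearEquiv.coe_coe, hθ2, sub_self, Submodule.coe_zero]
  have hLT : InT A Y L := by
    refine hk'.of_surj ((LinearMap.range i').liftQ r hrk) ?_
    intro l
    obtain ⟨w, rfl⟩ := hr l
    exact ⟨(LinearMap.range i').mkQ w, rfl⟩
  have h5 := (Submodule.subsingleton_iff_eq_bot).mp (h.disj _ inferInstance hLT (hW.sub L))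
  intro w
  obtain ⟨s, hs⟩ := hbij.2 (L.mkQ w)
  refine ⟨s, ?_⟩
  have h6 : L.mkQ (i' s - w) = 0 := by rw [map_sub, sub_eq_zero]; exact hs
  rw [Submodule.mkQ_apply, Submodule.Quotient.mk_eq_zero, h5, Submodule.mem_bot] at h6
  exact sub_eq_zero.mp h6

end gen

end Bic
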