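import Pool.Agent.Helper16.Bic.Defs
import Pool.Agent.Helper16.Bic.Alg

universe u

namespace Bic

open Function

section wrap

variable {A : Type u} [Ring A]

theorem SES.exact' {W E Z : Type u} [AddCommGroup W] [Module A W] [AddCommGroup E] [Module A E]
    [AddCommGroup Z] [Module A Z] {i : W →ₗ[A] E} {p : E →ₗ[A] Z} (h : SES i p) : Exact i p := by
  intro e
  constructor
  · intro he
    exact h.exact e he
  · rintro ⟨w, rfl⟩
    exact h.comp w

theorem SES.of_exact {W E Z : Type u} [AddCommGroup W] [Module A W] [AddCommGroup E] [Module A E]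
    [AddCommGroup Z] [Module A Z] {i : W →ₗ[A] E} {p : E →ₗ[A] Z} (hi : Injective i)
    (hp : Surjective p) (h : Exact i p) : SES i p :=
  ⟨hi, hp, fun w => (h (i w)).mpr ⟨w, rfl⟩, fun e he => (h e).mp he⟩

theorem SES.modFinite {W E Z : Type u} [AddCommGroup W] [Module A W] [AddCommGroup E]
    [Module A E] [AddCommGroup Z] [Module A Z] {i : W →ₗ[A] E} {p : E →ₗ[A] Z} (h : SES i p)
    (hW : Module.Finite A W) (hZ : Module.Finite A Z) : Module.Finite A E := by
  have hk : (LinearMap.ker p).FG := by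
    have : LinearMap.ker p = LinearMap.range i := by
      ext e
      constructor
      · intro he; exact h.exact e he
      · rintro ⟨w, rfl⟩; exact h.comp w
    rw [this]
    have : Module.Finite A (LinearMap.range i) :=
      Module.Finite.of_surjective i.rangeRestrict i.surjective_rangeRestrict
    exact Module.Finite.iff_fg.mp this
  refine ⟨Submodule.fg_of_fg_map_of_fg_inf_ker p ?_ ?_⟩
  · rw [Submodule.map_top, LinearMap.range_eq_top.mpr h.surj]
    exact Module.Finite.fg_top
  · rw [top_inf_eq]; exact hk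

/-- the class of f.g. modules without maps to `W` is a torsion class -/
theorem isTorsionClass_inT (W : Type u) [AddCommGroup W] [Module A W] :
    IsTorsionClass A (fun X => Module.Finite A X ∧ InT A W X) where
  fg X hX := hX.1
  quot X Z p hp hX := by
    have := hX.1
    exact ⟨Module.Finite.of_surjective p hp, hX.2.of_surj p hp⟩
  ext X E Z i p hi hp hip hX hZ := by
    have h := SES.of_exact hi hp hip
    exact ⟨h.modFinite hX.1 hZ.1, h.inT hX.2 hZ.2⟩

/-- the class of f.g. modules without maps from `X` is a torsion-free class -/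
theorem isTorsionFreeClass_inF [IsNoetherianRing A] (X : Type u) [AddCommGroup X] [Module A X] :
    IsTorsionFreeClass A (fun W => Module.Finite A W ∧ InF A X W) where
  fg W hW := hW.1
  sub W Z i hi hW := by
    have := hW.1
    exact ⟨Module.Finite.of_injective i hi, hW.2.of_inj i hi⟩
  ext W E Z i p hi hp hip hW hZ := by
    have h := SES.of_exact hi hp hip
    exact ⟨h.modFinite hW.1 hZ.1, h.inF hW.2 hZ.2⟩

variable {T : ModuleCat.{u} A → Prop}

theorem IsTorsionClass.surj (hT : IsTorsionClass A T) {X Z : Type u} [AddCommGroup X]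
    [Module A X] [AddCommGroup Z] [Module A Z] (p : X →ₗ[A] Z) (hp : Surjective p)
    (hX : T (ModuleCat.of A X)) : T (ModuleCat.of A Z) :=
  hT.quot (ModuleCat.of A X) (ModuleCat.of A Z) p hp hX

theorem IsTorsionClass.ses (hT : IsTorsionClass A T) {X E Z : Type u} [AddCommGroup X]
    [Module A X] [AddCommGroup E] [Module A E] [AddCommGroup Z] [Module A Z] {i : X →ₗ[A] E}
    {p : E →ₗ[A] Z} (h : SES i p) (hX : T (ModuleCat.of A X)) (hZ : T (ModuleCat.of A Z)) :
    T (ModuleCat.of A E) :=
  hT.ext (ModuleCat.of A X) (ModuleCat.of A E) (ModuleCat.of A Z) i p h.inj h.surj h.exact' hX hZ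

/-- the torsion submodule -/
theorem IsTorsionClass.exists_torsion [IsNoetherianRing A] (hT : IsTorsionClass A T)
    {M : ModuleCat.{u} A} (hM : T M) (X : Type u) [AddCommGroup X] [Module A X]
    (hX : Module.Finite A X) : ∃ L : Submodule A X, T (ModuleCat.of A L) ∧
      perp A T (ModuleCat.of A (X ⧸ L)) := by
  have : IsNoetherian A X := isNoetherian_of_isNoetherianRing_of_finite A X
  have hbot : T (ModuleCat.of A (⊥ : Submodule A X)) := by
    refine hT.quot M (ModuleCat.of A (⊥ : Submodule A X)) 0 ?_ hM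
    intro x
    exact ⟨0, Subsingleton.elim (α := (⊥ : Submodule A X)) _ _⟩
  obtain ⟨L, hL⟩ := exists_maximal_of_wellFoundedGT
    (fun L : Submodule A X => T (ModuleCat.of A L)) ⟨⊥, hbot⟩
  refine ⟨L, hL.prop, ?_, ?_⟩
  · change Module.Finite A (X ⧸ L)
    infer_instance
  · intro Z hZ f
    let f' : Z →ₗ[A] (X ⧸ L) := f
    obtain ⟨i, p, hip, -, -⟩ := SES.comap L (LinearMap.range f')
    have h1 : T (ModuleCat.of A (LinearMap.range f')) :=
      hT.quot Z (ModuleCat.of A (LinearMap.range f')) f'.rangeRestrict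
        f'.surjective_rangeRestrict hZ
    have h2 := hT.ses hip hL.prop h1
    have h3 : L ≤ (LinearMap.range f').comap L.mkQ := by
      intro x hx
      rw [Submodule.mem_comap, mkQ_zero hx]
      exact Submodule.zero_mem _
    have h4 := hL.le_of_ge h2 h3
    change f' = 0
    ext z
    obtain ⟨x, hx⟩ := L.mkQ_surjective (f' z)
    have h5 : x ∈ L := h4 ⟨z, hx.symm⟩
    rw [← hx, mkQ_zero h5]
    rfl

theorem inT_fin_pi {P Y : Type u} [AddCommGroup P] [Module A P] [AddCommGroup Y] [Module A Y]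
    {ι : Type} [Finite ι] (h : InT A Y P) : InT A Y (ι → P) := by
  classical
  intro f
  apply LinearMap.pi_ext'
  intro i
  rw [h (f.comp (LinearMap.single A (fun _ => P) i)), LinearMap.zero_comp]

/-- left approximations -/
theorem exists_left_approx (K : Type u) [Field K] [Algebra K A] [Module.Finite K A]
    (P : Type u) [AddCommGroup P] [Module A P] (hP : Module.Finite A P)
    (X : Type u) [AddCommGroup X] [Module A X] (hX : Module.Finite A X) :
    ∃ (m : ℕ) (Z : Type u) (_ : AddCommGroup Z) (_ : Module A Z) (q : (Fin m → P) →ₗ[A] Z)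
      (f : X →ₗ[A] Z), Surjective q ∧
      ∀ (Z' : Type u) [AddCommGroup Z'] [Module A Z'] (g : X →ₗ[A] Z'), InFac A P Z' →
        ∃ h : Z →ₗ[A] Z', h ∘ₗ f = g := by
  classical
  let _ := kmod K A P
  have := kmod_tower K A P
  have hKP : Module.Finite K P := Module.Finite.trans A P
  obtain ⟨n, c, hc⟩ := Module.Finite.exists_fin' A X
  obtain ⟨r, s, hs⟩ := Module.Finite.exists_fin (R := K) (M := P)
  let e : Fin n × Fin r ≃ Fin (n * r) := finProdFinEquiv
  let α : (Fin n → A) →ₗ[A] (Fin (n * r) → P) :=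
    LinearMap.pi (fun t => (LinearMap.toSpanSingleton A P (s (e.symm t).2)).comp
      (LinearMap.proj (e.symm t).1))
  have hα : ∀ z t, α z t = z (e.symm t).1 • s (e.symm t).2 := fun z t => rfl
  -- every map `A^n → P` factors through `α`
  have hfac : ∀ φ : (Fin n → A) →ₗ[A] P, ∃ B : (Fin (n * r) → P) →ₗ[A] P,
      ∀ z, B (α z) = φ z := by
    intro φ
    have h1 : ∀ i : Fin n, ∃ x : Fin r → K, ∑ j, x j • s j = φ (Pi.single i 1) := by
      intro i
      have : φ (Pi.single i 1) ∈ Submodule.span K (Set.range s) := by rw [hs]; trivial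
      exact (Submodule.mem_span_range_iff_exists_fun K).mp this
    choose x hx using h1
    let B : (Fin (n * r) → P) →ₗ[A] P :=
      ∑ t, (show P →ₗ[A] P from
        { toFun := fun y => x (e.symm t).1 (e.symm t).2 • y
          map_add' := fun y y' => smul_add _ _ _
          map_smul' := fun a y => by
            rw [RingHom.id_apply, smul_comm] }).comp (LinearMap.proj t)
    refine ⟨B, fun z => ?_⟩
    have h2 : B (α z) = ∑ t, x (e.symm t).1 (e.symm t).2 • (z (e.symm t).1 • s (e.symm t).2) := by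
      simp only [B, LinearMap.sum_apply]
      rfl
    rw [h2, Equiv.sum_comp e.symm (fun ij : Fin n × Fin r => x ij.1 ij.2 • (z ij.1 • s ij.2)),
      Fintype.sum_prod_type]
    have h3 : z = ∑ i, z i • (Pi.single i (1 : A) : Fin n → A) := by
      ext y
      simp [Finset.sum_apply, Pi.single_apply]
    conv_rhs => rw [h3, map_sum]
    apply Finset.sum_congr rfl
    intro i _
    rw [map_smul, ← hx, Finset.smul_sum]
    apply Finset.sum_congr rfl
    intro j _
    rw [smul_comm]
  let Q := (LinearMap.ker c).map α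
  obtain ⟨f, hf⟩ := factor_surj c hc (Q.mkQ.comp α) (fun z hz => mkQ_zero ⟨z, hz, rfl⟩)
  refine ⟨n * r, (Fin (n * r) → P) ⧸ Q, inferInstance, inferInstance, Q.mkQ, f,
    Q.mkQ_surjective, ?_⟩
  intro Z' _ _ g hZ'
  obtain ⟨t, τ, hτ⟩ := hZ'
  obtain ⟨φ, hφ⟩ := Module.projective_lifting_property τ (g.comp c) hτ
  have hB : ∀ i : Fin t, ∃ B : (Fin (n * r) → P) →ₗ[A] P, ∀ z, B (α z) = φ z i :=
    fun i => hfac ((LinearMap.proj i).comp φ)
  choose B hB using hB
  let BB : (Fin (n * r) → P) →ₗ[A] (Fin t → P) := LinearMap.pi B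
  have hBB : ∀ z, BB (α z) = φ z := fun z => by
    ext i
    exact hB i z
  have hker : Q ≤ LinearMap.ker (τ.comp BB) := by
    rintro _ ⟨z, hz, rfl⟩
    rw [LinearMap.mem_ker, LinearMap.comp_apply, hBB]
    have h1 := LinearMap.congr_fun hφ z
    rw [LinearMap.comp_apply, LinearMap.comp_apply] at h1
    rw [h1]
    have hz' : c z = 0 := hz
    rw [hz', map_zero]
  refine ⟨Q.liftQ _ hker, ?_⟩
  ext x
  obtain ⟨z, rfl⟩ := hc x
  rw [LinearMap.comp_apply, hf]
  change τ (BB (α z)) = g (c z)
  rw [hBB]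
  exact LinearMap.congr_fun hφ z

/-- Bicompact torsion classes are functorially finite over fields algebraic over a finite field. -/
theorem bicompact_functoriallyFinite (p : ℕ) [Fact p.Prime] (K : Type u) [Field K]
    [Algebra (ZMod p) K] [Algebra.IsAlgebraic (ZMod p) K] (A : Type u) [Ring A] [Algebra K A]
    [Module.Finite K A] (T : ModuleCat.{u} A → Prop) (hT : IsTorsionClass A T)
    (hb : IsBicompact A T) : IsFunctoriallyFinite A T := by
  have hN : IsNoetherianRing A := IsNoetherianRing.of_finite K A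
  obtain ⟨⟨M, hfM, hTM⟩, ⟨N, hfN, hTN⟩⟩ := hb
  have hMT : T M := by rw [hTM]; exact fun T' _ h => h
  have hNF : perp A T N := by rw [hTN]; exact fun F' _ h => h
  have hTiff : ∀ (X : Type u) [AddCommGroup X] [Module A X], Module.Finite A X → InT A N X →
      T (ModuleCat.of A X) := by
    intro X _ _ hfX hX
    obtain ⟨L, hL, hXL⟩ := hT.exists_torsion hMT X hfX
    rw [hTN] at hXL
    have h1 := hXL _ (isTorsionFreeClass_inF (A := A) X) ⟨hfN, hX⟩
    have h2 : L.mkQ = 0 := h1.2 L.mkQ
    refine hT.surj L.subtype ?_ hL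
    intro x
    exact ⟨⟨x, mem_of_mkQ (LinearMap.congr_fun h2 x)⟩, rfl⟩
  have hTT : ∀ X : ModuleCat.{u} A, T X → InT A N X := fun X hX => hNF.2 X hX
  have hFF : ∀ (W : Type u) [AddCommGroup W] [Module A W], InF A M W →
      ∀ X : ModuleCat.{u} A, T X → ∀ f : X →ₗ[A] W, f = 0 := by
    intro W _ _ hW X hX
    rw [hTM] at hX
    exact (hX _ (isTorsionClass_inT (A := A) W) ⟨hfM, hW⟩).2
  obtain ⟨P, _, _, hfP, hPT, hP⟩ := core2 p K A M N hfM hfN (hTT M hMT) (by
    intro Z _ _ hfZ hZ hZF
    have h1 := hFF Z hZF (ModuleCat.of A Z) (hTiff Z hfZ hZ) LinearMap.id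
    constructor
    intro a b
    have ha : a = 0 := LinearMap.congr_fun h1 a
    have hb : b = 0 := LinearMap.congr_fun h1 b
    rw [ha, hb])
  refine ⟨?_, ?_⟩
  · intro X hfX
    obtain ⟨m, Z, _, _, q, f, hq, hf⟩ := exists_left_approx (A := A) K P hfP X hfX
    refine ⟨ModuleCat.of A Z, f, ?_, ?_⟩
    · apply hTiff Z (Module.Finite.of_surjective q hq)
      exact (inT_fin_pi hPT).of_surj q hq
    · intro Z' g hZ'
      exact hf Z' g (hP Z' (hT.fg Z' hZ') (hTT Z' hZ'))
  · intro X hfX
    obtain ⟨L, hL, hXL⟩ := hT.exists_torsion hMT X hfX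
    refine ⟨ModuleCat.of A L, L.subtype, hL, ?_⟩
    intro Z' g hZ'
    have h1 : L.mkQ.comp g = 0 := hXL.2 Z' hZ' _
    obtain ⟨h, hh⟩ := factor_inj L.subtype L.injective_subtype g (fun x =>
      ⟨⟨g x, mem_of_mkQ (LinearMap.congr_fun h1 x)⟩, rfl⟩)
    exact ⟨h, LinearMap.ext hh⟩

end wrap

end Bic
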